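import Pool.Agent.H49.MT.Chain

/-!
# Module ChEdge: a chain spans many edges

Induction on `i`: `X (i+1) = insert w (X i)`, `w ∉ X i`: `∑_{v ∈ X (i+1)} nin v (X (i+1)) = ∑_{v ∈ X i} nin v (X i) + 2 nin w (X i)` (`nin v (insert w X) = nin v X + [v ~ w]`,
`∑_{v ∈ X} [v ~ w] = nin w X`, `nin w (insert w X) = nin w X`), and `r w ≤ nin w (X i)` (hypothesis; by `dv_sdiff` `Dv G (A \ X i) w < 0` means `Dv G A w < 2 nin w (X i)`).
-/

set_option autoImplicit false

open Finset

namespace Pool.Agent.H49.MT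

open Pool.Agent.H49.FR

variable {V : Type} [Fintype V] [DecidableEq V] {G : SimpleGraph V} [DecidableRel G.Adj]

private lemma nin_eq (v : V) (A : Finset V) : nin G v A = ∑ w ∈ A, if G.Adj v w then 1 else 0 := by
  unfold nin
  rw [← Finset.sum_filter, Finset.sum_const, smul_eq_mul, mul_one]
  congr 1
  ext w
  simp [SimpleGraph.mem_neighborFinset, and_comm]

lemma sum_insert_nin {X : Finset V} {w : V} (hw : w ∉ X) :
    ∑ v ∈ insert w X, nin G v (insert w X) = ∑ v ∈ X, nin G v X + 2 * nin G w X := by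
  have h1 : ∀ v, nin G v (insert w X) = (if G.Adj v w then 1 else 0) + nin G v X := by
    intro v
    rw [nin_eq, nin_eq, Finset.sum_insert hw]
  rw [Finset.sum_insert hw, h1 w, if_neg (G.irrefl), zero_add]
  have h2 : ∑ v ∈ X, nin G v (insert w X) = nin G w X + ∑ v ∈ X, nin G v X := by
    rw [nin_eq w X, ← Finset.sum_add_distrib]
    refine Finset.sum_congr rfl fun v _ => ?_
    rw [h1 v]
    congr 1
    by_cases hvw : G.Adj v w
    · rw [if_pos hvw, if_pos hvw.symm]
    · rw [if_neg hvw, if_neg (fun h => hvw h.symm)]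
  rw [h2]
  ring

theorem ch_edges {A X₀ : Finset V} {X : ℕ → Finset V} {m : ℕ} (h : Ch G A X₀ X m) (r : V → ℕ)
    (hr : ∀ w ∈ A, w ∉ X₀ → ∀ q : ℕ, Dv G A w < 2 * q → r w ≤ q) {i : ℕ} (hi : i ≤ m) :
    2 * ∑ v ∈ X i \ X₀, r v ≤ ∑ v ∈ X i, nin G v (X i) := by
  induction i with
  | zero =>
    rw [h.zero, Finset.sdiff_self, Finset.sum_empty]
    exact Nat.zero_le _
  | succ i ih =>
    have hi' : i ≤ m := by omega
    obtain ⟨w, hwA, hwX, hX, hD⟩ := h.step i (by omega)
    have hs := ch_sub h hi'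
    have hw0 : w ∉ X₀ := fun hh => hwX (hs.1 hh)
    rw [dv_sdiff hs.2 hwA hwX] at hD
    have hr1 : r w ≤ nin G w (X i) := hr w hwA hw0 _ (by linarith)
    have e1 : insert w (X i) \ X₀ = insert w (X i \ X₀) := Finset.insert_sdiff_of_notMem _ hw0
    rw [hX, sum_insert_nin hwX, e1, Finset.sum_insert (fun hh => hwX (Finset.mem_sdiff.1 hh).1)]
    have := ih hi'
    omega

end Pool.Agent.H49.MT
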