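import Pool.Agent.H49.MT.CutF

/-!
# Module Chain: chains of removals

* `dv_sdiff`: for `w ∈ A \ X`, `X ⊆ A`: `nin w (A \ X) = nin w A - nin w X`, `nin w (A \ X)ᶜ = nin w Aᶜ + nin w X`. `dv_sdiff_notMem`: for `w ∉ A` and for `w ∈ X`, in the same way.
* `ch_sub`, `ch_card`: induction. `ch_cut`: `A \ X (i+1) = fl (A \ X i) w` and `cut_fl`.
* `ch_or_stop`: let `m` be given. Induction on `m`: if there is a chain of length `m`, look at `A \ X m`: if some `w ∈ A \ X m` has `Dv G (A \ X m) w < 0` extend the chain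
  (`Function.update X (m+1) (insert w (X m))`), else `Y = X m` is a stopping set. `0 < Dv G (A \ Y) v` for `v ∈ Y \ X₀`: when `v` was removed, from `A \ X i`, we had `Dv G (A \ X i) v < 0`, so
  `Dv G (A \ X (i+1)) v > 0` (`Dv_fl_self`), and for `v ∈ X ⊆ Y`: `Dv G (A \ X) v ≤ Dv G (A \ Y) v` (`nin v` of the complement grows). (It is convenient to prove
  `∀ i ≤ m, ∀ v ∈ X i \ X₀, 0 < Dv G (A \ X i) v` by induction on `i`.)
-/

set_option autoImplicit false

open Finset

namespace Pool.Agent.H49.MT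

open Pool.Agent.H49.FR

variable {V : Type} [Fintype V] [DecidableEq V] {G : SimpleGraph V} [DecidableRel G.Adj]

/-- a chain of `m` removals from `A \ X₀`; the removed vertex has more neighbours outside than inside at its time -/
structure Ch (G : SimpleGraph V) [DecidableRel G.Adj] (A X₀ : Finset V) (X : ℕ → Finset V) (m : ℕ) :
    Prop where
  zero : X 0 = X₀
  sub : X₀ ⊆ A
  step : ∀ i < m, ∃ w ∈ A, w ∉ X i ∧ X (i + 1) = insert w (X i) ∧ Dv G (A \ X i) w < 0

private lemma nin_sd {A X : Finset V} (hX : X ⊆ A) (w : V) :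
    nin G w (A \ X) + nin G w X = nin G w A := by
  unfold nin
  rw [← Finset.card_union_of_disjoint, ← Finset.inter_union_distrib_left,
    Finset.sdiff_union_of_subset hX]
  rw [Finset.disjoint_left]
  intro x h1 h2
  exact (Finset.mem_sdiff.1 (Finset.mem_inter.1 h1).2).2 (Finset.mem_inter.1 h2).2

private lemma nin_sdc {A X : Finset V} (hX : X ⊆ A) (w : V) :
    nin G w (A \ X)ᶜ = nin G w Aᶜ + nin G w X := by
  have h1 := nin_add G w (A \ X)
  have h2 := nin_add G w A
  have h3 := nin_sd (G := G) hX w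
  omega

private lemma nin_mono {A B : Finset V} (h : A ⊆ B) (w : V) : nin G w A ≤ nin G w B := by
  unfold nin
  exact Finset.card_le_card (Finset.inter_subset_inter_left h)

lemma dv_sdiff {A X : Finset V} (hX : X ⊆ A) {w : V} (hw : w ∈ A) (hwX : w ∉ X) :
    Dv G (A \ X) w = Dv G A w - 2 * nin G w X := by
  have h1 := nin_sd (G := G) hX w
  have h2 := nin_sdc (G := G) hX w
  unfold Dv
  rw [if_pos (Finset.mem_sdiff.2 ⟨hw, hwX⟩), if_pos hw]
  omega

lemma dv_sdiff_notMem {A X : Finset V} (hX : X ⊆ A) {w : V} (hw : w ∉ A) :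
    Dv G (A \ X) w = Dv G A w + 2 * nin G w X := by
  have h1 := nin_sd (G := G) hX w
  have h2 := nin_sdc (G := G) hX w
  unfold Dv
  rw [if_neg (fun h => hw (Finset.mem_sdiff.1 h).1), if_neg hw]
  omega

lemma dv_mono {A X Y : Finset V} (hXY : X ⊆ Y) (hY : Y ⊆ A) {w : V} (hw : w ∈ X ∨ w ∉ A) :
    Dv G (A \ X) w ≤ Dv G (A \ Y) w := by
  have h1 : A \ Y ⊆ A \ X := Finset.sdiff_subset_sdiff (Finset.Subset.refl A) hXY
  have h2 : (A \ X)ᶜ ⊆ (A \ Y)ᶜ := Finset.compl_subset_compl.2 h1
  have h3 := nin_mono (G := G) h1 w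
  have h4 := nin_mono (G := G) h2 w
  have h5 : w ∉ A \ X := by
    intro h
    rw [Finset.mem_sdiff] at h
    rcases hw with hw | hw
    · exact h.2 hw
    · exact hw h.1
  have h6 : w ∉ A \ Y := fun h => h5 (h1 h)
  unfold Dv
  rw [if_neg h5, if_neg h6]
  omega

lemma ch_sub {A X₀ : Finset V} {X : ℕ → Finset V} {m : ℕ} (h : Ch G A X₀ X m) {i : ℕ} (hi : i ≤ m) :
    X₀ ⊆ X i ∧ X i ⊆ A := by
  induction i with
  | zero =>
    rw [h.zero]
    exact ⟨Finset.Subset.refl _, h.sub⟩
  | succ i ih =>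
    obtain ⟨h1, h2⟩ := ih (by omega)
    obtain ⟨w, hwA, -, hX, -⟩ := h.step i (by omega)
    rw [hX]
    exact ⟨h1.trans (Finset.subset_insert _ _), Finset.insert_subset hwA h2⟩

lemma ch_card {A X₀ : Finset V} {X : ℕ → Finset V} {m : ℕ} (h : Ch G A X₀ X m) {i : ℕ} (hi : i ≤ m) :
    (X i).card = X₀.card + i := by
  induction i with
  | zero => rw [h.zero, add_zero]
  | succ i ih =>
    have h1 := ih (by omega)
    obtain ⟨w, -, hw, hX, -⟩ := h.step i (by omega)
    rw [hX, Finset.card_insert_of_notMem hw, h1, add_assoc]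

private lemma sd_fl {A X : Finset V} {w : V} (hw : w ∈ A) (hwX : w ∉ X) :
    A \ insert w X = fl (A \ X) w := by
  unfold fl
  rw [if_pos (Finset.mem_sdiff.2 ⟨hw, hwX⟩), Finset.sdiff_insert]

lemma ch_cut {A X₀ : Finset V} {X : ℕ → Finset V} {m : ℕ} (h : Ch G A X₀ X m) {i : ℕ} (hi : i ≤ m) :
    (cut G (A \ X i) : ℤ) ≤ cut G (A \ X₀) - i := by
  induction i with
  | zero =>
    rw [h.zero]
    push_cast
    omega
  | succ i ih =>
    have h1 := ih (by omega)
    obtain ⟨w, hwA, hw, hX, hD⟩ := h.step i (by omega)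
    rw [hX, sd_fl hwA hw, cut_fl]
    push_cast
    omega

private lemma ch_pos {A X₀ : Finset V} {X : ℕ → Finset V} {m : ℕ} (h : Ch G A X₀ X m) {i : ℕ}
    (hi : i ≤ m) : ∀ v ∈ X i, v ∉ X₀ → 0 < Dv G (A \ X i) v := by
  induction i with
  | zero =>
    intro v hv hv0
    rw [h.zero] at hv
    exact absurd hv hv0
  | succ i ih =>
    have h1 := ih (by omega)
    have h2 := (ch_sub h hi).2
    obtain ⟨w, hwA, hw, hX, hD⟩ := h.step i (by omega)
    intro v hv hv0
    have hsub : X i ⊆ X (i + 1) := by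
      rw [hX]
      exact Finset.subset_insert _ _
    by_cases hvi : v ∈ X i
    · exact lt_of_lt_of_le (h1 v hvi hv0) (dv_mono hsub h2 (Or.inl hvi))
    · have hvw : v = w := by
        rw [hX, Finset.mem_insert] at hv
        exact hv.resolve_right hvi
      rw [hvw, hX, sd_fl hwA hw, Dv_fl_self]
      omega

theorem ch_or_stop (A X₀ : Finset V) (h₀ : X₀ ⊆ A) (m : ℕ) :
    (∃ X : ℕ → Finset V, Ch G A X₀ X m) ∨
      ∃ Y : Finset V, X₀ ⊆ Y ∧ Y ⊆ A ∧ Y.card < X₀.card + m ∧
        (∀ w ∈ A, w ∉ Y → 0 ≤ Dv G (A \ Y) w) ∧ ∀ v ∈ Y, v ∉ X₀ → 0 < Dv G (A \ Y) v := by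
  induction m with
  | zero => exact Or.inl ⟨fun _ => X₀, rfl, h₀, fun i hi => absurd hi (Nat.not_lt_zero i)⟩
  | succ m ih =>
    rcases ih with ⟨X, hX⟩ | ⟨Y, h1, h2, h3, h4, h5⟩
    · by_cases hw : ∃ w ∈ A, w ∉ X m ∧ Dv G (A \ X m) w < 0
      · obtain ⟨w, hwA, hwX, hD⟩ := hw
        refine Or.inl ⟨fun i => if i ≤ m then X i else insert w (X m), ?_, h₀, ?_⟩
        · simp only [Nat.zero_le, if_true]
          exact hX.zero
        · intro i hi
          rcases Nat.lt_succ_iff_lt_or_eq.1 hi with h | h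
          · obtain ⟨u, huA, hu, hXu, hDu⟩ := hX.step i h
            refine ⟨u, huA, ?_, ?_, ?_⟩
            · simp only [h.le, if_true]
              exact hu
            · have h' : i + 1 ≤ m := h
              simp only [h.le, h', if_true]
              exact hXu
            · simp only [h.le, if_true]
              exact hDu
          · subst h
            refine ⟨w, hwA, ?_, ?_, ?_⟩
            · simp only [le_refl, if_true]
              exact hwX
            · have h' : ¬ (i + 1 ≤ i) := by omega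
              simp only [le_refl, h', if_true, if_false]
            · simp only [le_refl, if_true]
              exact hD
      · push Not at hw
        refine Or.inr ⟨X m, (ch_sub hX le_rfl).1, (ch_sub hX le_rfl).2, ?_, hw, ch_pos hX le_rfl⟩
        rw [ch_card hX le_rfl]
        omega
    · exact Or.inr ⟨Y, h1, h2, by omega, h4, h5⟩

end Pool.Agent.H49.MT
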