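import Pool.Agent.H49.MT.Chain

/-!
# Module CutXY: cut of `(A \ X) ∪ Y`, `X ⊆ A`, `Y ⊆ Aᶜ`

Let `E X = cut (A \ X) - cut A`, etc. Induction on `Y` (`Finset.induction_on`, insert `w ∉ Y`, `w ∉ A`): `(A \ X) ∪ insert w Y = fl ((A \ X) ∪ Y) w`, so by `cut_fl` the cut changes by
`Dv G ((A \ X) ∪ Y) w = nin w ((A \ X) ∪ Y)ᶜ - nin w ((A \ X) ∪ Y) = Dv G (A ∪ Y) w + 2 nin w X`, and `cut (A ∪ insert w Y) = cut (A ∪ Y) + Dv G (A ∪ Y) w`.
`sum_union_nin`: `∑_{v ∈ X ∪ Y} nin v (X ∪ Y)` for disjoint `X`, `Y`: `nin v (X ∪ Y) = nin v X + nin v Y`, `∑_{v ∈ X} nin v Y = ∑_{v ∈ Y} nin v X`.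
-/

set_option autoImplicit false

open Finset

namespace Pool.Agent.H49.MT

open Pool.Agent.H49.FR

variable {V : Type} [Fintype V] [DecidableEq V] {G : SimpleGraph V} [DecidableRel G.Adj]

private lemma xy_nin_eq_sum (v : V) (A : Finset V) :
    nin G v A = ∑ w ∈ A, if G.Adj v w then 1 else 0 := by
  unfold nin
  rw [← Finset.card_filter]
  congr 1
  ext w
  simp [and_comm]

private lemma xy_nin_union (v : V) {S T : Finset V} (h : Disjoint S T) :
    nin G v (S ∪ T) = nin G v S + nin G v T := by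
  rw [xy_nin_eq_sum, xy_nin_eq_sum, xy_nin_eq_sum, Finset.sum_union h]

private lemma xy_swap (X Y : Finset V) : ∑ v ∈ X, nin G v Y = ∑ v ∈ Y, nin G v X := by
  simp only [xy_nin_eq_sum]
  rw [Finset.sum_comm]
  refine Finset.sum_congr rfl fun u _ => Finset.sum_congr rfl fun w _ => ?_
  simp only [G.adj_comm u w]

theorem cut_xy {A X Y : Finset V} (hX : X ⊆ A) (hY : Y ⊆ Aᶜ) :
    (cut G ((A \ X) ∪ Y) : ℤ) = cut G (A \ X) + cut G (A ∪ Y) - cut G A + 2 * ∑ v ∈ Y, (nin G v X : ℤ) := by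
  induction Y using Finset.induction_on with
  | empty => simp
  | insert w Y hw ih =>
    have hwA : w ∉ A := Finset.mem_compl.1 (hY (Finset.mem_insert_self w Y))
    have hYA : Y ⊆ Aᶜ := fun v hv => hY (Finset.mem_insert_of_mem hv)
    have ih' := ih hYA
    have e1 : (A \ X) ∪ insert w Y = insert w ((A \ X) ∪ Y) := Finset.union_insert _ _ _
    have e2 : A ∪ insert w Y = insert w (A ∪ Y) := Finset.union_insert _ _ _
    have hw1 : w ∉ (A \ X) ∪ Y := by
      rw [Finset.mem_union, Finset.mem_sdiff]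
      rintro (⟨h, -⟩ | h)
      · exact hwA h
      · exact hw h
    have hw2 : w ∉ A ∪ Y := by
      rw [Finset.mem_union]
      rintro (h | h)
      · exact hwA h
      · exact hw h
    have c1 := cut_insert G ((A \ X) ∪ Y) hw1
    have c2 := cut_insert G (A ∪ Y) hw2
    have d1 := nin_add G w ((A \ X) ∪ Y)
    have d2 := nin_add G w (A ∪ Y)
    have hdis : Disjoint ((A \ X) ∪ Y) X := by
      rw [Finset.disjoint_left]
      intro v hv hvX
      rcases Finset.mem_union.1 hv with h | h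
      · exact (Finset.mem_sdiff.1 h).2 hvX
      · exact Finset.mem_compl.1 (hYA h) (hX hvX)
    have e3 : A ∪ Y = ((A \ X) ∪ Y) ∪ X := by
      ext v
      simp only [Finset.mem_union, Finset.mem_sdiff]
      constructor
      · rintro (h | h)
        · by_cases hx : v ∈ X
          · exact Or.inr hx
          · exact Or.inl (Or.inl ⟨h, hx⟩)
        · exact Or.inl (Or.inr h)
      · rintro ((⟨h, -⟩ | h) | h)
        · exact Or.inl h
        · exact Or.inr h
        · exact Or.inl (hX h)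
    have d3 : nin G w (A ∪ Y) = nin G w ((A \ X) ∪ Y) + nin G w X := by
      conv_lhs => rw [e3]
      exact xy_nin_union w hdis
    rw [e1, e2, Finset.sum_insert hw]
    zify at c1 c2 d1 d2 d3
    linarith

theorem sum_union_nin {X Y : Finset V} (h : Disjoint X Y) :
    ∑ v ∈ X ∪ Y, nin G v (X ∪ Y) =
      ∑ v ∈ X, nin G v X + ∑ v ∈ Y, nin G v Y + 2 * ∑ v ∈ Y, nin G v X := by
  rw [Finset.sum_union h]
  simp only [xy_nin_union _ h, Finset.sum_add_distrib]
  rw [xy_swap X Y]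
  ring

end Pool.Agent.H49.MT
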