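import Pool.Agent.H49.MT.CutF

/-!
# Module PF: the functional has the properties `PassF`

Let `k = |A|`, `T k = min k (2m + 1/2 - k)`; for natural `k`: `T (k+1) - T k = 1` for `k < m`, `-1/2` for `k = m`, `-1` for `k > m` (`step`); so the steps are nonzero, of absolute value
at most one, and do not increase with `k` (`step_anti`).
* `near`, `ne`: `F (fl A v) - F A - Dt v = - lam (T k - T (k-1))` for `v ∈ A`, `lam (T (k+1) - T k)` for `v ∉ A` (`cut_fl`, `card_fl_mem`, `card_fl_notMem`), nonzero and of absolute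
  value `≤ lam < η`. `ne`: if `F (fl A v) = F A` then `|Dt v| = |η j| < η`, so `j = 0`, `Dt v = 0`, and the step is nonzero.
* `dir`: the difference depends only on the side and on `k`.
* `opp`: the size is the same (`card_fl_opp`), `cut_fl` twice, `Dv_fl_opp`; `Dt u + Dt v = Dv u + Dv v` as the charges cancel.
* `same`: `cut`: `Dv u + Dv v - 2 ad ≤ Dv u + Dv v` (`Dv_fl_same`); the linear part is additive; `T (k+2) + T k ≤ 2 T (k+1)` or `T (k-2) + T k ≤ 2 T (k-1)`.
-/

set_option autoImplicit false

open Finset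

namespace Pool.Agent.H49.MT

open Pool.Agent.H49.FR

variable {V : Type} [Fintype V] [DecidableEq V] {G : SimpleGraph V} [DecidableRel G.Adj]

/-- the tent -/
private noncomputable def TT (m : ℕ) (x : ℝ) : ℝ := min x (2 * m + 1 / 2 - x)

private lemma FF_eq (h : ℤ) (lam : ℝ) (m : ℕ) (A : Finset V) :
    FF G h lam m A = ((cut G A : ℤ) : ℝ) + h * A.card + lam * TT m A.card := by
  unfold FF TT
  push_cast
  rfl

private lemma step_le (m : ℕ) (x : ℝ) : |TT m (x + 1) - TT m x| ≤ 1 := by
  unfold TT
  rw [abs_le]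
  constructor <;> rcases min_choice (x + 1) (2 * m + 1 / 2 - (x + 1)) with h1 | h1 <;>
    rcases min_choice x (2 * m + 1 / 2 - x) with h2 | h2 <;>
    rw [h1, h2] <;>
    linarith [min_le_left (x + 1) (2 * m + 1 / 2 - (x + 1)), min_le_right (x + 1) (2 * m + 1 / 2 - (x + 1)),
      min_le_left x (2 * m + 1 / 2 - x), min_le_right x (2 * m + 1 / 2 - x)]

private lemma step_ne (m k : ℕ) : TT m ((k : ℝ) + 1) - TT m k ≠ 0 := by
  unfold TT
  intro h
  rcases le_total ((k : ℝ) + 1) (2 * m + 1 / 2 - ((k : ℝ) + 1)) with h1 | h1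
  · rw [min_eq_left h1] at h
    have h2 : (k : ℝ) ≤ 2 * m + 1 / 2 - k := by linarith
    rw [min_eq_left h2] at h
    linarith
  · rw [min_eq_right h1] at h
    rcases le_total (k : ℝ) (2 * m + 1 / 2 - k) with h2 | h2
    · rw [min_eq_left h2] at h
      have h3 : (4 * m : ℝ) = 4 * k + 1 := by linarith
      have h4 : 4 * m = 4 * k + 1 := by exact_mod_cast h3
      omega
    · rw [min_eq_right h2] at h
      linarith

private lemma conc (m : ℕ) (x : ℝ) : TT m (x + 2) + TT m x ≤ 2 * TT m (x + 1) := by
  unfold TT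
  rcases min_choice (x + 1) (2 * m + 1 / 2 - (x + 1)) with h1 | h1 <;> rw [h1]
  · linarith [min_le_left (x + 2) (2 * m + 1 / 2 - (x + 2)), min_le_left x (2 * m + 1 / 2 - x)]
  · linarith [min_le_right (x + 2) (2 * m + 1 / 2 - (x + 2)), min_le_right x (2 * m + 1 / 2 - x)]

private lemma diff_mem {h : ℤ} {lam : ℝ} {m : ℕ} {A : Finset V} {v : V} (hv : v ∈ A) :
    ∃ k : ℕ, A.card = k + 1 ∧
      FF G h lam m (fl A v) = FF G h lam m A + Dt G h A v - lam * (TT m ((k : ℝ) + 1) - TT m k) := by
  have h1 := card_fl_mem hv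
  refine ⟨(fl A v).card, h1.symm, ?_⟩
  rw [FF_eq, FF_eq, cut_fl, ← h1]
  unfold Dt
  rw [if_pos hv]
  push_cast
  ring

private lemma diff_notMem {h : ℤ} {lam : ℝ} {m : ℕ} {A : Finset V} {v : V} (hv : v ∉ A) :
    FF G h lam m (fl A v) = FF G h lam m A + Dt G h A v + lam * (TT m ((A.card : ℝ) + 1) - TT m A.card) := by
  have h1 := card_fl_notMem hv
  rw [FF_eq, FF_eq, cut_fl, h1]
  unfold Dt
  rw [if_neg hv]
  push_cast
  ring

theorem pf {h η : ℤ} {lam : ℝ} {m : ℕ} (hl : 0 < lam) (hlη : lam < η)
    (hlat : ∀ (A : Finset V) (v : V), ∃ j : ℤ, Dt G h A v = η * j) :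
    PassF G h η (FF G h lam m) := by
  have hη : (0 : ℝ) < η := hl.trans hlη
  refine ⟨by exact_mod_cast hη, hlat, ?_, ?_, ?_, ?_⟩
  · intro A v
    by_cases hv : v ∈ A
    · obtain ⟨k, -, h2⟩ := diff_mem (G := G) (h := h) (lam := lam) (m := m) hv
      rw [h2]
      have e : FF G h lam m A + (Dt G h A v : ℝ) - lam * (TT m ((k : ℝ) + 1) - TT m k) - FF G h lam m A - Dt G h A v =
          -(lam * (TT m ((k : ℝ) + 1) - TT m k)) := by ring
      rw [e, abs_neg, abs_mul, abs_of_pos hl]
      have := mul_le_mul_of_nonneg_left (step_le m (k : ℝ)) hl.le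
      linarith
    · rw [diff_notMem hv]
      have e : FF G h lam m A + (Dt G h A v : ℝ) + lam * (TT m ((A.card : ℝ) + 1) - TT m A.card) - FF G h lam m A -
          Dt G h A v = lam * (TT m ((A.card : ℝ) + 1) - TT m A.card) := by ring
      rw [e, abs_mul, abs_of_pos hl]
      have := mul_le_mul_of_nonneg_left (step_le m (A.card : ℝ)) hl.le
      linarith
  · intro A u v huv
    by_cases hu : u ∈ A
    · have hv := huv.1 hu
      obtain ⟨k, h1, h2⟩ := diff_mem (G := G) (h := h) (lam := lam) (m := m) hu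
      obtain ⟨k', h1', h2'⟩ := diff_mem (G := G) (h := h) (lam := lam) (m := m) hv
      have hk : k = k' := by omega
      subst hk
      rw [h2, h2']
      ring
    · have hv : v ∉ A := fun hv => hu (huv.2 hv)
      rw [diff_notMem hu, diff_notMem hv]
      ring
  · intro A u v huv
    rw [FF_eq, FF_eq, card_fl_opp huv, cut_fl, cut_fl, Dv_fl_opp G huv]
    have hD : (Dt G h A u : ℝ) + Dt G h A v = Dv G A u + Dv G A v := by
      unfold Dt
      by_cases hu : u ∈ A
      · have hv : v ∉ A := fun hv => huv ⟨fun _ => hv, fun _ => hu⟩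
        rw [if_pos hu, if_neg hv]
        push_cast
        ring
      · have hv : v ∈ A := by
          by_contra hv
          exact huv ⟨fun h' => absurd h' hu, fun h' => absurd h' hv⟩
        rw [if_neg hu, if_pos hv]
        push_cast
        ring
    push_cast
    linarith
  · intro A u v huv hs
    have had : (0 : ℝ) ≤ ad G u v := by
      unfold ad
      split_ifs <;> simp
    by_cases hu : u ∈ A
    · have hv := hs.1 hu
      have h1 := card_fl_mem hu
      have h2 := card_fl_mem hv
      have hv' : v ∈ fl A u := by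
        rw [mem_fl, if_neg (Ne.symm huv)]
        exact hv
      have h3 := card_fl_mem hv'
      have c1 : ((fl A u).card : ℝ) = (fl (fl A u) v).card + 1 := by exact_mod_cast h3.symm
      have c2 : (A.card : ℝ) = (fl (fl A u) v).card + 2 := by
        have : A.card = (fl (fl A u) v).card + 2 := by omega
        exact_mod_cast this
      have c3 : ((fl A v).card : ℝ) = (fl (fl A u) v).card + 1 := by
        have : (fl A v).card = (fl (fl A u) v).card + 1 := by omega
        exact_mod_cast this
      rw [FF_eq, FF_eq, FF_eq, FF_eq, cut_fl, cut_fl, cut_fl, Dv_fl_same G (Ne.symm huv) hs, c1, c2, c3]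
      have := mul_le_mul_of_nonneg_left (conc m ((fl (fl A u) v).card : ℝ)) hl.le
      push_cast
      linarith
    · have hv : v ∉ A := fun hv => hu (hs.2 hv)
      have h1 := card_fl_notMem hu
      have h2 := card_fl_notMem hv
      have hv' : v ∉ fl A u := by
        rw [mem_fl, if_neg (Ne.symm huv)]
        exact hv
      have h3 := card_fl_notMem hv'
      have c1 : ((fl A u).card : ℝ) = A.card + 1 := by exact_mod_cast h1
      have c2 : ((fl (fl A u) v).card : ℝ) = A.card + 2 := by
        have : (fl (fl A u) v).card = A.card + 2 := by omega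
        exact_mod_cast this
      have c3 : ((fl A v).card : ℝ) = A.card + 1 := by exact_mod_cast h2
      rw [FF_eq, FF_eq, FF_eq, FF_eq, cut_fl, cut_fl, cut_fl, Dv_fl_same G (Ne.symm huv) hs, c1, c2, c3]
      have := mul_le_mul_of_nonneg_left (conc m (A.card : ℝ)) hl.le
      push_cast
      linarith

theorem ff_ne {h η : ℤ} {lam : ℝ} {m : ℕ} (hl : 0 < lam) (hlη : lam < η)
    (hlat : ∀ (A : Finset V) (v : V), ∃ j : ℤ, Dt G h A v = η * j) (A : Finset V) (v : V) :
    FF G h lam m (fl A v) ≠ FF G h lam m A := by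
  intro he
  have hη : (0 : ℝ) < η := hl.trans hlη
  have hP := (pf (G := G) (m := m) hl hlη hlat).near A v
  rw [he, sub_self, zero_sub, abs_neg] at hP
  obtain ⟨j, hj⟩ := hlat A v
  have hD : Dt G h A v = 0 := by
    rw [hj] at hP ⊢
    have h1 : |(((η * j : ℤ)) : ℝ)| = η * |(j : ℝ)| := by
      push_cast
      rw [abs_mul, abs_of_pos hη]
    rw [h1] at hP
    have h2 : |(j : ℝ)| < 1 := by
      by_contra h3
      push Not at h3
      have := mul_le_mul_of_nonneg_left h3 hη.le
      linarith
    have h4 : |j| < 1 := by exact_mod_cast h2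
    have h5 : j = 0 := by
      rw [abs_lt] at h4
      omega
    rw [h5, mul_zero]
  by_cases hv : v ∈ A
  · obtain ⟨k, -, h2⟩ := diff_mem (G := G) (h := h) (lam := lam) (m := m) hv
    rw [he, hD] at h2
    have h3 : lam * (TT m ((k : ℝ) + 1) - TT m k) = 0 := by
      push_cast at h2
      linarith
    rcases mul_eq_zero.1 h3 with h4 | h4
    · exact hl.ne' h4
    · exact step_ne m k h4
  · have h2 := diff_notMem (G := G) (h := h) (lam := lam) (m := m) hv
    rw [he, hD] at h2
    have h3 : lam * (TT m ((A.card : ℝ) + 1) - TT m A.card) = 0 := by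
      push_cast at h2
      linarith
    rcases mul_eq_zero.1 h3 with h4 | h4
    · exact hl.ne' h4
    · exact step_ne m A.card h4

end Pool.Agent.H49.MT
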