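import Pool.Agent.H49.MT.OddS
import Pool.Agent.H49.MT.ChEdge
import Pool.Agent.H49.MT.CutXY
import Pool.Agent.H49.MT.PF
import Pool.Agent.H49.FS.CutC

/-!
# Module Cross: two long chains in a sparse graph contradict the pass (`d` odd)

`F = FF G 0 eps m₀`; `lip`: `|(F S - cut S) - (F T - cut T)| ≤ eps ||S| - |T||`. `X i ⊆ A`, `Y j ⊆ Aᶜ`, `|X i| = i`, `|Y j| = j` (`ch_card`, `X₀ = ∅`). `S i j = (A \ X i) ∪ Y j`.
`Y` is a chain for `Aᶜ`: `Aᶜ \ Y j = (A ∪ Y j)ᶜ`, `cut G Sᶜ = cut G S` (`Pool/Agent/H49/FS/CutC.lean` or exchange the sums), so `cut (A \ X i) ≤ cut A - i`, `cut (A ∪ Y j) ≤ cut A - j` (`ch_cut`).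
`ch_edges` with `r w = 0` if `Dv G A w < 0`, else `1` (`Dv ≥ 0` and `Dv < 2 q` gives `q ≥ 1`), `strO_card`: `∑_{X i} nin v (X i) ≥ 2 i - (d+1)`, the same for `Y j`.
Let `e = ∑_{v ∈ Y j} nin v (X i)`. For `m ≤ i + j ≤ 2 m`: `hs` for `P = X i ∪ Y j` and `sum_union_nin`: `2 i + 2 j - 2 (d+1) + 2 e ≤ (3 - 2 eps)(i + j)`, so `2 e ≤ (1 - 2 eps)(i+j) + 2 (d+1)`, and
(`cut_xy`, `lip`, `|S i j| = |A| - i + j`) `F (S i j) - F A ≤ -(i+j) + 2 e + eps (i + j) ≤ - eps (i+j) + 2 (d+1) < 0` as `eps m ≥ 3 (d+1)`. For `j = 0`, `i ≥ 1` or `i = 0`, `j ≥ 1`: `e = 0`,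
`F (S i j) - F A ≤ -(1 - eps)(i + j) < 0`. So the sets `S 1 0, .., S m 0, S m 1, .., S m m, S (m-1) m, .., S 0 m, S 0 (m-1), .., S 0 1` are all below `F A`, consecutive ones differ by one move:
`S 1 0 = fl A u`, `S 0 1 = fl A v` are connected below `F A`; `u ∈ A`, `Dv G A u < 0` (first step of the chain), `v ∉ A`, `Dv G A v < 0`: contradiction to `StrO.nc`.
-/

set_option autoImplicit false

open Finset

namespace Pool.Agent.H49.MT

open Pool.Agent.H49.FR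

variable {V : Type} [Fintype V] [DecidableEq V] {G : SimpleGraph V} [DecidableRel G.Adj]

private lemma cr_lip (c x y : ℝ) : min x (c - x) ≤ min y (c - y) + |x - y| := by
  have h1 := le_abs_self (x - y)
  have h2 := neg_abs_le (x - y)
  rcases min_choice y (c - y) with h | h
  · rw [h]
    exact (min_le_left _ _).trans (by linarith)
  · rw [h]
    exact (min_le_right _ _).trans (by linarith)

private lemma cr_F {eps : ℝ} (he : 0 < eps) (m₀ : ℕ) (S A : Finset V) :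
    FF G 0 eps m₀ S ≤ FF G 0 eps m₀ A + (((cut G S : ℕ) : ℝ) - (cut G A : ℕ)) +
      eps * |(S.card : ℝ) - A.card| := by
  have h := mul_le_mul_of_nonneg_left (cr_lip (2 * (m₀ : ℝ) + 1 / 2) (S.card : ℝ) (A.card : ℝ)) he.le
  unfold FF
  push_cast
  linarith

private lemma cr_conn {F : Finset V → ℝ} {c : ℝ} {g : ℕ → Finset V} {a : ℕ} :
    ∀ n : ℕ, (∀ i, i < n → ∃ v, g (a + i + 1) = fl (g (a + i)) v) → (∀ i, i ≤ n → F (g (a + i)) < c) →
      Conn F c (g a) (g (a + n)) := by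
  intro n
  induction n with
  | zero =>
    intro _ _
    exact Relation.EqvGen.refl _
  | succ n ih =>
    intro h1 h2
    have h3 := ih (fun i hi => h1 i (by omega)) (fun i hi => h2 i (by omega))
    obtain ⟨v, hv⟩ := h1 n (by omega)
    exact Relation.EqvGen.trans _ _ _ h3
      (Relation.EqvGen.rel _ _ ⟨⟨v, hv⟩, h2 n (by omega), h2 (n + 1) le_rfl⟩)

private lemma cr_dvc (A : Finset V) (v : V) : Dv G Aᶜ v = Dv G A v := by
  unfold Dv
  by_cases hv : v ∈ A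
  · rw [if_neg (by simpa using hv), if_pos hv, compl_compl]
  · rw [if_pos (by simpa using hv), if_neg hv, compl_compl]

private lemma cr_edge {A : Finset V} {X : ℕ → Finset V} {m : ℕ} (h : Ch G A ∅ X m) {d i : ℕ} (hi : i ≤ m)
    (hc : 2 * (A.filter fun u => Dv G A u < 0).card ≤ d + 1) :
    2 * i ≤ ∑ v ∈ X i, nin G v (X i) + (d + 1) := by
  have h1 := ch_edges h (fun w => if Dv G A w < 0 then 0 else 1) (by
    intro w _ _ q hq
    by_cases hw : Dv G A w < 0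
    · simp [hw]
    · simp only [hw, if_false]
      omega) hi
  have hcard := ch_card h hi
  rw [Finset.card_empty, zero_add] at hcard
  have hsub := (ch_sub h hi).2
  rw [Finset.sdiff_empty] at h1
  have h2 : (∑ v ∈ X i, if Dv G A v < 0 then 0 else 1) + ((X i).filter fun u => Dv G A u < 0).card =
      (X i).card := by
    rw [Finset.card_filter, ← Finset.sum_add_distrib, Finset.card_eq_sum_ones]
    refine Finset.sum_congr rfl fun v _ => ?_
    split_ifs <;> rfl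
  have h3 : ((X i).filter fun u => Dv G A u < 0).card ≤ (A.filter fun u => Dv G A u < 0).card :=
    Finset.card_le_card (Finset.filter_subset_filter _ hsub)
  omega

private lemma cr_first {A : Finset V} {X : ℕ → Finset V} {m : ℕ} (h : Ch G A ∅ X m) (hm : 0 < m) :
    ∃ u ∈ A, Dv G A u < 0 ∧ X 1 = {u} := by
  obtain ⟨w, hwA, _, hX, hD⟩ := h.step 0 hm
  rw [h.zero, Finset.sdiff_empty] at hD
  rw [h.zero] at hX
  exact ⟨w, hwA, hD, by simpa using hX⟩

private lemma cr_compl (A Y : Finset V) : (A ∪ Y)ᶜ = Aᶜ \ Y := by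
  ext v
  simp [Finset.mem_union, Finset.mem_sdiff]

private lemma cr_cut {A : Finset V} {X Y : ℕ → Finset V} {m : ℕ} (hX : Ch G A ∅ X m) (hY : Ch G Aᶜ ∅ Y m)
    {i j : ℕ} (hi : i ≤ m) (hj : j ≤ m) :
    (cut G ((A \ X i) ∪ Y j) : ℤ) ≤ cut G A - i - j + 2 * ∑ v ∈ Y j, (nin G v (X i) : ℤ) := by
  have h1 := cut_xy (G := G) (ch_sub hX hi).2 (ch_sub hY hj).2
  have h2 := ch_cut hX hi
  have h3 := ch_cut hY hj
  rw [Finset.sdiff_empty] at h2 h3
  rw [← cr_compl, FS.cut_compl, FS.cut_compl] at h3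
  omega

private lemma cr_card {A : Finset V} {X Y : ℕ → Finset V} {m : ℕ} (hX : Ch G A ∅ X m) (hY : Ch G Aᶜ ∅ Y m)
    {i j : ℕ} (hi : i ≤ m) (hj : j ≤ m) : ((A \ X i) ∪ Y j).card + i = A.card + j := by
  have h1 := ch_card hX hi
  have h2 := ch_card hY hj
  rw [Finset.card_empty, zero_add] at h1 h2
  have h3 := (ch_sub hX hi).2
  have h4 := (ch_sub hY hj).2
  have h5 : Disjoint (A \ X i) (Y j) := by
    rw [Finset.disjoint_left]
    intro v hv hv2
    exact Finset.mem_compl.1 (h4 hv2) (Finset.mem_sdiff.1 hv).1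
  have h6 := Finset.card_sdiff_add_card_eq_card h3
  rw [Finset.card_union_of_disjoint h5]
  omega

private lemma cr_key {A : Finset V} {X Y : ℕ → Finset V} {m m₀ : ℕ} {eps : ℝ} (he : 0 < eps)
    (hX : Ch G A ∅ X m) (hY : Ch G Aᶜ ∅ Y m) {i j : ℕ} (hi : i ≤ m) (hj : j ≤ m) :
    FF G 0 eps m₀ ((A \ X i) ∪ Y j) ≤ FF G 0 eps m₀ A - (1 - eps) * (i + j) +
      2 * ((∑ v ∈ Y j, nin G v (X i) : ℕ) : ℝ) := by
  have h1 := cr_F (G := G) he m₀ ((A \ X i) ∪ Y j) A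
  have h2 := cr_cut hX hY hi hj
  have h3 := cr_card hX hY hi hj
  have h2' : ((cut G ((A \ X i) ∪ Y j) : ℕ) : ℝ) ≤
      (cut G A : ℕ) - i - j + 2 * ((∑ v ∈ Y j, nin G v (X i) : ℕ) : ℝ) := by
    have : ((cut G ((A \ X i) ∪ Y j) : ℤ) : ℝ) ≤
      (((cut G A : ℤ) - i - j + 2 * ∑ v ∈ Y j, (nin G v (X i) : ℤ) : ℤ) : ℝ) := by exact_mod_cast h2
    push_cast at this ⊢
    exact this
  have h3' : (((A \ X i) ∪ Y j).card : ℝ) - A.card = j - i := by
    have : ((((A \ X i) ∪ Y j).card + i : ℕ) : ℝ) = ((A.card + j : ℕ) : ℝ) := by rw [h3]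
    push_cast at this
    linarith
  rw [h3'] at h1
  have h4 : |(j : ℝ) - i| ≤ i + j := by
    have hi0 : (0 : ℝ) ≤ i := Nat.cast_nonneg i
    have hj0 : (0 : ℝ) ≤ j := Nat.cast_nonneg j
    rw [abs_le]
    constructor <;> linarith
  have h5 := mul_le_mul_of_nonneg_left h4 he.le
  linarith

private lemma cr_nin_empty (v : V) : nin G v ∅ = 0 := by
  unfold nin
  simp

theorem cross {d : ℕ} (hreg : G.IsRegularOfDegree d) (hd : Odd d) {eps : ℝ} (he : 0 < eps) (he1 : eps < 1)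
    {m₀ : ℕ} {A : Finset V} (hA : StrO G (FF G 0 eps m₀) A) {m : ℕ} (hm : 3 * ((d : ℝ) + 1) ≤ eps * m)
    (hs : ∀ P : Finset V, m ≤ P.card → P.card ≤ 2 * m →
      ((∑ v ∈ P, nin G v P : ℕ) : ℝ) ≤ (3 - 2 * eps) * P.card)
    {X Y : ℕ → Finset V} (hX : Ch G A ∅ X m) (hY : Ch G Aᶜ ∅ Y m) : False := by
  have hd0 : (0 : ℝ) ≤ d := Nat.cast_nonneg d
  have hm0 : 0 < m := by
    rcases Nat.eq_zero_or_pos m with h | h
    · rw [h, Nat.cast_zero, mul_zero] at hm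
      linarith
    · exact h
  obtain ⟨hcA, hcB⟩ := strO_card hreg hd hA
  have hcB' : 2 * ((Aᶜ).filter fun u => Dv G Aᶜ u < 0).card ≤ d + 1 := by
    have h : ((Aᶜ).filter fun u => Dv G Aᶜ u < 0) = ((Aᶜ).filter fun u => Dv G A u < 0) := by
      refine Finset.filter_congr fun v _ => ?_
      rw [cr_dvc]
    rw [h]
    exact hcB
  -- the sets far from the axes
  have hfar : ∀ i j, i ≤ m → j ≤ m → m ≤ i + j → FF G 0 eps m₀ ((A \ X i) ∪ Y j) < FF G 0 eps m₀ A := by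
    intro i j hi hj hij
    have hdis : Disjoint (X i) (Y j) := by
      rw [Finset.disjoint_left]
      intro v hv hv2
      exact Finset.mem_compl.1 ((ch_sub hY hj).2 hv2) ((ch_sub hX hi).2 hv)
    have c1 := ch_card hX hi
    have c2 := ch_card hY hj
    rw [Finset.card_empty, zero_add] at c1 c2
    have hcard : (X i ∪ Y j).card = i + j := by
      rw [Finset.card_union_of_disjoint hdis, c1, c2]
    have h1 := hs (X i ∪ Y j) (by omega) (by omega)
    rw [sum_union_nin hdis, hcard] at h1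
    have e1 := cr_edge hX hi hcA
    have e2 := cr_edge hY hj hcB'
    have e1' : (2 : ℝ) * i ≤ ((∑ v ∈ X i, nin G v (X i) : ℕ) : ℝ) + (d + 1) := by exact_mod_cast e1
    have e2' : (2 : ℝ) * j ≤ ((∑ v ∈ Y j, nin G v (Y j) : ℕ) : ℝ) + (d + 1) := by exact_mod_cast e2
    have h2 := cr_key (m₀ := m₀) he hX hY hi hj
    have hij' : (m : ℝ) ≤ i + j := by exact_mod_cast hij
    have h3 := mul_le_mul_of_nonneg_left hij' he.le
    generalize (∑ v ∈ X i, nin G v (X i)) = a1 at h1 e1'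
    generalize (∑ v ∈ Y j, nin G v (Y j)) = a2 at h1 e2'
    generalize (∑ v ∈ Y j, nin G v (X i)) = a3 at h1 h2
    push_cast at h1
    nlinarith
  have hX0 : ∀ i, 1 ≤ i → i ≤ m → FF G 0 eps m₀ ((A \ X i) ∪ Y 0) < FF G 0 eps m₀ A := by
    intro i hi1 hi
    have h2 := cr_key (m₀ := m₀) he hX hY hi (Nat.zero_le m)
    have h3 : ∑ v ∈ Y 0, nin G v (X i) = 0 := by
      rw [hY.zero, Finset.sum_empty]
    rw [h3] at h2
    have h4 : (1 : ℝ) ≤ i := by exact_mod_cast hi1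
    have h5 : (1 - eps) * 1 ≤ (1 - eps) * i := mul_le_mul_of_nonneg_left h4 (by linarith)
    push_cast at h2
    linarith
  have hY0 : ∀ j, 1 ≤ j → j ≤ m → FF G 0 eps m₀ ((A \ X 0) ∪ Y j) < FF G 0 eps m₀ A := by
    intro j hj1 hj
    have h2 := cr_key (m₀ := m₀) he hX hY (Nat.zero_le m) hj
    have h3 : ∑ v ∈ Y j, nin G v (X 0) = 0 := by
      rw [hX.zero]
      exact Finset.sum_eq_zero fun v _ => cr_nin_empty v
    rw [h3] at h2
    have h4 : (1 : ℝ) ≤ j := by exact_mod_cast hj1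
    have h5 : (1 - eps) * 1 ≤ (1 - eps) * j := mul_le_mul_of_nonneg_left h4 (by linarith)
    push_cast at h2
    linarith
  -- the moves
  have mvX : ∀ i j, i < m → j ≤ m → ∃ v, (A \ X (i + 1)) ∪ Y j = fl ((A \ X i) ∪ Y j) v := by
    intro i j hi hj
    obtain ⟨w, hwA, hw, hXi, -⟩ := hX.step i hi
    refine ⟨w, ?_⟩
    have hwY : w ∉ Y j := fun h => Finset.mem_compl.1 ((ch_sub hY hj).2 h) hwA
    have hmem : w ∈ (A \ X i) ∪ Y j := Finset.mem_union_left _ (Finset.mem_sdiff.2 ⟨hwA, hw⟩)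
    unfold fl
    rw [if_pos hmem, hXi]
    ext v
    simp only [Finset.mem_union, Finset.mem_sdiff, Finset.mem_insert, Finset.mem_erase]
    constructor
    · rintro (⟨h1, h2⟩ | h1)
      · exact ⟨fun h3 => h2 (Or.inl h3), Or.inl ⟨h1, fun h3 => h2 (Or.inr h3)⟩⟩
      · exact ⟨fun h3 => hwY (h3 ▸ h1), Or.inr h1⟩
    · rintro ⟨h1, ⟨h2, h3⟩ | h2⟩
      · exact Or.inl ⟨h2, fun h4 => h4.elim h1 h3⟩
      · exact Or.inr h2
  have mvY : ∀ i j, i ≤ m → j < m → ∃ v, (A \ X i) ∪ Y (j + 1) = fl ((A \ X i) ∪ Y j) v := by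
    intro i j hi hj
    obtain ⟨w, hwA, hw, hYj, -⟩ := hY.step j hj
    refine ⟨w, ?_⟩
    have hnm : w ∉ (A \ X i) ∪ Y j := by
      rw [Finset.mem_union, Finset.mem_sdiff]
      rintro (⟨h, -⟩ | h)
      · exact Finset.mem_compl.1 hwA h
      · exact hw h
    unfold fl
    rw [if_neg hnm, hYj, Finset.union_insert]
  -- the path
  have p1 : Conn (FF G 0 eps m₀) (FF G 0 eps m₀ A) ((A \ X 1) ∪ Y 0) ((A \ X m) ∪ Y 0) := by
    have h := cr_conn (F := FF G 0 eps m₀) (c := FF G 0 eps m₀ A) (g := fun i => (A \ X i) ∪ Y 0) (a := 1)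
      (m - 1) (fun i hi => mvX (1 + i) 0 (by omega) (Nat.zero_le m)) (fun i hi => hX0 (1 + i) (by omega) (by omega))
    have e : 1 + (m - 1) = m := by omega
    rw [e] at h
    exact h
  have p2 : Conn (FF G 0 eps m₀) (FF G 0 eps m₀ A) ((A \ X m) ∪ Y 0) ((A \ X m) ∪ Y m) := by
    have h := cr_conn (F := FF G 0 eps m₀) (c := FF G 0 eps m₀ A) (g := fun j => (A \ X m) ∪ Y j) (a := 0)
      m (fun j hj => mvY m (0 + j) le_rfl (by omega)) (fun j hj => hfar m (0 + j) le_rfl (by omega) (by omega))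
    rw [Nat.zero_add] at h
    exact h
  have p3 : Conn (FF G 0 eps m₀) (FF G 0 eps m₀ A) ((A \ X 0) ∪ Y m) ((A \ X m) ∪ Y m) := by
    have h := cr_conn (F := FF G 0 eps m₀) (c := FF G 0 eps m₀ A) (g := fun i => (A \ X i) ∪ Y m) (a := 0)
      m (fun i hi => mvX (0 + i) m (by omega) le_rfl) (fun i hi => hfar (0 + i) m (by omega) le_rfl (by omega))
    rw [Nat.zero_add] at h
    exact h
  have p4 : Conn (FF G 0 eps m₀) (FF G 0 eps m₀ A) ((A \ X 0) ∪ Y 1) ((A \ X 0) ∪ Y m) := by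
    have h := cr_conn (F := FF G 0 eps m₀) (c := FF G 0 eps m₀ A) (g := fun j => (A \ X 0) ∪ Y j) (a := 1)
      (m - 1) (fun j hj => mvY 0 (1 + j) (Nat.zero_le m) (by omega)) (fun j hj => hY0 (1 + j) (by omega) (by omega))
    have e : 1 + (m - 1) = m := by omega
    rw [e] at h
    exact h
  obtain ⟨u, huA, hu0, hX1⟩ := cr_first hX hm0
  obtain ⟨v, hvA, hv0, hY1⟩ := cr_first hY hm0
  rw [cr_dvc] at hv0
  have hvA' : v ∉ A := Finset.mem_compl.1 hvA
  have eu : (A \ X 1) ∪ Y 0 = fl A u := by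
    unfold fl
    rw [if_pos huA, hX1, hY.zero, Finset.union_empty, Finset.sdiff_singleton_eq_erase]
  have ev : (A \ X 0) ∪ Y 1 = fl A v := by
    unfold fl
    rw [if_neg hvA', hY1, hX.zero, Finset.sdiff_empty, Finset.union_comm]
    rfl
  apply hA.nc u huA hu0 v hvA' hv0
  rw [← eu, ← ev]
  exact Relation.EqvGen.trans _ _ _ p1 (Relation.EqvGen.trans _ _ _ p2
    (Relation.EqvGen.trans _ _ _ (Relation.EqvGen.symm _ _ p3) (Relation.EqvGen.symm _ _ p4)))

end Pool.Agent.H49.MT
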