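import Pool.Agent.H49.MT.Fl

/-!
# Module CutF: the cut after a move

* `nin_fl`: `nin w B` after a move of `v ≠ w`... `nin G w (fl A v) = nin G w A - ad` if `v ∈ A`, `+ ad` if `v ∉ A` (count `v` in `N(w) ∩ A`; `ad G v w`).
* `nin_fl_self`: `v ∉ N(v)`, so moving `v` does not change `nin v`.
* `cut_fl`: `cut_erase`, `cut_insert` (`FR/Pot`): `cut (A.erase v) + nin v Aᶜ = cut A + nin v A`.
* `Dv_fl_self`, `Dv_fl`: by cases `v ∈ A`, `w ∈ A`, from the above and for the complement `(fl A v)ᶜ = fl Aᶜ v`.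
* `deg_eq`: `nin_add` (`FR/Pot`).
-/

set_option autoImplicit false

open Finset

namespace Pool.Agent.H49.MT

open Pool.Agent.H49.FR

variable {V : Type} [Fintype V] [DecidableEq V] (G : SimpleGraph V) [DecidableRel G.Adj]

private lemma fl_mem' {A : Finset V} {v : V} (hv : v ∈ A) : fl A v = A.erase v := by
  unfold fl
  rw [if_pos hv]

private lemma fl_notMem' {A : Finset V} {v : V} (hv : v ∉ A) : fl A v = insert v A := by
  unfold fl
  rw [if_neg hv]

private lemma nin_sum (v : V) (A : Finset V) : (nin G v A : ℤ) = ∑ w ∈ A, ad G v w := by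
  have h1 : nin G v A = ∑ w ∈ A, if G.Adj v w then 1 else 0 := by
    unfold nin
    rw [Finset.sum_ite, Finset.sum_const_zero, add_zero, Finset.sum_const, smul_eq_mul, mul_one]
    congr 1
    ext w
    simp [and_comm]
  rw [h1]
  push_cast
  rfl

private lemma ad_comm (u v : V) : ad G u v = ad G v u := by
  unfold ad
  simp only [G.adj_comm u v]

private lemma ad_self (v : V) : ad G v v = 0 := by
  unfold ad
  simp

private lemma nin_erase (w : V) {A : Finset V} {v : V} (hv : v ∈ A) :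
    (nin G w (A.erase v) : ℤ) = nin G w A - ad G v w := by
  rw [nin_sum, nin_sum, ← Finset.add_sum_erase A (fun x => ad G w x) hv, ad_comm G v w]
  ring

private lemma nin_insert (w : V) {A : Finset V} {v : V} (hv : v ∉ A) :
    (nin G w (insert v A) : ℤ) = nin G w A + ad G v w := by
  rw [nin_sum, nin_sum, Finset.sum_insert hv, ad_comm G v w]
  ring

private lemma self_fl (A : Finset V) (v : V) : v ∈ fl A v ↔ v ∉ A := by
  rw [mem_fl, if_pos rfl]

private lemma ne_fl (A : Finset V) {v w : V} (hw : w ≠ v) : w ∈ fl A v ↔ w ∈ A := by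
  rw [mem_fl, if_neg hw]

lemma compl_fl (A : Finset V) (v : V) : (fl A v)ᶜ = fl Aᶜ v := by
  ext w
  rw [mem_compl, mem_fl, mem_fl]
  split_ifs <;> simp

lemma nin_fl_self (A : Finset V) (v : V) : nin G v (fl A v) = nin G v A := by
  have h : (nin G v (fl A v) : ℤ) = nin G v A := by
    by_cases hv : v ∈ A
    · rw [fl_mem' hv, nin_erase G v hv, ad_self, sub_zero]
    · rw [fl_notMem' hv, nin_insert G v hv, ad_self, add_zero]
  exact_mod_cast h

lemma nin_fl_mem {A : Finset V} {v w : V} (hv : v ∈ A) (hw : w ≠ v) :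
    (nin G w (fl A v) : ℤ) = nin G w A - ad G v w := by
  rw [fl_mem' hv, nin_erase G w hv]

lemma nin_fl_notMem {A : Finset V} {v w : V} (hv : v ∉ A) (hw : w ≠ v) :
    (nin G w (fl A v) : ℤ) = nin G w A + ad G v w := by
  rw [fl_notMem' hv, nin_insert G w hv]

theorem cut_fl (A : Finset V) (v : V) : (cut G (fl A v) : ℤ) = cut G A + Dv G A v := by
  unfold Dv
  by_cases hv : v ∈ A
  · rw [fl_mem' hv, if_pos hv]
    have h := cut_erase G A hv
    omega
  · rw [fl_notMem' hv, if_neg hv]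
    have h := cut_insert G A hv
    omega

theorem Dv_fl_self (A : Finset V) (v : V) : Dv G (fl A v) v = - Dv G A v := by
  unfold Dv
  rw [compl_fl, nin_fl_self, nin_fl_self]
  have h := self_fl A v
  by_cases hv : v ∈ A
  · rw [if_neg (by rw [h]; exact not_not_intro hv), if_pos hv]
    ring
  · rw [if_pos (h.2 hv), if_neg hv]
    ring

theorem Dv_fl_same {A : Finset V} {v w : V} (hw : w ≠ v) (h : v ∈ A ↔ w ∈ A) :
    Dv G (fl A v) w = Dv G A w - 2 * ad G v w := by
  unfold Dv
  rw [compl_fl]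
  have h1 := ne_fl A hw
  by_cases hv : v ∈ A
  · have hwA := h.1 hv
    have hvc : v ∉ Aᶜ := by simpa using hv
    rw [if_pos (h1.2 hwA), if_pos hwA, nin_fl_mem G hv hw, nin_fl_notMem G hvc hw]
    ring
  · have hwA : w ∉ A := fun h2 => hv (h.2 h2)
    have hvc : v ∈ Aᶜ := by simpa using hv
    rw [if_neg (fun h2 => hwA (h1.1 h2)), if_neg hwA, nin_fl_mem G hvc hw, nin_fl_notMem G hv hw]
    ring

theorem Dv_fl_opp {A : Finset V} {v w : V} (h : ¬ (v ∈ A ↔ w ∈ A)) :
    Dv G (fl A v) w = Dv G A w + 2 * ad G v w := by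
  have hw : w ≠ v := by
    rintro rfl
    exact h Iff.rfl
  unfold Dv
  rw [compl_fl]
  have h1 := ne_fl A hw
  by_cases hv : v ∈ A
  · have hwA : w ∉ A := fun h2 => h ⟨fun _ => h2, fun _ => hv⟩
    have hvc : v ∉ Aᶜ := by simpa using hv
    rw [if_neg (fun h2 => hwA (h1.1 h2)), if_neg hwA, nin_fl_mem G hv hw, nin_fl_notMem G hvc hw]
    ring
  · have hwA : w ∈ A := by
      by_contra h2
      exact h ⟨fun h3 => absurd h3 hv, fun h3 => absurd h3 h2⟩
    have hvc : v ∈ Aᶜ := by simpa using hv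
    rw [if_pos (h1.2 hwA), if_pos hwA, nin_fl_mem G hvc hw, nin_fl_notMem G hv hw]
    ring

theorem Dt_fl_same (h : ℤ) {A : Finset V} {v w : V} (hw : w ≠ v) (hs : v ∈ A ↔ w ∈ A) :
    Dt G h (fl A v) w = Dt G h A w - 2 * ad G v w := by
  unfold Dt
  rw [Dv_fl_same G hw hs]
  have h1 := ne_fl A hw
  by_cases hwA : w ∈ A
  · rw [if_pos (h1.2 hwA), if_pos hwA]
    ring
  · rw [if_neg (fun h2 => hwA (h1.1 h2)), if_neg hwA]
    ring

theorem Dt_fl_opp (h : ℤ) {A : Finset V} {v w : V} (hs : ¬ (v ∈ A ↔ w ∈ A)) :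
    Dt G h (fl A v) w = Dt G h A w + 2 * ad G v w := by
  have hw : w ≠ v := by
    rintro rfl
    exact hs Iff.rfl
  unfold Dt
  rw [Dv_fl_opp G hs]
  have h1 := ne_fl A hw
  by_cases hwA : w ∈ A
  · rw [if_pos (h1.2 hwA), if_pos hwA]
    ring
  · rw [if_neg (fun h2 => hwA (h1.1 h2)), if_neg hwA]
    ring

/-- moving a vertex changes the sign of `Dt` (the charge changes sign as well) -/
theorem Dt_fl_self (h : ℤ) (A : Finset V) (v : V) : Dt G h (fl A v) v = - Dt G h A v := by
  unfold Dt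
  rw [Dv_fl_self]
  have h1 := self_fl A v
  by_cases hv : v ∈ A
  · rw [if_neg (by rw [h1]; exact not_not_intro hv), if_pos hv]
    ring
  · rw [if_pos (h1.2 hv), if_neg hv]
    ring

theorem deg_mem {A : Finset V} {v : V} (hv : v ∈ A) : (G.degree v : ℤ) = 2 * nin G v A - Dv G A v := by
  unfold Dv
  rw [if_pos hv]
  have h := nin_add G v A
  omega

theorem deg_notMem {A : Finset V} {v : V} (hv : v ∉ A) : (G.degree v : ℤ) = 2 * nin G v Aᶜ - Dv G A v := by
  unfold Dv
  rw [if_neg hv]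
  have h := nin_add G v A
  omega

end Pool.Agent.H49.MT
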