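import Pool.Agent.H49.FR.Pot

/-!
# Mountain passes and internal partitions (MP_363a78_co)

THEOREM. Let `G` be a graph with `n ≥ 50 (d+1)²` vertices.
(1) If all degrees are at most `d`: there are `C₁ ∪ C₂ = V`, `|C₁ ∩ C₂| ≤ 2`, `|V \ Cᵢ| ≥ n/(4(d+1))`, every vertex of `Cᵢ` has at least half of its neighbours in `Cᵢ`.
(2) If `G` is `d`-regular: `C₁ ∪ C₂ = V`, `|C₁ ∩ C₂| ≤ 1`, `|V \ Cᵢ| ≥ n/(4(d+1))`, every vertex of `C₁` has at least `⌊d/2⌋` neighbours in `C₁`, every vertex of `C₂` at least
`⌈d/2⌉` in `C₂`; if `G` has no triangles then `C₁ ∩ C₂ = ∅`.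
(3) If `G` is `d`-regular, `d` odd, without cycles of length 3 and 4: an internal partition with parts `≥ n/(4(d+1))`.
(4) `d` even (`FinE`, with helper42): the same if every edge is in at most one triangle, or if for some `p ≤ n/(12(d+1))` every set of `p` vertices spans fewer than `2p - 2 - d/2` edges.
(5) `d` odd (`FinF`): the same, with parts `≥ eps n/(4(d+1))`, if for some `m`, `3(d+1)/eps ≤ m ≤ eps n/(12(d+1))`, every set `P` of between `m` and `2m` vertices has average inner degree
`≤ 3 - 2 eps` (for example almost all `d`-regular graphs).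

PROOF. `D(v) = (neighbours on the own side) - (neighbours on the other side)`, `Dt(v) = D(v) - h` for `v ∈ A`, `D(v) + h` for `v ∉ A`, `h ∈ {0, 1}`; `η = 1`, or `η = 2` and all
`Dt` are even (`h ≡ d mod 2`). `F A = cut A + h |A| + lam min(|A|, 2m + 1/2 - |A|)`, `0 < lam < η`. Moving `v` changes `F` by `Dt(v)` plus or minus `lam` or `lam/2`, so `F` changes
with every move, and `F` goes down only if `Dt(v) ≤ 0`, and certainly if `Dt(v) < 0`. Take the least level at which `∅` and `V` are connected by moves (`Pass`): there is a set `A` at that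
level and two moves `x`, `y` which lead down to sets which are not connected below the level of `A` (`Crit`). If two moves `u`, `v` lead down and are on the same side, then `u, v` together
lead down (concavity of `min`), so `x`, `y` are on different sides; if `u` is on the side of `x` and `v` on the side of `y`, both going down, then moving both does not go down:
`Dt u + Dt v + 2 [u ~ v] ≥ 0` (`Loc`). So every vertex with `Dt < 0` on the side of `x` is adjacent to `y` and has `Dt ≥ -2`, etc. (`MainA`, `MainB`, `MainC`).
`F A ≥ (h + lam) m` gives the sizes (`Size`).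
-/

set_option autoImplicit false

open Finset

namespace Pool.Agent.H49.MT

open Pool.Agent.H49.FR

variable {V : Type} [Fintype V] [DecidableEq V]

/-- move the vertex `v` to the other side -/
def fl (A : Finset V) (v : V) : Finset V := if v ∈ A then A.erase v else insert v A

/-- neighbours on the own side minus neighbours on the other side -/
def Dv (G : SimpleGraph V) [DecidableRel G.Adj] (A : Finset V) (v : V) : ℤ :=
  if v ∈ A then (nin G v A : ℤ) - nin G v Aᶜ else (nin G v Aᶜ : ℤ) - nin G v A

/-- the same with a charge `h` -/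
def Dt (G : SimpleGraph V) [DecidableRel G.Adj] (h : ℤ) (A : Finset V) (v : V) : ℤ :=
  if v ∈ A then Dv G A v - h else Dv G A v + h

/-- the functional -/
noncomputable def FF (G : SimpleGraph V) [DecidableRel G.Adj] (h : ℤ) (lam : ℝ) (m : ℕ) (A : Finset V) : ℝ :=
  cut G A + h * A.card + lam * min (A.card : ℝ) (2 * m + 1 / 2 - A.card)

/-- `1` if `u` and `v` are adjacent, else `0` -/
def ad (G : SimpleGraph V) [DecidableRel G.Adj] (u v : V) : ℤ := if G.Adj u v then 1 else 0

/-- connected by moves below the level `c` -/
def Conn (F : Finset V → ℝ) (c : ℝ) : Finset V → Finset V → Prop :=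
  Relation.EqvGen fun X Y => (∃ v, Y = fl X v) ∧ F X < c ∧ F Y < c

/-- `A` is a mountain pass: the moves `x` and `y` lead down, to sets which are not connected below `A` -/
structure Crit (F : Finset V → ℝ) (A : Finset V) (x y : V) : Prop where
  lx : F (fl A x) < F A
  ly : F (fl A y) < F A
  nc : ¬ Conn F (F A) (fl A x) (fl A y)

/-- the properties of the functional which are used at a pass -/
structure PassF (G : SimpleGraph V) [DecidableRel G.Adj] (h η : ℤ) (F : Finset V → ℝ) : Prop where
  pos : 0 < η
  lat : ∀ A v, ∃ j : ℤ, Dt G h A v = η * j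
  near : ∀ A v, |F (fl A v) - F A - Dt G h A v| < η
  dir : ∀ A u v, (u ∈ A ↔ v ∈ A) → F (fl A u) - Dt G h A u = F (fl A v) - Dt G h A v
  opp : ∀ A u v, ¬ (u ∈ A ↔ v ∈ A) →
    F (fl (fl A u) v) = F A + Dt G h A u + Dt G h A v + 2 * ad G u v
  same : ∀ A u v, u ≠ v → (u ∈ A ↔ v ∈ A) → F (fl (fl A u) v) + F A ≤ F (fl A u) + F (fl A v)

end Pool.Agent.H49.MT
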