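import Pool.Agent.H49.MT.Loc
import Pool.Agent.H49.MT.CutF

/-!
# Module MainB: a pass gives two sets which overlap in one vertex (`η = 2`)

All values `Dt` are even (`lat`). By `crit_opp`, `crit_symm` assume `x ∈ A`, `y ∉ A`.
Not both: `u ∈ A` with `Dt u < 0` and `v ∉ A` with `Dt v < 0`: both are `≤ -2`, both lead down (`down`), `loc` gives `0 ≤ Dt u + Dt v + 2 ad ≤ -4 + 2`.
* Case 1, `Dt v ≥ 0` for all `v ∉ A`: `C₁ = insert y A`, `C₂ = Aᶜ`. `v ∈ A`, `Dt v < 0`: `loc_x`: `v ~ y`, `Dt v ≥ -2`, `nin v C₁ = nin v A + 1`; `deg v = 2 nin v A - Dv v`,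
  `Dt v = Dv v - h`: `deg v + h ≤ 2 nin v C₁`. `y`: `Dt y = Dv y + h ≤ 0`, `deg y = nin y A + nin y Aᶜ`: `deg y + h ≤ 2 nin y A`. `v ∉ A`: `Dv v + h ≥ 0`: `deg v - h ≤ 2 nin v Aᶜ`.
  This is the left alternative with `z = y`.
* Case 2, `Dt v ≥ 0` for all `v ∈ A`: `C₁ = A`, `C₂ = insert x Aᶜ`: the right alternative with `z = x`.
-/

set_option autoImplicit false

open Finset

namespace Pool.Agent.H49.MT

open Pool.Agent.H49.FR

variable {V : Type} [Fintype V] [DecidableEq V] {G : SimpleGraph V} [DecidableRel G.Adj] {h : ℤ}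

/-- all vertices of `A` are satisfied -/
def SatI (G : SimpleGraph V) [DecidableRel G.Adj] (h : ℤ) (A : Finset V) : Prop :=
  ∀ v ∈ A, (G.degree v : ℤ) + h ≤ 2 * nin G v A

private lemma mb_mono {v : V} {A B : Finset V} (hAB : A ⊆ B) : nin G v A ≤ nin G v B := by
  unfold nin
  exact card_le_card (inter_subset_inter_left hAB)

private lemma mb_insert {v z : V} {A : Finset V} (hz : z ∉ A) (ha : G.Adj v z) :
    (nin G v (insert z A) : ℤ) = nin G v A + 1 := by
  have h1 := nin_fl_notMem G (A := A) (v := z) (w := v) hz ha.ne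
  have h2 : fl A z = insert z A := by simp [fl, hz]
  have h3 : ad G z v = 1 := by simp [ad, ha.symm]
  rw [h2, h3] at h1
  exact h1

private lemma mb_case1 {F : Finset V → ℝ} (hF : PassF G h 2 F) {A : Finset V} {x y : V}
    (hc : Crit F A x y) (hx : x ∈ A) (hy : y ∉ A) (h0 : ∀ v, v ∉ A → 0 ≤ Dt G h A v) :
    SatI G h (insert y A) ∧ SatI G (-h) Aᶜ := by
  have hy0 : Dt G h A y ≤ 0 := dt_le hF hc.ly
  refine ⟨?_, ?_⟩
  · intro v hv
    by_cases hvA : v ∈ A
    · have h1 := deg_mem G hvA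
      have h2 : Dt G h A v = Dv G A v - h := by simp [Dt, hvA]
      by_cases hn : Dt G h A v < 0
      · obtain ⟨h3, h4⟩ := loc_x hF hc hn (by simp [hvA, hx])
        have h5 := mb_insert (G := G) hy h3
        omega
      · have h5 : nin G v A ≤ nin G v (insert y A) := mb_mono (subset_insert _ _)
        omega
    · have hvy : v = y := by
        rcases mem_insert.1 hv with h1 | h1
        · exact h1
        · exact absurd h1 hvA
      subst hvy
      have h1 := deg_notMem G hvA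
      have h2 : Dt G h A v = Dv G A v + h := by simp [Dt, hvA]
      have h3 := nin_add G v A
      have h5 : nin G v A ≤ nin G v (insert v A) := mb_mono (subset_insert _ _)
      omega
  · intro v hv
    have hvA : v ∉ A := by simpa using hv
    have h1 := deg_notMem G hvA
    have h2 : Dt G h A v = Dv G A v + h := by simp [Dt, hvA]
    have h3 := h0 v hvA
    omega

private lemma mb_case2 {F : Finset V → ℝ} (hF : PassF G h 2 F) {A : Finset V} {x y : V}
    (hc : Crit F A x y) (hx : x ∈ A) (hy : y ∉ A) (h0 : ∀ v, v ∈ A → 0 ≤ Dt G h A v) :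
    SatI G h A ∧ SatI G (-h) (insert x Aᶜ) := by
  have hx0 : Dt G h A x ≤ 0 := dt_le hF hc.lx
  refine ⟨?_, ?_⟩
  · intro v hvA
    have h1 := deg_mem G hvA
    have h2 : Dt G h A v = Dv G A v - h := by simp [Dt, hvA]
    have h3 := h0 v hvA
    omega
  · intro v hv
    by_cases hvA : v ∈ A
    · have hvx : v = x := by
        rcases mem_insert.1 hv with h1 | h1
        · exact h1
        · exact absurd hvA (by simpa using h1)
      subst hvx
      have h1 := deg_mem G hvA
      have h2 : Dt G h A v = Dv G A v - h := by simp [Dt, hvA]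
      have h3 := nin_add G v A
      have h5 : nin G v Aᶜ ≤ nin G v (insert v Aᶜ) := mb_mono (subset_insert _ _)
      omega
    · have h1 := deg_notMem G hvA
      have h2 : Dt G h A v = Dv G A v + h := by simp [Dt, hvA]
      by_cases hn : Dt G h A v < 0
      · obtain ⟨h3, h4⟩ := loc_y hF hc hn (by simp [hvA, hy])
        have h5 := mb_insert (G := G) (A := Aᶜ) (by simpa using hx) h3
        omega
      · have h5 : nin G v Aᶜ ≤ nin G v (insert x Aᶜ) := mb_mono (subset_insert _ _)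
        omega

private lemma mb_main {F : Finset V → ℝ} (hF : PassF G h 2 F) {A : Finset V} {x y : V}
    (hc : Crit F A x y) (hx : x ∈ A) (hy : y ∉ A) :
    (∃ z, z ∉ A ∧ SatI G h (insert z A) ∧ SatI G (-h) Aᶜ) ∨
      ∃ z, z ∈ A ∧ SatI G h A ∧ SatI G (-h) (insert z Aᶜ) := by
  by_cases h1 : ∀ v, v ∉ A → 0 ≤ Dt G h A v
  · left
    exact ⟨y, hy, mb_case1 hF hc hx hy h1⟩
  by_cases h2 : ∀ v, v ∈ A → 0 ≤ Dt G h A v
  · right
    exact ⟨x, hx, mb_case2 hF hc hx hy h2⟩
  exfalso
  push Not at h1 h2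
  obtain ⟨v, hv, hv0⟩ := h1
  obtain ⟨u, hu, hu0⟩ := h2
  have h3 := loc hF hc (down hF hu0) (by simp [hu, hx]) (down hF hv0) (by simp [hv, hy])
  obtain ⟨i, hi⟩ := hF.lat A u
  obtain ⟨j, hj⟩ := hF.lat A v
  have h4 : ad G u v ≤ 1 := by
    unfold ad
    split_ifs <;> norm_num
  omega

theorem mainB {F : Finset V → ℝ} (hF : PassF G h 2 F) {A : Finset V} {x y : V} (hc : Crit F A x y) :
    (∃ z, z ∉ A ∧ SatI G h (insert z A) ∧ SatI G (-h) Aᶜ) ∨
      ∃ z, z ∈ A ∧ SatI G h A ∧ SatI G (-h) (insert z Aᶜ) := by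
  have ho := crit_opp hF hc
  by_cases hx : x ∈ A
  · have hy : y ∉ A := fun h => ho (by simp [hx, h])
    exact mb_main hF hc hx hy
  · have hy : y ∈ A := by
      by_contra h
      exact ho (by simp [hx, h])
    exact mb_main hF (crit_symm hc) hy hx

end Pool.Agent.H49.MT
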