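import Pool.Agent.H49.MT.EvenS
import Pool.Agent.H49.MT.MainB

/-!
# Module EvenD: even degrees, every edge in at most one triangle: an exact partition near the pass (helper42)

`Str G A`, `x ∈ A` with `Dv x = 0`, `v₀ ∉ A` with `Dv v₀ = -2`. All `Dv` are even. `N₀ = {u ∈ A : Dv u = 0}`, `N₁ = {v ∉ A : Dv v = -2}`, all pairs adjacent.
* If `x` has no neighbour in `N₀`: `B = A.erase x`: a vertex `w ∈ B`: `Dv G B w = Dv w - 2 [w ~ x]`; `Dv w ≥ 2` if `w ~ x`. `x`: `0`. `v ∉ A`: `Dv v + 2 [v ~ x] ≥ 0` (`join`).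
* Otherwise let `x' ∈ N₀`, `x' ~ x`. `v₀ ~ x, x'`. `B = (A.erase x).erase x'`. `w ∈ B`: `Dv G B w = Dv w - 2 [w ~ x] - 2 [w ~ x']`. `w` is not adjacent to both (`v₀`, `w` would be two common
  neighbours of `x`, `x'`; `v₀ ∉ A`). If `w ∈ N₀` is adjacent to `x`: then `x'`, `w` are two common neighbours of `x`, `v₀`, contradiction; the same for `x'`. So `Dv G B w ≥ 0`. `x`: moved,
  `Dv = 0`, then `x'` moved: `+ 2`. `x'`: `Dv G (A.erase x) x' = -2`, moved: `2`. `v ∉ A`: `≥ 0` as above.
-/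

set_option autoImplicit false

open Finset

namespace Pool.Agent.H49.MT

open Pool.Agent.H49.FR

variable {V : Type} [Fintype V] [DecidableEq V] {G : SimpleGraph V} [DecidableRel G.Adj]

private lemma ed_par {d : ℕ} (hreg : G.IsRegularOfDegree d) (hd : Even d) (A : Finset V) (v : V) :
    ∃ j : ℤ, Dv G A v = 2 * j := by
  obtain ⟨k, hk⟩ := hd
  have h0 : G.degree v = d := hreg v
  by_cases hv : v ∈ A
  · have h1 := deg_mem G hv
    exact ⟨nin G v A - k, by omega⟩
  · have h1 := deg_notMem G hv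
    exact ⟨nin G v Aᶜ - k, by omega⟩

private lemma ed_ad (u v : V) : (G.Adj u v ∧ ad G u v = 1) ∨ (¬ G.Adj u v ∧ ad G u v = 0) := by
  unfold ad
  by_cases h : G.Adj u v
  · left
    exact ⟨h, by rw [if_pos h]⟩
  · right
    exact ⟨h, by rw [if_neg h]⟩

private lemma ed_sat {B : Finset V} (h : ∀ v, 0 ≤ Dv G B v) : SatI G 0 B ∧ SatI G 0 Bᶜ := by
  refine ⟨?_, ?_⟩
  · intro v hv
    have h1 := deg_mem G hv
    have h2 := h v
    omega
  · intro v hv
    have hv' : v ∉ B := by simpa using hv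
    have h1 := deg_notMem G hv'
    have h2 := h v
    omega

private lemma ed_two {u v a c : V} (hdia : ∀ u v, G.Adj u v → (G.neighborFinset u ∩ G.neighborFinset v).card ≤ 1)
    (huv : G.Adj u v) (ha : G.Adj u a) (ha' : G.Adj v a) (hc : G.Adj u c) (hc' : G.Adj v c) : a = c := by
  refine card_le_one.1 (hdia u v huv) a ?_ c ?_
  · simp [ha, ha']
  · simp [hc, hc']

theorem even_d {d : ℕ} (hreg : G.IsRegularOfDegree d) (hd : Even d) {A : Finset V} (hA : Str G A)
    (hdia : ∀ u v, G.Adj u v → (G.neighborFinset u ∩ G.neighborFinset v).card ≤ 1) :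
    ∃ B ⊆ A, A.card ≤ B.card + 2 ∧ SatI G 0 B ∧ SatI G 0 Bᶜ := by
  obtain ⟨x, hx, hx0⟩ := hA.exA
  obtain ⟨v₀, hv₀, hv₀2⟩ := hA.exB
  have hxv := hA.join x hx hx0 v₀ hv₀ hv₀2
  have e1 : A.erase x = fl A x := by
    unfold fl
    rw [if_pos hx]
  have hxn : x ∉ fl A x := by
    rw [← e1]
    simp
  by_cases hN : ∀ w ∈ A, Dv G A w = 0 → ¬ G.Adj x w
  · refine ⟨A.erase x, erase_subset _ _, ?_, ?_⟩
    · have h1 := card_erase_add_one hx
      omega
    · rw [e1]
      refine ed_sat fun v => ?_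
      by_cases hvx : v = x
      · subst hvx
        rw [Dv_fl_self, hx0]
        norm_num
      · by_cases hvA : v ∈ A
        · rw [Dv_fl_same G hvx ⟨fun _ => hvA, fun _ => hx⟩]
          have h1 := hA.inA v hvA
          obtain ⟨j, hj⟩ := ed_par hreg hd A v
          rcases ed_ad (G := G) x v with ⟨h2, h3⟩ | ⟨h2, h3⟩
          · have h4 : Dv G A v ≠ 0 := fun h => hN v hvA h h2
            omega
          · omega
        · rw [Dv_fl_opp G (fun h => hvA (h.1 hx))]
          have h1 := hA.outA v hvA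
          obtain ⟨j, hj⟩ := ed_par hreg hd A v
          rcases ed_ad (G := G) x v with ⟨h2, h3⟩ | ⟨h2, h3⟩
          · omega
          · have h4 : Dv G A v ≠ -2 := fun h => h2 (hA.join x hx hx0 v hvA h)
            omega
  · push Not at hN
    obtain ⟨z, hz, hz0, hxz⟩ := hN
    have hzv := hA.join z hz hz0 v₀ hv₀ hv₀2
    have hzx : z ≠ x := hxz.ne'
    have hz' : z ∈ A.erase x := mem_erase.2 ⟨hzx, hz⟩
    have e2 : (A.erase x).erase z = fl (fl A x) z := by
      rw [e1] at hz' ⊢
      conv_rhs => unfold fl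
      have h1 : z ∈ fl A x := hz'
      unfold fl at h1 ⊢
      rw [if_pos hx] at h1 ⊢
      rw [if_pos h1]
    have hz1 : z ∈ fl A x := by
      rw [← e1]
      exact hz'
    refine ⟨(A.erase x).erase z, (erase_subset _ _).trans (erase_subset _ _), ?_, ?_⟩
    · have h1 := card_erase_add_one hx
      have h2 := card_erase_add_one hz'
      omega
    · rw [e2]
      refine ed_sat fun v => ?_
      have hzx1 : ad G z x = 1 := by
        unfold ad
        rw [if_pos hxz.symm]
      have hxz1 : ad G x z = 1 := by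
        unfold ad
        rw [if_pos hxz]
      by_cases hvx : v = x
      · subst hvx
        rw [Dv_fl_opp G (fun h => hxn (h.1 hz1)), Dv_fl_self, hx0, hzx1]
        norm_num
      by_cases hvz : v = z
      · subst hvz
        rw [Dv_fl_self, Dv_fl_same G hzx ⟨fun _ => hz, fun _ => hx⟩, hz0, hxz1]
        norm_num
      have hmem : v ∈ fl A x ↔ v ∈ A := by
        rw [mem_fl, if_neg hvx]
      obtain ⟨j, hj⟩ := ed_par hreg hd A v
      by_cases hvA : v ∈ A
      · rw [Dv_fl_same G hvz ⟨fun _ => hmem.2 hvA, fun _ => hz1⟩,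
          Dv_fl_same G hvx ⟨fun _ => hvA, fun _ => hx⟩]
        have h1 := hA.inA v hvA
        have hne : v ≠ v₀ := fun h => hv₀ (h ▸ hvA)
        rcases ed_ad (G := G) x v with ⟨h2, h3⟩ | ⟨h2, h3⟩ <;>
          rcases ed_ad (G := G) z v with ⟨h4, h5⟩ | ⟨h4, h5⟩
        · exact absurd (ed_two hdia hxz h2 h4 hxv hzv) hne
        · have h6 : Dv G A v ≠ 0 := by
            intro h6
            have h7 := hA.join v hvA h6 v₀ hv₀ hv₀2
            exact hvz (ed_two hdia hxv h2 h7.symm hxz hzv.symm)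
          omega
        · have h6 : Dv G A v ≠ 0 := by
            intro h6
            have h7 := hA.join v hvA h6 v₀ hv₀ hv₀2
            exact hvx (ed_two hdia hzv h4 h7.symm hxz.symm hxv.symm)
          omega
        · omega
      · rw [Dv_fl_opp G (fun h => hvA (hmem.1 (h.1 hz1))), Dv_fl_opp G (fun h => hvA (h.1 hx))]
        have h1 := hA.outA v hvA
        rcases ed_ad (G := G) z v with ⟨h4, h5⟩ | ⟨h4, h5⟩ <;>
          rcases ed_ad (G := G) x v with ⟨h2, h3⟩ | ⟨h2, h3⟩
        · omega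
        · omega
        · omega
        · have h6 : Dv G A v ≠ -2 := fun h => h2 (hA.join x hx hx0 v hvA h)
          omega

end Pool.Agent.H49.MT
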