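import Pool.Agent.H49.MT.Loc
import Pool.Agent.H49.MT.CutF

/-!
# Module EvenS: the structure of a pass for even degrees (`h = 0`, `η = 2`; idea of helper42)

`Dt G 0 A v = Dv G A v`. By `crit_symm` assume `x ∈ A`, `y ∉ A` (`crit_opp`). If all `Dv ≥ 0`: first alternative. Suppose there is `v ∉ A` with `Dv v < 0` (so `≤ -2`, `lat`): `Str A`:
`loc` (with `x` and `v`; `v` leads down by `down`): `0 ≤ Dv x + Dv v + 2 ad`, `Dv x ≤ 0`: `Dv x = 0`, `Dv v = -2`. For `u ∈ A` with `Dv u < 0`: leads down, `loc`: `0 ≤ -2 - 2 + 2`, false; so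
`Dv u ≥ 0` on `A`. For `v' ∉ A`: `Dv v' ≥ -2` (if `Dv v' < 0` then `loc` with `x`). For `u ∈ A` with `Dv u = 0`: `dir`: `F (fl A u) - 0 = F (fl A x) - 0 < F A`, so `u` leads down, and for
`v' ∉ A` with `Dv v' = -2`: `loc`: `0 ≤ 0 - 2 + 2 ad`, so `u ~ v'`. Suppose there is `u ∈ A` with `Dv u < 0`: the same with the sides exchanged: `Str Aᶜ` (`Dv G Aᶜ v = Dv G A v`: `compl_compl`).
`str_card`: `N₀ = {u ∈ A : Dv u = 0}` consists of neighbours of `v`, `Dv v = -2`: `|N₀| ≤ nin v A = (deg v + 2)/2`.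
-/

set_option autoImplicit false

open Finset

namespace Pool.Agent.H49.MT

open Pool.Agent.H49.FR

variable {V : Type} [Fintype V] [DecidableEq V] {G : SimpleGraph V} [DecidableRel G.Adj]

/-- `A` is satisfied, the other side misses one neighbour at some vertices, which are joined to all vertices of `A` with `Dv = 0` -/
structure Str (G : SimpleGraph V) [DecidableRel G.Adj] (A : Finset V) : Prop where
  inA : ∀ u ∈ A, 0 ≤ Dv G A u
  outA : ∀ v ∉ A, -2 ≤ Dv G A v
  exA : ∃ u ∈ A, Dv G A u = 0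
  exB : ∃ v ∉ A, Dv G A v = -2
  join : ∀ u ∈ A, Dv G A u = 0 → ∀ v ∉ A, Dv G A v = -2 → G.Adj u v

private lemma es_dt0 (A : Finset V) (v : V) : Dt G 0 A v = Dv G A v := by
  unfold Dt
  split_ifs <;> ring

private lemma es_ad_le (u v : V) : ad G u v ≤ 1 := by
  unfold ad
  split_ifs <;> norm_num

lemma dv_compl (A : Finset V) (v : V) : Dv G Aᶜ v = Dv G A v := by
  unfold Dv
  by_cases hv : v ∈ A
  · rw [if_neg (by simpa using hv), if_pos hv, compl_compl]
  · rw [if_pos (by simpa using hv), if_neg hv, compl_compl]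

private lemma es_gen {F : Finset V → ℝ} (hF : PassF G 0 2 F) {A : Finset V} {x y v : V}
    (hc : Crit F A x y) (hvy : v ∈ A ↔ y ∈ A) (hv : Dv G A v < 0) :
    (∀ u, (u ∈ A ↔ x ∈ A) → 0 ≤ Dv G A u) ∧ (∀ w, (w ∈ A ↔ y ∈ A) → -2 ≤ Dv G A w) ∧
      Dv G A x = 0 ∧ Dv G A v = -2 ∧
      ∀ u, (u ∈ A ↔ x ∈ A) → Dv G A u = 0 → ∀ w, (w ∈ A ↔ y ∈ A) → Dv G A w = -2 → G.Adj u w := by
  have hpar : ∀ w, ∃ j : ℤ, Dv G A w = 2 * j := by
    intro w
    obtain ⟨j, hj⟩ := hF.lat A w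
    rw [es_dt0] at hj
    exact ⟨j, hj⟩
  have hdown : ∀ w, Dv G A w < 0 → F (fl A w) < F A := by
    intro w hw
    exact down hF (by rw [es_dt0]; exact hw)
  have hloc : ∀ u w, F (fl A u) < F A → (u ∈ A ↔ x ∈ A) → F (fl A w) < F A → (w ∈ A ↔ y ∈ A) →
      0 ≤ Dv G A u + Dv G A w + 2 * ad G u w := by
    intro u w h1 h2 h3 h4
    have h5 := loc hF hc h1 h2 h3 h4
    rwa [es_dt0, es_dt0] at h5
  have hx0 : Dv G A x ≤ 0 := by
    have h1 := dt_le hF hc.lx
    rwa [es_dt0] at h1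
  have hbad : ∀ w, (w ∈ A ↔ y ∈ A) → Dv G A w < 0 → Dv G A w = -2 ∧ Dv G A x = 0 := by
    intro w hwy hw
    have h1 := hloc x w hc.lx Iff.rfl (hdown w hw) hwy
    have h2 := es_ad_le (G := G) x w
    obtain ⟨j, hj⟩ := hpar w
    omega
  have hv2 := hbad v hvy hv
  refine ⟨?_, ?_, hv2.2, hv2.1, ?_⟩
  · intro u hux
    by_contra h1
    push Not at h1
    have h2 := hloc u v (hdown u h1) hux (hdown v hv) hvy
    have h3 := es_ad_le (G := G) u v
    obtain ⟨j, hj⟩ := hpar u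
    omega
  · intro w hwy
    by_cases h1 : Dv G A w < 0
    · have h2 := (hbad w hwy h1).1
      omega
    · omega
  · intro u hux hu w hwy hw
    have h1 : F (fl A u) < F A := by
      have h2 := hF.dir A u x hux
      rw [es_dt0, es_dt0, hu, hv2.2] at h2
      have h3 := hc.lx
      push_cast at h2
      linarith
    have h4 := hloc u w h1 hux (hdown w (by omega)) hwy
    by_contra h5
    unfold ad at h4
    rw [if_neg h5] at h4
    omega

private lemma es_main {F : Finset V → ℝ} (hF : PassF G 0 2 F) {A : Finset V} {x y : V}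
    (hc : Crit F A x y) (hx : x ∈ A) (hy : y ∉ A) :
    (∀ v, 0 ≤ Dv G A v) ∨ Str G A ∨ Str G Aᶜ := by
  by_cases h0 : ∀ v, 0 ≤ Dv G A v
  · exact Or.inl h0
  right
  push Not at h0
  obtain ⟨v, hv⟩ := h0
  by_cases hvA : v ∈ A
  · right
    obtain ⟨h1, h2, h3, h4, h5⟩ := es_gen hF (crit_symm hc) (v := v) ⟨fun _ => hx, fun _ => hvA⟩ hv
    refine ⟨?_, ?_, ⟨y, by simpa using hy, by rw [dv_compl]; exact h3⟩,
      ⟨v, by simpa using hvA, by rw [dv_compl]; exact h4⟩, ?_⟩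
    · intro u hu
      have hu' : u ∉ A := by simpa using hu
      rw [dv_compl]
      exact h1 u ⟨fun h => absurd h hu', fun h => absurd h hy⟩
    · intro w hw
      have hw' : w ∈ A := by simpa using hw
      rw [dv_compl]
      exact h2 w ⟨fun _ => hx, fun _ => hw'⟩
    · intro u hu hu0 w hw hw0
      have hu' : u ∉ A := by simpa using hu
      have hw' : w ∈ A := by simpa using hw
      rw [dv_compl] at hu0 hw0
      exact h5 u ⟨fun h => absurd h hu', fun h => absurd h hy⟩ hu0 w ⟨fun _ => hx, fun _ => hw'⟩ hw0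
  · left
    obtain ⟨h1, h2, h3, h4, h5⟩ := es_gen hF hc (v := v)
      ⟨fun h => absurd h hvA, fun h => absurd h hy⟩ hv
    refine ⟨?_, ?_, ⟨x, hx, h3⟩, ⟨v, hvA, h4⟩, ?_⟩
    · intro u hu
      exact h1 u ⟨fun _ => hx, fun _ => hu⟩
    · intro w hw
      exact h2 w ⟨fun h => absurd h hw, fun h => absurd h hy⟩
    · intro u hu hu0 w hw hw0
      exact h5 u ⟨fun _ => hx, fun _ => hu⟩ hu0 w ⟨fun h => absurd h hw, fun h => absurd h hy⟩ hw0

theorem even_str {F : Finset V → ℝ} (hF : PassF G 0 2 F) {A : Finset V} {x y : V} (hc : Crit F A x y) :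
    (∀ v, 0 ≤ Dv G A v) ∨ Str G A ∨ Str G Aᶜ := by
  have ho := crit_opp hF hc
  by_cases hx : x ∈ A
  · have hy : y ∉ A := fun h => ho ⟨fun _ => h, fun _ => hx⟩
    exact es_main hF hc hx hy
  · have hy : y ∈ A := by
      by_contra hy
      exact ho ⟨fun h => absurd h hx, fun h => absurd h hy⟩
    exact es_main hF (crit_symm hc) hy hx

theorem str_card {d : ℕ} (hreg : G.IsRegularOfDegree d) {A : Finset V} (hA : Str G A) :
    2 * (A.filter fun u => Dv G A u = 0).card ≤ d + 2 := by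
  obtain ⟨v, hv, hv2⟩ := hA.exB
  have h1 : (A.filter fun u => Dv G A u = 0).card ≤ nin G v A := by
    unfold nin
    refine card_le_card ?_
    intro u hu
    obtain ⟨h2, h3⟩ := mem_filter.1 hu
    refine mem_inter.2 ⟨?_, h2⟩
    rw [SimpleGraph.mem_neighborFinset]
    exact (hA.join u h2 h3 v hv hv2).symm
  have h2 := deg_notMem G hv
  have h3 := nin_add G v A
  have h4 : G.degree v = d := hreg v
  omega

end Pool.Agent.H49.MT
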