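import Pool.Agent.H49.MT.EvenS
import Pool.Agent.H49.MT.ChEdge
import Pool.Agent.H49.MT.MainB

/-!
# Module EvenX: even degrees, sparse graphs: an exact partition near the pass

`Str G A`, `x ∈ A` with `Dv x = 0`. `ch_or_stop` with `X₀ = {x}`, `m = p - 1` (`p ≥ 1`). All `Dv` are even (`deg_mem`, `deg_notMem`, `d` even).
* A chain `X` of length `p - 1`: `P = X (p-1)` has `p` elements. `ch_edges` with `r w = 2` if `Dv G A w ≠ 0`, `r w = 1` if `Dv G A w = 0` (`Dv ≥ 0` even: `Dv w ≥ 2`, `Dv w < 2q` gives `q ≥ 2`;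
  `0 < 2 q` gives `q ≥ 1`). At most `|N₀| - 1` elements of `P \ {x}` have `Dv = 0`, `|N₀| ≤ (d+2)/2` (`str_card`): `∑_{v ∈ P} nin v P ≥ 2 (2 (p-1) - (|N₀| - 1)) ≥ 4 p - 4 - d`: contradiction.
* A stopping set `Y ∋ x`, `|Y| < p`: `B = A \ Y`. All `w ∈ B` have `Dv G B w ≥ 0`. `v ∈ Y \ {x}`: `> 0`. `x`: `Dv G (A \ {x}) x = - Dv G A x = 0` (`Dv_fl_self`), `dv_mono`. `v ∉ A`:
  `Dv G B v = Dv G A v + 2 nin v Y` (`dv_sdiff_notMem`); `Dv G A v ≥ -2` even; if `Dv G A v = -2` then `v ~ x` (`join`), `nin v Y ≥ 1`. So `SatI G 0 B`, `SatI G 0 Bᶜ`.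
-/

set_option autoImplicit false

open Finset

namespace Pool.Agent.H49.MT

open Pool.Agent.H49.FR

variable {V : Type} [Fintype V] [DecidableEq V] {G : SimpleGraph V} [DecidableRel G.Adj]

private lemma ex_par {d : ℕ} (hreg : G.IsRegularOfDegree d) (hd : Even d) (A : Finset V) (v : V) :
    ∃ j : ℤ, Dv G A v = 2 * j := by
  obtain ⟨k, hk⟩ := hd
  have h0 : G.degree v = d := hreg v
  by_cases hv : v ∈ A
  · have h1 := deg_mem G hv
    exact ⟨nin G v A - k, by omega⟩
  · have h1 := deg_notMem G hv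
    exact ⟨nin G v Aᶜ - k, by omega⟩

private lemma ex_chain {d : ℕ} (hreg : G.IsRegularOfDegree d) (hd : Even d) {A : Finset V} (hA : Str G A)
    {p : ℕ} (hp : 0 < p) {x : V} (hx : x ∈ A) (hx0 : Dv G A x = 0) {X : ℕ → Finset V}
    (h : Ch G A {x} X (p - 1)) : 4 * p ≤ ∑ v ∈ X (p - 1), nin G v (X (p - 1)) + d + 4 := by
  have hs := ch_sub h le_rfl
  have hc : (X (p - 1)).card = p := by
    rw [ch_card h le_rfl, card_singleton]
    omega
  have hr : ∀ w ∈ A, w ∉ ({x} : Finset V) → ∀ q : ℕ, Dv G A w < 2 * q →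
      (if Dv G A w = 0 then 1 else 2) ≤ q := by
    intro w hw _ q hq
    have h1 := hA.inA w hw
    obtain ⟨j, hj⟩ := ex_par hreg hd A w
    split_ifs with h0 <;> omega
  have he := ch_edges h (fun w => if Dv G A w = 0 then 1 else 2) hr le_rfl
  set P := X (p - 1) with hP
  have hxP : x ∈ P := hs.1 (mem_singleton_self x)
  have hcx : (P \ {x}).card + 1 = p := by
    rw [card_sdiff_of_subset hs.1, card_singleton, hc]
    omega
  set N := A.filter fun u => Dv G A u = 0 with hN
  have hxN : x ∈ N := mem_filter.2 ⟨hx, hx0⟩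
  have hN2 : 2 * N.card ≤ d + 2 := str_card hreg hA
  set Q := (P \ {x}).filter fun u => Dv G A u = 0 with hQ
  have hQN : Q.card + 1 ≤ N.card := by
    have h1 : insert x Q ⊆ N := by
      intro u hu
      rcases mem_insert.1 hu with h1 | h1
      · rw [h1]
        exact hxN
      · have h2 := mem_filter.1 h1
        exact mem_filter.2 ⟨hs.2 (mem_sdiff.1 h2.1).1, h2.2⟩
    have h2 : x ∉ Q := by
      intro hxQ
      have h3 := (mem_sdiff.1 (mem_filter.1 hxQ).1).2
      exact h3 (mem_singleton_self x)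
    have h3 := card_le_card h1
    rw [card_insert_of_notMem h2] at h3
    exact h3
  have hsum : ∑ v ∈ P \ {x}, (if Dv G A v = 0 then 1 else 2) + Q.card = 2 * (P \ {x}).card := by
    have h1 : Q.card = ∑ v ∈ P \ {x}, (if Dv G A v = 0 then 1 else 0) := by
      rw [hQ, card_filter]
    rw [h1, ← sum_add_distrib]
    have h2 : ∀ v ∈ P \ {x}, ((if Dv G A v = 0 then 1 else 2) + if Dv G A v = 0 then 1 else 0) = 2 := by
      intro v _
      split_ifs <;> rfl
    rw [sum_congr rfl h2, sum_const, smul_eq_mul, mul_comm]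
  have he' : 2 * ∑ v ∈ P \ {x}, (if Dv G A v = 0 then 1 else 2) ≤ ∑ v ∈ P, nin G v P := he
  omega

theorem even_x {d : ℕ} (hreg : G.IsRegularOfDegree d) (hd : Even d) {A : Finset V} (hA : Str G A) {p : ℕ}
    (hp : 0 < p) (hs : ∀ P : Finset V, P.card = p → ∑ v ∈ P, nin G v P + d + 4 < 4 * p) :
    ∃ B ⊆ A, A.card < B.card + p ∧ SatI G 0 B ∧ SatI G 0 Bᶜ := by
  obtain ⟨x, hx, hx0⟩ := hA.exA
  rcases ch_or_stop (G := G) A {x} (singleton_subset_iff.2 hx) (p - 1) with ⟨X, hX⟩ | ⟨Y, h1, h2, h3, h4, h5⟩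
  · exfalso
    have h6 := ex_chain hreg hd hA hp hx hx0 hX
    have h7 : (X (p - 1)).card = p := by
      rw [ch_card hX le_rfl, card_singleton]
      omega
    have h8 := hs _ h7
    omega
  · refine ⟨A \ Y, sdiff_subset, ?_, ?_, ?_⟩
    · have h6 := card_sdiff_add_card_eq_card h2
      rw [card_singleton] at h3
      omega
    · intro v hv
      have h6 := deg_mem G hv
      have h7 := h4 v (mem_sdiff.1 hv).1 (mem_sdiff.1 hv).2
      omega
    · intro v hv
      have hv' : v ∉ A \ Y := by simpa using hv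
      have h6 := deg_notMem G hv'
      have h7 : 0 ≤ Dv G (A \ Y) v := by
        by_cases hvA : v ∈ A
        · have hvY : v ∈ Y := by
            by_contra h
            exact hv' (mem_sdiff.2 ⟨hvA, h⟩)
          by_cases hvx : v = x
          · subst hvx
            have h8 : A \ {v} = fl A v := by
              unfold fl
              rw [if_pos hvA, sdiff_singleton_eq_erase]
            have h9 := dv_mono (G := G) h1 h2 (w := v) (Or.inl (mem_singleton_self v))
            rw [h8, Dv_fl_self, hx0] at h9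
            simpa using h9
          · exact (h5 v hvY (by simpa using hvx)).le
        · rw [dv_sdiff_notMem h2 hvA]
          have h8 := hA.outA v hvA
          obtain ⟨j, hj⟩ := ex_par hreg hd A v
          by_cases h9 : Dv G A v = -2
          · have h10 := hA.join x hx hx0 v hvA h9
            have h11 : 0 < nin G v Y := by
              unfold nin
              refine card_pos.2 ⟨x, mem_inter.2 ⟨?_, h1 (mem_singleton_self x)⟩⟩
              rw [SimpleGraph.mem_neighborFinset]
              exact h10.symm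
            omega
          · omega
      omega

end Pool.Agent.H49.MT
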