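import Pool.Agent.H49.MT.Pass
import Pool.Agent.H49.MT.PF

/-!
# Module Ex: existence of the pass for the functional

`pass_exists` with `F = FF G h lam m`, `b = (h + lam) m`, `k₀ = m`: `F ∅ = lam min 0 (2m + 1/2) = 0 < b`; `F univ = h n + lam min n (2m + 1/2 - n) ≤ h n + lam (2m + 1/2 - n) < (h + lam) m`
(`(lam - h)(n - m) > lam/2`); `|A| = m`: `cut ≥ 0`, `min m (m + 1/2) = m`. `ff_ne`.
-/

set_option autoImplicit false

open Finset

namespace Pool.Agent.H49.MT

open Pool.Agent.H49.FR

variable {V : Type} [Fintype V] [DecidableEq V] {G : SimpleGraph V} [DecidableRel G.Adj]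

theorem ex_pass {h η : ℤ} {lam : ℝ} {m : ℕ} (h0 : 0 ≤ h) (hl : 0 < lam) (hlη : lam < η)
    (hlat : ∀ (A : Finset V) (v : V), ∃ j : ℤ, Dt G h A v = η * j) (hm : 0 < m)
    (hmn : m < Fintype.card V) (hlh : lam / 2 < (lam - h) * ((Fintype.card V : ℝ) - m)) :
    ∃ A x y, ((h : ℝ) + lam) * m ≤ FF G h lam m A ∧ Crit (FF G h lam m) A x y := by
  have hm' : (0 : ℝ) < m := by exact_mod_cast hm
  have h0' : (0 : ℝ) ≤ h := by exact_mod_cast h0
  refine pass_exists (FF G h lam m) (fun A v => ff_ne hl hlη hlat A v) (k₀ := m) ?_ ?_ ?_ hm hmn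
  · have e : FF G h lam m ∅ = 0 := by
      have h1 : (0 : ℝ) ≤ 2 * m + 1 / 2 := by linarith
      unfold FF cut
      simp only [sum_empty, card_empty, Nat.cast_zero, mul_zero, sub_zero, zero_add]
      rw [min_eq_left h1, mul_zero]
    rw [e]
    exact mul_pos (by linarith) hm'
  · have e : cut G (univ : Finset V) = 0 := by
      unfold cut
      refine sum_eq_zero fun v _ => ?_
      unfold nin
      simp
    unfold FF
    rw [e, card_univ]
    have h1 : lam * min (Fintype.card V : ℝ) (2 * m + 1 / 2 - Fintype.card V) ≤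
        lam * (2 * m + 1 / 2 - Fintype.card V) :=
      mul_le_mul_of_nonneg_left (min_le_right _ _) hl.le
    push_cast
    nlinarith
  · intro A hA
    unfold FF
    rw [hA]
    have h1 : (0 : ℝ) ≤ cut G A := Nat.cast_nonneg _
    have h2 : min (m : ℝ) (2 * m + 1 / 2 - m) = m := min_eq_left (by linarith)
    rw [h2]
    linarith

end Pool.Agent.H49.MT
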