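import Pool.Agent.H49.MT.CutF

/-!
# Module Lat: parity

`lat_one`: `j = Dt v`. `lat_two`: `deg_mem`, `deg_notMem`: `Dv v = 2 nin - d`, so `Dv v ∓ h` is even if `d - h` is even.
-/

set_option autoImplicit false

open Finset

namespace Pool.Agent.H49.MT

open Pool.Agent.H49.FR

variable {V : Type} [Fintype V] [DecidableEq V] {G : SimpleGraph V} [DecidableRel G.Adj]

theorem lat_one (h : ℤ) (A : Finset V) (v : V) : ∃ j : ℤ, Dt G h A v = 1 * j :=
  ⟨Dt G h A v, (one_mul _).symm⟩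

theorem lat_two {d : ℕ} (hreg : G.IsRegularOfDegree d) {h : ℤ} (hd : ∃ c : ℤ, (d : ℤ) = h + 2 * c)
    (A : Finset V) (v : V) : ∃ j : ℤ, Dt G h A v = 2 * j := by
  obtain ⟨c, hc⟩ := hd
  have hdeg : (G.degree v : ℤ) = d := by rw [hreg.degree_eq v]
  by_cases hv : v ∈ A
  · have h1 := deg_mem G hv
    refine ⟨nin G v A - c - h, ?_⟩
    unfold Dt
    rw [if_pos hv]
    linarith
  · have h1 := deg_notMem G hv
    refine ⟨nin G v Aᶜ - c, ?_⟩
    unfold Dt
    rw [if_neg hv]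
    linarith

end Pool.Agent.H49.MT
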