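import Pool.Agent.H49.MT.Loc
import Pool.Agent.H49.MT.CutF

/-!
# Module MainA: a pass gives two sets which overlap in two vertices (`h = 0`)

`crit_opp`: `x`, `y` on different sides; by `crit_symm` assume `x ∈ A`, `y ∉ A` (`Dt G 0 = Dv`). `C₁ = insert y A`, `C₂ = insert x Aᶜ`, `C₁ ∩ C₂ = {x, y}`.
* `v ∈ A`, `Dv v ≥ 0`: `deg v = 2 nin v A - Dv v ≤ 2 nin v A ≤ 2 nin v C₁`. `v ∈ A`, `Dv v < 0`: `loc_x`: `v ~ y`, `Dv v ≥ -2 - Dv y ≥ -2` (`dt_le` for `y`); `nin v C₁ = nin v A + 1`
  (`nin_fl_notMem`, `C₁ = fl A y`), so `deg v = 2 nin v A - Dv v ≤ 2 nin v C₁`.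
* `v = y`: `Dv y ≤ 0`, `deg y = 2 nin y Aᶜ - Dv y` and `nin y A + nin y Aᶜ = deg y`: `deg y ≤ 2 nin y A = 2 nin y C₁` (`nin_fl_self`).
* `v ∈ C₂` in the same way with `x` (`C₂ = fl Aᶜ x`, `loc_y`).
In the other case (`y ∈ A`, `x ∉ A`) the same with `x`, `y` exchanged.
-/

set_option autoImplicit false

open Finset

namespace Pool.Agent.H49.MT

open Pool.Agent.H49.FR

variable {V : Type} [Fintype V] [DecidableEq V] {G : SimpleGraph V} [DecidableRel G.Adj]

private lemma dt0 (A : Finset V) (v : V) : Dt G 0 A v = Dv G A v := by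
  unfold Dt
  split_ifs <;> ring

private lemma core {F : Finset V → ℝ} (hF : PassF G 0 1 F) {A : Finset V} {x y : V} (hc : Crit F A x y) (hx : x ∈ A) (hy : y ∉ A) :
    (∀ v ∈ insert y A, G.degree v ≤ 2 * nin G v (insert y A)) ∧
      ∀ v ∈ insert x Aᶜ, G.degree v ≤ 2 * nin G v (insert x Aᶜ) := by
  have hxc : x ∉ Aᶜ := by simpa using hx
  have e1 : insert y A = fl A y := by
    unfold fl
    rw [if_neg hy]
  have e2 : insert x Aᶜ = fl Aᶜ x := by
    unfold fl
    rw [if_neg hxc]
  have hDx := dt_le hF hc.lx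
  have hDy := dt_le hF hc.ly
  rw [dt0] at hDx hDy
  have ad0 : ∀ u v : V, 0 ≤ ad G u v := fun u v => by
    unfold ad
    split_ifs <;> norm_num
  constructor
  · intro v hv
    rcases Finset.mem_insert.1 hv with rfl | hvA
    · rw [e1, nin_fl_self]
      have h1 := deg_notMem G hy
      have h2 := nin_add G v A
      omega
    · have hne : v ≠ y := fun h => hy (h ▸ hvA)
      have h1 := deg_mem G hvA
      have h2 := nin_fl_notMem G hy hne
      rw [e1]
      by_cases hD : Dv G A v < 0
      · have h3 := loc_x hF hc (v := v) (by rw [dt0]; exact hD) ⟨fun _ => hx, fun _ => hvA⟩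
        rw [dt0, dt0] at h3
        have h4 : ad G y v = 1 := by
          unfold ad
          rw [if_pos h3.1.symm]
        have h5 := h3.2
        omega
      · have h6 := ad0 y v
        omega
  · intro v hv
    rcases Finset.mem_insert.1 hv with rfl | hvA
    · rw [e2, nin_fl_self]
      have h1 := deg_mem G hx
      have h2 := nin_add G v A
      omega
    · have hvA' : v ∉ A := by simpa using hvA
      have hne : v ≠ x := fun h => hvA' (h ▸ hx)
      have h1 := deg_notMem G hvA'
      have h2 := nin_fl_notMem G hxc hne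
      rw [e2]
      by_cases hD : Dv G A v < 0
      · have h3 := loc_y hF hc (v := v) (by rw [dt0]; exact hD)
          ⟨fun h => absurd h hvA', fun h => absurd h hy⟩
        rw [dt0, dt0] at h3
        have h4 : ad G x v = 1 := by
          unfold ad
          rw [if_pos h3.1.symm]
        have h5 := h3.2
        omega
      · have h6 := ad0 x v
        omega

theorem mainA {F : Finset V → ℝ} (hF : PassF G 0 1 F) {A : Finset V} {x y : V} (hc : Crit F A x y) :
    ∃ z ∈ A, ∃ w ∉ A, (∀ v ∈ insert w A, G.degree v ≤ 2 * nin G v (insert w A)) ∧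
      ∀ v ∈ insert z Aᶜ, G.degree v ≤ 2 * nin G v (insert z Aᶜ) := by
  have ho := crit_opp hF hc
  by_cases hx : x ∈ A
  · have hy : y ∉ A := fun h => ho ⟨fun _ => h, fun _ => hx⟩
    exact ⟨x, hx, y, hy, core hF hc hx hy⟩
  · have hy : y ∈ A := by
      by_contra hy
      exact ho ⟨fun h => absurd h hx, fun h => absurd h hy⟩
    exact ⟨y, hy, x, hx, core hF (crit_symm hc) hy hx⟩

end Pool.Agent.H49.MT
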