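import Pool.Agent.H49.MT.CutF

/-!
# Module Size: sizes at the level of the pass

`cut A ≤ d |A|` (`nin v Aᶜ ≤ degree v ≤ d`), `cut A ≤ d |Aᶜ|` (`cut A = ∑_{v ∉ A} nin v A`: exchange the sums; or `cut G Aᶜ = cut G A`, `Pool/Agent/H49/FS/CutC.lean`).
`size_mem`: if `k = |A| ≤ m` then `min ≤ k`, so `(h + lam) m ≤ d k + h k + lam k`. If `k > m` the claim is `(h + lam) m ≤ (d + h + lam) k`, clear.
`size_compl`: let `j = n - k`. If `k ≤ m` then `j ≥ n - m` and the claim is clear (`d + lam - h ≥ lam - h`). If `k > m`: `min ≤ 2m + 1/2 - k`, so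
`(h + lam) m ≤ d j + h k + lam (2m + 1/2 - k)`, i.e. `(lam - h)(k - m) ≤ d j + lam/2`, `k - m = (n - m) - j`.
-/

set_option autoImplicit false

open Finset

namespace Pool.Agent.H49.MT

open Pool.Agent.H49.FR

variable {V : Type} [Fintype V] [DecidableEq V] (G : SimpleGraph V) [DecidableRel G.Adj]

private lemma sz_nin_eq_sum (v : V) (A : Finset V) :
    nin G v A = ∑ w ∈ A, if G.Adj v w then 1 else 0 := by
  unfold nin
  rw [← Finset.card_filter]
  congr 1
  ext w
  simp [and_comm]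

private lemma sz_cut_compl (A : Finset V) : cut G Aᶜ = cut G A := by
  unfold cut
  rw [compl_compl]
  simp only [sz_nin_eq_sum]
  rw [Finset.sum_comm]
  refine Finset.sum_congr rfl fun u _ => Finset.sum_congr rfl fun w _ => ?_
  simp only [G.adj_comm u w]

private lemma sz_cut_le {d : ℕ} (hdeg : ∀ v, G.degree v ≤ d) (A : Finset V) : cut G A ≤ d * A.card := by
  unfold cut
  calc ∑ v ∈ A, nin G v Aᶜ ≤ ∑ _v ∈ A, d := by
        refine Finset.sum_le_sum fun v _ => ?_
        have h1 := nin_add G v A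
        have h2 := hdeg v
        omega
    _ = d * A.card := by rw [Finset.sum_const, smul_eq_mul, Nat.mul_comm]

theorem size_mem {d : ℕ} (hdeg : ∀ v, G.degree v ≤ d) {h : ℤ} (h0 : 0 ≤ h) {lam : ℝ} (hl : 0 < lam) {m : ℕ}
    {A : Finset V} (hA : ((h : ℝ) + lam) * m ≤ FF G h lam m A) :
    ((h : ℝ) + lam) * m ≤ (d + h + lam) * A.card := by
  have hc : (cut G A : ℝ) ≤ d * A.card := by exact_mod_cast sz_cut_le G hdeg A
  have hmin : min (A.card : ℝ) (2 * m + 1 / 2 - A.card) ≤ A.card := min_le_left _ _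
  have hmul : lam * min (A.card : ℝ) (2 * m + 1 / 2 - A.card) ≤ lam * A.card :=
    mul_le_mul_of_nonneg_left hmin hl.le
  unfold FF at hA
  nlinarith

theorem size_compl {d : ℕ} (hdeg : ∀ v, G.degree v ≤ d) {h : ℤ} (h0 : 0 ≤ h) {lam : ℝ} (hl : (h : ℝ) < lam) {m : ℕ}
    (hm : m ≤ Fintype.card V) {A : Finset V} (hA : ((h : ℝ) + lam) * m ≤ FF G h lam m A) :
    (lam - h) * ((Fintype.card V : ℝ) - m) - lam / 2 ≤ (d + lam - h) * (Aᶜ).card := by
  have hc : (cut G A : ℝ) ≤ d * (Aᶜ).card := by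
    have h1 := sz_cut_le G hdeg Aᶜ
    rw [sz_cut_compl] at h1
    exact_mod_cast h1
  have hh : (0 : ℝ) ≤ h := by exact_mod_cast h0
  have hl0 : 0 < lam := lt_of_le_of_lt hh hl
  have hcard : ((Aᶜ).card : ℝ) = (Fintype.card V : ℝ) - A.card := by
    rw [Finset.card_compl, Nat.cast_sub (Finset.card_le_univ A)]
  have hmin : min (A.card : ℝ) (2 * m + 1 / 2 - A.card) ≤ 2 * m + 1 / 2 - A.card := min_le_right _ _
  have hmul : lam * min (A.card : ℝ) (2 * m + 1 / 2 - A.card) ≤ lam * (2 * m + 1 / 2 - A.card) :=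
    mul_le_mul_of_nonneg_left hmin hl0.le
  unfold FF at hA
  have hk : (A.card : ℝ) = (Fintype.card V : ℝ) - (Aᶜ).card := by linarith
  rw [hk] at hmul hA
  nlinarith

end Pool.Agent.H49.MT
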