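import Pool.Agent.H49.MT.Ex
import Pool.Agent.H49.MT.Size
import Pool.Agent.H49.MT.Lat
import Pool.Agent.H49.MT.MainA

/-!
# Module FinA: part (1) of the theorem

`h = 0`, `η = 1`, `lam = 3/4`, `m = n/2` (natural division), `n ≥ 50 (d+1)²`. `ex_pass`: `3/8 < (3/4)(n - m)`. `mainA` gives `z ∈ A`, `w ∉ A`; `C₁ = insert w A`, `C₂ = insert z Aᶜ`; `C₁ ∪ C₂ = univ`,
`C₁ ∩ C₂ ⊆ {z, w}`. `size_mem`: `(3/4) m ≤ (d + 3/4) |A|`, `m ≥ (n-1)/2`: `n ≤ 3 (d+1) |A|` (`1.125 (n-1)(d+1) ≥ n (d + 0.75)` for `n ≥ 9`); `size_compl`: `(3/4)(n-m) - 3/8 ≤ (d + 3/4) |Aᶜ|`, so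
`n ≤ 3 (d+1) |Aᶜ|`. `C₁ᶜ = Aᶜ.erase w`, `|C₁ᶜ| = |Aᶜ| - 1`; `|Aᶜ| ≥ n/(3(d+1)) ≥ 16`, so `n ≤ 3 (d+1)|Aᶜ| ≤ 4 (d+1)(|Aᶜ| - 1)`. `C₂ᶜ = A.erase z`.
-/

set_option autoImplicit false

open Finset

namespace Pool.Agent.H49.MT

open Pool.Agent.H49.FR

variable {V : Type} [Fintype V] [DecidableEq V] {G : SimpleGraph V} [DecidableRel G.Adj]

private theorem finA_size {n d k k' : ℕ} (hn : 50 * (d + 1) ^ 2 ≤ n) (h : n ≤ 3 * (d + 1) * k)
    (hk : k ≤ k' + 1) : n ≤ 4 * (d + 1) * k' := by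
  have h1 : (d + 1) * (50 * (d + 1)) ≤ (d + 1) * (3 * k) := by
    calc (d + 1) * (50 * (d + 1)) = 50 * (d + 1) ^ 2 := by ring
      _ ≤ n := hn
      _ ≤ 3 * (d + 1) * k := h
      _ = (d + 1) * (3 * k) := by ring
  have h2 : 50 * (d + 1) ≤ 3 * k := Nat.le_of_mul_le_mul_left h1 (Nat.succ_pos d)
  have h3 : 3 * k ≤ 4 * k' := by omega
  calc n ≤ 3 * (d + 1) * k := h
    _ = (d + 1) * (3 * k) := by ring
    _ ≤ (d + 1) * (4 * k') := Nat.mul_le_mul_left _ h3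
    _ = 4 * (d + 1) * k' := by ring

private theorem finA_pass {d : ℕ} (hdeg : ∀ v, G.degree v ≤ d)
    (hn : 50 * (d + 1) ^ 2 ≤ Fintype.card V) :
    ∃ (F : Finset V → ℝ) (A : Finset V) (x y : V), PassF G 0 1 F ∧ Crit F A x y ∧
      Fintype.card V ≤ 3 * (d + 1) * A.card ∧ Fintype.card V ≤ 3 * (d + 1) * (Aᶜ).card := by
  have hn50 : 50 ≤ Fintype.card V :=
    le_trans (Nat.mul_le_mul_left 50 (Nat.one_le_pow 2 (d + 1) (Nat.succ_pos d))) hn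
  set n := Fintype.card V with hnd
  have hnR : (50 : ℝ) ≤ n := by exact_mod_cast hn50
  have hlat := lat_one (G := G) 0
  have hm2 : 2 * (n / 2) ≤ n := by omega
  have hm3 : n ≤ 2 * (n / 2) + 1 := by omega
  have hm2R : 2 * ((n / 2 : ℕ) : ℝ) ≤ n := by exact_mod_cast hm2
  have hm3R : (n : ℝ) ≤ 2 * ((n / 2 : ℕ) : ℝ) + 1 := by exact_mod_cast hm3
  obtain ⟨A, x, y, hA, hcr⟩ := ex_pass (G := G) (h := 0) (η := 1) (lam := 3 / 4) (m := n / 2)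
    le_rfl (by norm_num) (by norm_num) hlat (by omega) (by omega)
    (by push_cast; rw [← hnd]; linarith)
  have h1 := size_mem G hdeg (h := 0) le_rfl (by norm_num : (0 : ℝ) < 3 / 4) hA
  have h2 := size_compl G hdeg (h := 0) le_rfl (by norm_num : ((0 : ℤ) : ℝ) < 3 / 4)
    (by omega) hA
  rw [← hnd] at h2
  push_cast at h1 h2
  have hA0 : (0 : ℝ) ≤ A.card := Nat.cast_nonneg _
  have hA0' : (0 : ℝ) ≤ (Aᶜ).card := Nat.cast_nonneg _
  have hd0 : (0 : ℝ) ≤ d := Nat.cast_nonneg _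
  have hdA : 0 ≤ (d : ℝ) * A.card := mul_nonneg hd0 hA0
  have hdA' : 0 ≤ (d : ℝ) * (Aᶜ).card := mul_nonneg hd0 hA0'
  refine ⟨FF G 0 (3 / 4) (n / 2), A, x, y, pf (by norm_num) (by norm_num) hlat, hcr, ?_, ?_⟩
  · have : (n : ℝ) ≤ 3 * (d + 1) * A.card := by linarith
    exact_mod_cast this
  · have : (n : ℝ) ≤ 3 * (d + 1) * (Aᶜ).card := by linarith
    exact_mod_cast this

theorem finA {d : ℕ} (hdeg : ∀ v, G.degree v ≤ d) (hn : 50 * (d + 1) ^ 2 ≤ Fintype.card V) :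
    ∃ C₁ C₂ : Finset V, C₁ ∪ C₂ = univ ∧ (C₁ ∩ C₂).card ≤ 2 ∧
      Fintype.card V ≤ 4 * (d + 1) * (C₁ᶜ).card ∧ Fintype.card V ≤ 4 * (d + 1) * (C₂ᶜ).card ∧
      (∀ v ∈ C₁, G.degree v ≤ 2 * (G.neighborFinset v ∩ C₁).card) ∧
      ∀ v ∈ C₂, G.degree v ≤ 2 * (G.neighborFinset v ∩ C₂).card := by
  classical
  obtain ⟨F, A, x, y, hF, hc, hA, hA'⟩ := finA_pass hdeg hn
  have hcard : A.card + (Aᶜ).card = Fintype.card V := Finset.card_add_card_compl A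
  obtain ⟨z, hz, w, hw, h1, h2⟩ := mainA hF hc
  have hz' : z ∉ Aᶜ := fun h0 => (Finset.mem_compl.1 h0) hz
  have hins : (insert w A).card = A.card + 1 := Finset.card_insert_of_notMem hw
  have hins' : (insert z Aᶜ).card = (Aᶜ).card + 1 := Finset.card_insert_of_notMem hz'
  have hcI : (insert w A).card + ((insert w A)ᶜ).card = Fintype.card V :=
    Finset.card_add_card_compl _
  have hcI' : (insert z Aᶜ).card + ((insert z Aᶜ)ᶜ).card = Fintype.card V :=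
    Finset.card_add_card_compl _
  refine ⟨insert w A, insert z Aᶜ, ?_, ?_, ?_, ?_, fun v hv => h1 v hv, fun v hv => h2 v hv⟩
  · ext v
    simp only [Finset.mem_union, Finset.mem_compl, Finset.mem_insert, Finset.mem_univ, iff_true]
    tauto
  · refine (Finset.card_le_card (t := {z, w}) ?_).trans Finset.card_le_two
    intro v hv
    simp only [Finset.mem_inter, Finset.mem_compl, Finset.mem_insert] at hv
    rw [Finset.mem_insert, Finset.mem_singleton]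
    tauto
  · exact finA_size hn hA' (by omega)
  · exact finA_size hn hA (by omega)

end Pool.Agent.H49.MT
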