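import Pool.Agent.H49.MT.MainB

/-!
# Module MainC: no triangles, `η = 2`: an exact partition

By `crit_opp`, `crit_symm` assume `x ∈ A`, `y ∉ A`; as in `MainB` not both sides contain vertices with `Dt < 0`.
If all `Dt ≥ 0` then `B = A`. Otherwise:
* Case 1: `Dt v ≥ 0` for all `v ∉ A`, there is `u ∈ A` with `Dt u < 0`. `loc_x`: `u ~ y`, `0 ≤ Dt u + Dt y + 2`, `Dt u ≤ -2`, `Dt y ≤ 0`, so `Dt u = -2`, `Dt y = 0`. `B = fl A y = insert y A`.
  Claim: `Dt G h B v ≥ 0` for all `v`. `v = y`: `Dt_fl_self`. `v ∈ A`: `Dt_fl_opp`: `Dt v + 2 ad`; if `Dt v < 0` then `v ~ y`, `Dt v ≥ -2` (`loc_x`). `v ∉ A`, `v ≠ y`: `Dt_fl_same`: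
  `Dt v - 2 ad`; if this is negative then `v ~ y` and `Dt v = 0` (even, `≥ 0`); `dir`: `F (fl A v) - Dt v = F (fl A y) - Dt y`, so `F (fl A v) = F (fl A y) < F A`; `loc` with `u`, `v`:
  `0 ≤ -2 + 0 + 2 ad G u v`, so `u ~ v`: triangle `u`, `y`, `v`.
* Case 2: `Dt v ≥ 0` for all `v ∈ A`, there is `u ∉ A` with `Dt u < 0`: the same with `B = fl A x = A.erase x`.
From `Dt G h B v ≥ 0`: `SatI` (`deg_mem`, `deg_notMem`). Sizes: `|B| ≤ |A| + 1`, `|A| ≤ |B| + 1`.
-/

set_option autoImplicit false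

open Finset

namespace Pool.Agent.H49.MT

open Pool.Agent.H49.FR

variable {V : Type} [Fintype V] [DecidableEq V] {G : SimpleGraph V} [DecidableRel G.Adj] {h : ℤ}

omit [Fintype V] [DecidableEq V] in
private lemma ad_nonneg (u v : V) : 0 ≤ ad G u v := by
  unfold ad
  split_ifs <;> omega

omit [Fintype V] [DecidableEq V] in
private lemma ad_le (u v : V) : ad G u v ≤ 1 := by
  unfold ad
  split_ifs <;> omega

private lemma even_Dt {F : Finset V → ℝ} (hF : PassF G h 2 F) (A : Finset V) (v : V) :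
    ∃ j : ℤ, Dt G h A v = 2 * j := hF.lat A v

/-- if all vertices on the side of `y` are satisfied and some vertex on the side of `x` is not, move `y` -/
private lemma core {F : Finset V → ℝ} (hF : PassF G h 2 F) {A : Finset V} {x y : V} (hc : Crit F A x y)
    (htri : ∀ u v w, G.Adj u v → G.Adj v w → ¬ G.Adj u w) {u : V} (hux : u ∈ A ↔ x ∈ A)
    (hu : Dt G h A u < 0) (hy : ∀ v, (v ∈ A ↔ y ∈ A) → 0 ≤ Dt G h A v) :
    ∀ v, 0 ≤ Dt G h (fl A y) v := by
  have hop := crit_opp hF hc
  obtain ⟨h1, h2⟩ := loc_x hF hc hu hux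
  have h3 := dt_le hF hc.ly
  have hy0 := hy y Iff.rfl
  obtain ⟨j, hj⟩ := even_Dt hF A u
  intro v
  by_cases hvy : v = y
  · subst hvy
    rw [Dt_fl_self]
    omega
  by_cases hs : y ∈ A ↔ v ∈ A
  · rw [Dt_fl_same G h hvy hs]
    have h4 := hy v hs.symm
    obtain ⟨i, hi⟩ := even_Dt hF A v
    by_cases hadj : G.Adj y v
    · have h5 : ad G y v = 1 := by unfold ad; rw [if_pos hadj]
      by_contra hcon
      have h6 : Dt G h A v = 0 := by omega
      have h7 := hF.dir A v y hs.symm
      rw [h6] at h7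
      have h8 : Dt G h A y = 0 := by omega
      rw [h8] at h7
      have h9 : F (fl A v) < F A := by
        have := hc.ly
        push_cast at h7
        linarith
      have h10 := loc hF hc (down hF hu) hux h9 hs.symm
      have h11 : ad G u v = 1 := by
        have := ad_le (G := G) u v
        omega
      have h12 : G.Adj u v := by
        by_contra hne
        unfold ad at h11
        rw [if_neg hne] at h11
        omega
      exact htri u y v h1 hadj h12
    · have h5 : ad G y v = 0 := by unfold ad; rw [if_neg hadj]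
      omega
  · rw [Dt_fl_opp G h hs]
    have h4 := ad_nonneg (G := G) y v
    by_cases hv : 0 ≤ Dt G h A v
    · omega
    · have hvx : v ∈ A ↔ x ∈ A := by tauto
      obtain ⟨h5, h6⟩ := loc_x hF hc (not_le.1 hv) hvx
      have h7 : ad G y v = 1 := by unfold ad; rw [if_pos h5.symm]
      omega

private lemma sat_of {B : Finset V} (hB : ∀ v, 0 ≤ Dt G h B v) : SatI G h B ∧ SatI G (-h) Bᶜ := by
  constructor
  · intro v hv
    have h1 := hB v
    unfold Dt at h1
    rw [if_pos hv] at h1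
    have h2 := deg_mem G hv
    omega
  · intro v hv
    have hv' : v ∉ B := by simpa using hv
    have h1 := hB v
    unfold Dt at h1
    rw [if_neg hv'] at h1
    have h2 := deg_notMem G hv'
    omega

private lemma card_fl_le (A : Finset V) (v : V) : (fl A v).card ≤ A.card + 1 ∧ A.card ≤ (fl A v).card + 1 := by
  by_cases hv : v ∈ A
  · have := card_fl_mem hv
    omega
  · have := card_fl_notMem hv
    omega

theorem mainC {F : Finset V → ℝ} (hF : PassF G h 2 F) {A : Finset V} {x y : V} (hc : Crit F A x y)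
    (htri : ∀ u v w, G.Adj u v → G.Adj v w → ¬ G.Adj u w) :
    ∃ B : Finset V, B.card ≤ A.card + 1 ∧ A.card ≤ B.card + 1 ∧ SatI G h B ∧ SatI G (-h) Bᶜ := by
  have hop := crit_opp hF hc
  by_cases hx : ∃ u, (u ∈ A ↔ x ∈ A) ∧ Dt G h A u < 0
  · obtain ⟨u, hux, hu⟩ := hx
    have hy : ∀ v, (v ∈ A ↔ y ∈ A) → 0 ≤ Dt G h A v := by
      intro v hvy
      by_contra hcon
      rw [not_le] at hcon
      have h1 := loc hF hc (down hF hu) hux (down hF hcon) hvy
      have h2 := ad_le (G := G) u v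
      obtain ⟨i, hi⟩ := even_Dt hF A u
      obtain ⟨j, hj⟩ := even_Dt hF A v
      omega
    have h1 := sat_of (core hF hc htri hux hu hy)
    exact ⟨fl A y, (card_fl_le A y).1, (card_fl_le A y).2, h1.1, h1.2⟩
  · push Not at hx
    by_cases hy : ∃ u, (u ∈ A ↔ y ∈ A) ∧ Dt G h A u < 0
    · obtain ⟨u, huy, hu⟩ := hy
      have h1 := sat_of (core hF (crit_symm hc) htri huy hu hx)
      exact ⟨fl A x, (card_fl_le A x).1, (card_fl_le A x).2, h1.1, h1.2⟩
    · push Not at hy
      have h1 : ∀ v, 0 ≤ Dt G h A v := by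
        intro v
        by_cases hv : v ∈ A ↔ x ∈ A
        · exact hx v hv
        · refine hy v ?_
          tauto
      have h2 := sat_of h1
      exact ⟨A, by omega, by omega, h2.1, h2.2⟩

end Pool.Agent.H49.MT
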