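import Pool.Agent.H49.MT.Ex
import Pool.Agent.H49.MT.Size
import Pool.Agent.H49.MT.Lat
import Pool.Agent.H49.MT.MainC

/-!
# Module FinB: part (2) of the theorem

`h = 0` if `d` is even, `h = 1` if `d` is odd; `η = 2`, `lam = 3/2`; `m = n/2` for `h = 0`, `m = n/4` for `h = 1` (natural division); `n ≥ 50 (d+1)²`.
`ex_pass`: `3/4 < (3/2 - h)(n - m)`. Sizes (`size_mem`, `size_compl`), in both cases `n ≤ 3 (d+1) |A|` and `n ≤ 3 (d+1) |Aᶜ|`:
`h = 0`: `(3/2) m ≤ (d + 3/2) |A|`, `m ≥ (n-1)/2`; `(3/2)(n-m) - 3/4 ≤ (d + 3/2) |Aᶜ|`, `n - m ≥ n/2`.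
`h = 1`: `(5/2) m ≤ (d + 5/2) |A|`, `m ≥ (n-3)/4`, `1.875 (n-3)(d+1) ≥ n (d + 2.5)` for `n ≥ 45`, `d ≥ 1`; `(1/2)(n-m) - 3/4 ≤ (d + 1/2) |Aᶜ|`, `n - m ≥ 3n/4`,
`3 (d+1)(0.375 n - 0.75) ≥ n (d + 0.5)` for `n ≥ 18`.
As `n ≥ 50 (d+1)`, `|A|, |Aᶜ| ≥ 16` and `n ≤ 4 (d+1)(|A| - 1)`, `n ≤ 4 (d+1)(|Aᶜ| - 1)`.
If `G` has no triangles take `B` from `mainC`, `C₁ = Bᶜ`, `C₂ = B` (`SatI G h B`: `2 nin ≥ d + h`, so `nin ≥ (d+1)/2` (natural division); `SatI G (-h) Bᶜ`: `nin ≥ d/2`).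
Otherwise `mainB`: `C₂ = insert z A`, `C₁ = Aᶜ`, or `C₂ = A`, `C₁ = insert z Aᶜ`; `C₁ ∩ C₂ = {z}`; the third clause is empty in this case (`htri` contradicts).
-/

set_option autoImplicit false

open Finset

namespace Pool.Agent.H49.MT

open Pool.Agent.H49.FR

variable {V : Type} [Fintype V] [DecidableEq V] {G : SimpleGraph V} [DecidableRel G.Adj]

private theorem finB_pass {d : ℕ} (hreg : G.IsRegularOfDegree d)
    (hn : 50 * (d + 1) ^ 2 ≤ Fintype.card V) :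
    ∃ (h : ℤ) (F : Finset V → ℝ) (A : Finset V) (x y : V),
      ((h = 0 ∧ d % 2 = 0) ∨ (h = 1 ∧ d % 2 = 1)) ∧ PassF G h 2 F ∧ Crit F A x y ∧
      Fintype.card V ≤ 3 * (d + 1) * A.card ∧ Fintype.card V ≤ 3 * (d + 1) * (Aᶜ).card := by
  have hn50 : 50 ≤ Fintype.card V :=
    le_trans (Nat.mul_le_mul_left 50 (Nat.one_le_pow 2 (d + 1) (Nat.succ_pos d))) hn
  have hdeg : ∀ v, G.degree v ≤ d := fun v => (hreg v).le
  set n := Fintype.card V with hnd
  have hnR : (50 : ℝ) ≤ n := by exact_mod_cast hn50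
  rcases Nat.mod_two_eq_zero_or_one d with hd | hd
  · obtain ⟨c, hc⟩ : ∃ c : ℕ, d = 2 * c := ⟨d / 2, by omega⟩
    have hlat := lat_two (h := 0) hreg ⟨(c : ℤ), by rw [hc]; push_cast; ring⟩
    have hm2 : 2 * (n / 2) ≤ n := by omega
    have hm3 : n ≤ 2 * (n / 2) + 1 := by omega
    have hm2R : 2 * ((n / 2 : ℕ) : ℝ) ≤ n := by exact_mod_cast hm2
    have hm3R : (n : ℝ) ≤ 2 * ((n / 2 : ℕ) : ℝ) + 1 := by exact_mod_cast hm3
    obtain ⟨A, x, y, hA, hcr⟩ := ex_pass (G := G) (h := 0) (η := 2) (lam := 3 / 2) (m := n / 2)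
      le_rfl (by norm_num) (by norm_num) hlat (by omega) (by omega)
      (by push_cast; rw [← hnd]; linarith)
    have h1 := size_mem G hdeg (h := 0) le_rfl (by norm_num : (0 : ℝ) < 3 / 2) hA
    have h2 := size_compl G hdeg (h := 0) le_rfl (by norm_num : ((0 : ℤ) : ℝ) < 3 / 2)
      (by omega) hA
    rw [← hnd] at h2
    push_cast at h1 h2
    have hA0 : (0 : ℝ) ≤ A.card := Nat.cast_nonneg _
    have hA0' : (0 : ℝ) ≤ (Aᶜ).card := Nat.cast_nonneg _
    have hd0 : (0 : ℝ) ≤ d := Nat.cast_nonneg _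
    have hdA : 0 ≤ (d : ℝ) * A.card := mul_nonneg hd0 hA0
    have hdA' : 0 ≤ (d : ℝ) * (Aᶜ).card := mul_nonneg hd0 hA0'
    refine ⟨0, FF G 0 (3 / 2) (n / 2), A, x, y, Or.inl ⟨rfl, hd⟩,
      pf (by norm_num) (by norm_num) hlat, hcr, ?_, ?_⟩
    · have : (n : ℝ) ≤ 3 * (d + 1) * A.card := by linarith
      exact_mod_cast this
    · have : (n : ℝ) ≤ 3 * (d + 1) * (Aᶜ).card := by linarith
      exact_mod_cast this
  · obtain ⟨c, hc⟩ : ∃ c : ℕ, d = 1 + 2 * c := ⟨d / 2, by omega⟩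
    have hlat := lat_two (h := 1) hreg ⟨(c : ℤ), by rw [hc]; push_cast; ring⟩
    have hm2 : 4 * (n / 4) ≤ n := by omega
    have hm3 : n ≤ 4 * (n / 4) + 3 := by omega
    have hm2R : 4 * ((n / 4 : ℕ) : ℝ) ≤ n := by exact_mod_cast hm2
    have hm3R : (n : ℝ) ≤ 4 * ((n / 4 : ℕ) : ℝ) + 3 := by exact_mod_cast hm3
    obtain ⟨A, x, y, hA, hcr⟩ := ex_pass (G := G) (h := 1) (η := 2) (lam := 3 / 2) (m := n / 4)
      zero_le_one (by norm_num) (by norm_num) hlat (by omega) (by omega)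
      (by push_cast; rw [← hnd]; linarith)
    have h1 := size_mem G hdeg (h := 1) zero_le_one (by norm_num : (0 : ℝ) < 3 / 2) hA
    have h2 := size_compl G hdeg (h := 1) zero_le_one (by norm_num : ((1 : ℤ) : ℝ) < 3 / 2)
      (by omega) hA
    rw [← hnd] at h2
    push_cast at h1 h2
    have hA0 : (0 : ℝ) ≤ A.card := Nat.cast_nonneg _
    have hA0' : (0 : ℝ) ≤ (Aᶜ).card := Nat.cast_nonneg _
    have hd0 : (1 : ℝ) ≤ d := by exact_mod_cast (by omega : 1 ≤ d)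
    have hdA : 0 ≤ ((d : ℝ) - 1) * A.card := mul_nonneg (by linarith) hA0
    have hdA' : 0 ≤ ((d : ℝ) - 1) * (Aᶜ).card := mul_nonneg (by linarith) hA0'
    refine ⟨1, FF G 1 (3 / 2) (n / 4), A, x, y, Or.inr ⟨rfl, hd⟩,
      pf (by norm_num) (by norm_num) hlat, hcr, ?_, ?_⟩
    · have : (n : ℝ) ≤ 3 * (d + 1) * A.card := by linarith
      exact_mod_cast this
    · have : (n : ℝ) ≤ 3 * (d + 1) * (Aᶜ).card := by linarith
      exact_mod_cast this

private theorem finB_size {n d k k' : ℕ} (hn : 50 * (d + 1) ^ 2 ≤ n) (h : n ≤ 3 * (d + 1) * k)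
    (hk : k ≤ k' + 1) : n ≤ 4 * (d + 1) * k' := by
  have h1 : (d + 1) * (50 * (d + 1)) ≤ (d + 1) * (3 * k) := by
    calc (d + 1) * (50 * (d + 1)) = 50 * (d + 1) ^ 2 := by ring
      _ ≤ n := hn
      _ ≤ 3 * (d + 1) * k := h
      _ = (d + 1) * (3 * k) := by ring
  have h2 : 50 * (d + 1) ≤ 3 * k := Nat.le_of_mul_le_mul_left h1 (Nat.succ_pos d)
  have h3 : 3 * k ≤ 4 * k' := by omega
  calc n ≤ 3 * (d + 1) * k := h
    _ = (d + 1) * (3 * k) := by ring
    _ ≤ (d + 1) * (4 * k') := Nat.mul_le_mul_left _ h3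
    _ = 4 * (d + 1) * k' := by ring

private theorem finB_lo {d : ℕ} (hreg : G.IsRegularOfDegree d) {h : ℤ}
    (hh : (h = 0 ∧ d % 2 = 0) ∨ (h = 1 ∧ d % 2 = 1)) {C : Finset V} (hC : SatI G (-h) C) :
    ∀ v ∈ C, d / 2 ≤ (G.neighborFinset v ∩ C).card := by
  intro v hv
  have h1 := hC v hv
  rw [hreg v] at h1
  unfold nin at h1
  omega

private theorem finB_hi {d : ℕ} (hreg : G.IsRegularOfDegree d) {h : ℤ}
    (hh : (h = 0 ∧ d % 2 = 0) ∨ (h = 1 ∧ d % 2 = 1)) {C : Finset V} (hC : SatI G h C) :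
    ∀ v ∈ C, (d + 1) / 2 ≤ (G.neighborFinset v ∩ C).card := by
  intro v hv
  have h1 := hC v hv
  rw [hreg v] at h1
  unfold nin at h1
  omega

theorem finB {d : ℕ} (hreg : G.IsRegularOfDegree d) (hn : 50 * (d + 1) ^ 2 ≤ Fintype.card V) :
    ∃ C₁ C₂ : Finset V, C₁ ∪ C₂ = univ ∧ (C₁ ∩ C₂).card ≤ 1 ∧
      Fintype.card V ≤ 4 * (d + 1) * (C₁ᶜ).card ∧ Fintype.card V ≤ 4 * (d + 1) * (C₂ᶜ).card ∧
      (∀ v ∈ C₁, d / 2 ≤ (G.neighborFinset v ∩ C₁).card) ∧
      (∀ v ∈ C₂, (d + 1) / 2 ≤ (G.neighborFinset v ∩ C₂).card) ∧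
      ((∀ u v w, G.Adj u v → G.Adj v w → ¬ G.Adj u w) → C₁ ∩ C₂ = ∅) := by
  classical
  obtain ⟨h, F, A, x, y, hh, hF, hc, hA, hA'⟩ := finB_pass hreg hn
  have hcard : A.card + (Aᶜ).card = Fintype.card V := Finset.card_add_card_compl A
  by_cases htri : ∀ u v w, G.Adj u v → G.Adj v w → ¬ G.Adj u w
  · obtain ⟨B, h1, h2, h3, h4⟩ := mainC hF hc htri
    have hcB : B.card + (Bᶜ).card = Fintype.card V := Finset.card_add_card_compl B
    refine ⟨Bᶜ, B, ?_, ?_, ?_, ?_, finB_lo hreg hh h4, finB_hi hreg hh h3, fun _ => ?_⟩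
    · rw [Finset.union_comm]; exact Finset.union_compl B
    · rw [Finset.inter_comm, Finset.inter_compl]; simp
    · rw [compl_compl]
      exact finB_size hn hA h2
    · exact finB_size hn hA' (by omega)
    · rw [Finset.inter_comm, Finset.inter_compl]
  · rcases mainB hF hc with ⟨z, hz, h1, h2⟩ | ⟨z, hz, h1, h2⟩
    · have hins : (insert z A).card = A.card + 1 := Finset.card_insert_of_notMem hz
      have hcI : (insert z A).card + ((insert z A)ᶜ).card = Fintype.card V :=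
        Finset.card_add_card_compl _
      refine ⟨Aᶜ, insert z A, ?_, ?_, ?_, ?_, finB_lo hreg hh h2, finB_hi hreg hh h1,
        fun h0 => absurd h0 htri⟩
      · ext v
        simp only [Finset.mem_union, Finset.mem_compl, Finset.mem_insert, Finset.mem_univ, iff_true]
        tauto
      · refine (Finset.card_le_card (t := {z}) ?_).trans (Finset.card_singleton z).le
        intro v hv
        simp only [Finset.mem_inter, Finset.mem_compl, Finset.mem_insert] at hv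
        rw [Finset.mem_singleton]
        tauto
      · rw [compl_compl]
        exact finB_size hn hA (by omega)
      · exact finB_size hn hA' (by omega)
    · have hz' : z ∉ Aᶜ := fun h0 => (Finset.mem_compl.1 h0) hz
      have hins : (insert z Aᶜ).card = (Aᶜ).card + 1 := Finset.card_insert_of_notMem hz'
      have hcI : (insert z Aᶜ).card + ((insert z Aᶜ)ᶜ).card = Fintype.card V :=
        Finset.card_add_card_compl _
      refine ⟨insert z Aᶜ, A, ?_, ?_, ?_, ?_, finB_lo hreg hh h2, finB_hi hreg hh h1,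
        fun h0 => absurd h0 htri⟩
      · ext v
        simp only [Finset.mem_union, Finset.mem_compl, Finset.mem_insert, Finset.mem_univ, iff_true]
        tauto
      · refine (Finset.card_le_card (t := {z}) ?_).trans (Finset.card_singleton z).le
        intro v hv
        simp only [Finset.mem_inter, Finset.mem_compl, Finset.mem_insert] at hv
        rw [Finset.mem_singleton]
        tauto
      · exact finB_size hn hA (by omega)
      · exact finB_size hn hA' (by omega)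

end Pool.Agent.H49.MT
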