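import Pool.Agent.H49.MT.MainB
import Pool.Agent.H49.MT.PF

/-!
# Module MainD: odd degrees, no cycles of length 3 and 4: an internal partition (`h = 0`, `η = 1`, `lam < 1`)

All `D = Dv` are odd (`deg_mem`, `deg_notMem`), `Dt G 0 = Dv`. `F = FF G 0 lam m`; `lip`: `|(F X - cut X) - (F Y - cut Y)| ≤ lam ||X| - |Y||` (the function `min k (2m + 1/2 - k)` has Lipschitz
constant one). By `crit_symm` assume `x ∈ A`, `y ∉ A`. `D x, D y ≤ 0` (`dt_le`), odd, `loc` with `u = x`, `v = y`: `0 ≤ D x + D y + 2 ad`: `D x = D y = -1`, `x ~ y`.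
`U₀ = {v ∈ A : D v < 0} ∋ x`, `U₁ = {v ∉ A : D v < 0} ∋ y`: `loc` for `u ∈ U₀`, `v ∈ U₁` (`down`): `u ~ v`, `D u = D v = -1`. In particular all `u ∈ U₀` are adjacent to `y`, so `U₀` is
independent (no triangles) and no vertex `w ≠ y` is adjacent to two vertices of `U₀` (no 4-cycles: two different vertices have at most one common neighbour). The same for `U₁` and `x`.
Let `B = A \ U₀`. If all `Dv G B v ≥ 0` we are done (`|U₀| ≤ degree y`). Otherwise there is `w` with `Dv G B w < 0`. With `nin w B = nin w A - |N(w) ∩ U₀|`, etc.: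
`w ∈ U₀`: `Dv G B w = 1` (independent). `w ∉ A`: `Dv G B w = D w + 2 |N(w) ∩ U₀| ≥ 0` (`w ∈ U₁`: `w ~ x`). So `w ∈ A \ U₀`, `D w ≥ 1`, `Dv G B w = D w - 2 |N(w) ∩ U₀|`,
`|N(w) ∩ U₀| ≤ 1` (`w ≠ y`): `D w = 1` and `w ~ u` for some `u ∈ U₀`. In the same way with `B' = A ∪ U₁`: done, or there are `v ∈ U₁`, `w' ∉ A`, `D w' = 1`, `w' ~ v`. Now `u ~ v`,
`w ≁ v`, `w' ≁ u` (no triangles), `w ≁ w'` (no 4-cycle `w u v w'`). The sets `fl A u`, `fl (fl A u) w`, then also `v` moved, then also `w'`, then `w` moved back, then `u` moved back, then `w'` moved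
back: their cuts are `cut A - 1, -2, -1, -2, -1, -2, -1` (`cut_fl`, `Dv_fl_same`, `Dv_fl_opp`), their sizes differ from `|A|` by `1, 2, 1, 0, 1, 2, 1`, so by `lip` all have `F < F A` (`lam < 1`).
So `fl A u`, `fl A v` are connected below `F A`; also `fl A u`, `fl A x` and `fl A v`, `fl A y` (`same`): contradiction to `nc`.
Sizes: `|U₀| ≤ d`, `|U₁| ≤ d` (subsets of the neighbours of `y`, `x`).
-/

set_option autoImplicit false

open Finset

namespace Pool.Agent.H49.MT

open Pool.Agent.H49.FR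

variable {V : Type} [Fintype V] [DecidableEq V] {G : SimpleGraph V} [DecidableRel G.Adj]

private lemma md_Dt (A : Finset V) (v : V) : Dt G 0 A v = Dv G A v := by
  unfold Dt
  split_ifs <;> ring

omit [Fintype V] [DecidableEq V] in
private lemma md_ad {u v : V} (h : G.Adj u v) : ad G u v = 1 := by
  unfold ad
  rw [if_pos h]

omit [Fintype V] [DecidableEq V] in
private lemma md_ad0 {u v : V} (h : ¬ G.Adj u v) : ad G u v = 0 := by
  unfold ad
  rw [if_neg h]

omit [Fintype V] [DecidableEq V] in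
private lemma md_ad_le (u v : V) : ad G u v ≤ 1 := by
  unfold ad
  split_ifs <;> omega

private lemma md_card (A : Finset V) (v : V) : (fl A v).card ≤ A.card + 1 ∧ A.card ≤ (fl A v).card + 1 := by
  by_cases hv : v ∈ A
  · have := card_fl_mem hv
    omega
  · have := card_fl_notMem hv
    omega

private lemma md_compl (A : Finset V) (v : V) : Dv G Aᶜ v = Dv G A v := by
  unfold Dv
  by_cases hv : v ∈ A
  · rw [if_neg (by simpa using hv), if_pos hv, compl_compl]
  · rw [if_pos (by simpa using hv), if_neg hv, compl_compl]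

/-- the functional goes down if the cut goes down by at least the change of the size -/
private lemma md_low {lam : ℝ} (hl : 0 < lam) (hl1 : lam < 1) {m : ℕ} {X A : Finset V} {j : ℕ} (hj : 1 ≤ j)
    (h1 : (cut G X : ℤ) + j ≤ cut G A) (h2 : X.card ≤ A.card + j) (h3 : A.card ≤ X.card + j) :
    FF G 0 lam m X < FF G 0 lam m A := by
  have h1' : (cut G X : ℝ) + j ≤ cut G A := by exact_mod_cast h1
  have h2' : (X.card : ℝ) ≤ A.card + j := by exact_mod_cast h2
  have h3' : (A.card : ℝ) ≤ X.card + j := by exact_mod_cast h3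
  have hj' : (1 : ℝ) ≤ j := by exact_mod_cast hj
  have h4 : min (X.card : ℝ) (2 * m + 1 / 2 - X.card) ≤ min (A.card : ℝ) (2 * m + 1 / 2 - A.card) + j := by
    rw [← min_add_add_right]
    exact min_le_min h2' (by linarith)
  have h5 : lam * min (X.card : ℝ) (2 * m + 1 / 2 - X.card)
      ≤ lam * min (A.card : ℝ) (2 * m + 1 / 2 - A.card) + lam * j := by
    have := mul_le_mul_of_nonneg_left h4 hl.le
    linarith
  have h6 : lam * j < j := by nlinarith
  unfold FF
  push_cast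
  linarith

private lemma md_same {F : Finset V → ℝ} (hF : PassF G 0 1 F) {A : Finset V} {u u' : V}
    (hu : F (fl A u) < F A) (hu' : F (fl A u') < F A) (hs : u ∈ A ↔ u' ∈ A) :
    Conn F (F A) (fl A u) (fl A u') := by
  by_cases huu : u = u'
  · subst huu
    exact Relation.EqvGen.refl _
  · have h1 := hF.same A u u' huu hs
    have h2 : F (fl (fl A u) u') < F A := by linarith
    have h3 : F (fl (fl A u') u) < F A := by rw [fl_comm]; exact h2
    have h4 : Conn F (F A) (fl A u) (fl (fl A u) u') :=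
      Relation.EqvGen.rel _ _ ⟨⟨u', rfl⟩, hu, h2⟩
    have h5 : Conn F (F A) (fl A u') (fl (fl A u') u) :=
      Relation.EqvGen.rel _ _ ⟨⟨u, rfl⟩, hu', h3⟩
    rw [fl_comm A u' u] at h5
    exact Relation.EqvGen.trans _ _ _ h4 (Relation.EqvGen.symm _ _ h5)

/-- moving `u`, `w`, `v`, `w'` one after the other stays below the level of `A` -/
private lemma md_half {lam : ℝ} (hl : 0 < lam) (hl1 : lam < 1) {m : ℕ} {A : Finset V} {u w v w' : V}
    (hu : Dv G A u = -1) (hv : Dv G A v = -1) (hw : Dv G A w = 1) (hw' : Dv G A w' = 1)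
    (huw : G.Adj w u) (hvw : G.Adj w' v) (huv : G.Adj u v)
    (n1 : ¬ G.Adj w v) (n2 : ¬ G.Adj w' u) (n3 : ¬ G.Adj w w')
    (s1 : u ∈ A ↔ w ∈ A) (s2 : v ∈ A ↔ w' ∈ A) (s3 : ¬ (u ∈ A ↔ v ∈ A)) :
    Conn (FF G 0 lam m) (FF G 0 lam m A) (fl A u) (fl (fl (fl (fl A u) w) v) w') := by
  have e1 : w ≠ u := huw.ne
  have e2 : v ≠ u := by
    rintro rfl
    exact s3 Iff.rfl
  have e3 : v ≠ w := by
    rintro rfl
    exact s3 s1
  have e4 : w' ≠ u := by
    rintro rfl
    exact s3 s2.symm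
  have e5 : w' ≠ w := by
    rintro rfl
    exact s3 (s1.trans s2.symm)
  -- memberships
  have m1 : w ∈ fl A u ↔ w ∈ A := by rw [mem_fl, if_neg e1]
  have m2 : v ∈ fl A u ↔ v ∈ A := by rw [mem_fl, if_neg e2]
  have m3 : w' ∈ fl A u ↔ w' ∈ A := by rw [mem_fl, if_neg e4]
  have m4 : v ∈ fl (fl A u) w ↔ v ∈ A := by rw [mem_fl, if_neg e3, m2]
  have m5 : w' ∈ fl (fl A u) w ↔ w' ∈ A := by rw [mem_fl, if_neg e5, m3]
  have s4 : ¬ (w ∈ fl A u ↔ v ∈ fl A u) := by
    rw [m1, m2]
    exact fun h => s3 (s1.trans h)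
  have s5 : ¬ (w ∈ fl A u ↔ w' ∈ fl A u) := by
    rw [m1, m3]
    exact fun h => s3 (s1.trans (h.trans s2.symm))
  have s6 : ¬ (u ∈ A ↔ w' ∈ A) := fun h => s3 (h.trans s2.symm)
  have s7 : v ∈ fl (fl A u) w ↔ w' ∈ fl (fl A u) w := by
    rw [m4, m5]
    exact s2
  -- cuts
  have c1 := cut_fl G A u
  have c2 := cut_fl G (fl A u) w
  have c3 := cut_fl G (fl (fl A u) w) v
  have c4 := cut_fl G (fl (fl (fl A u) w) v) w'
  have d2 : Dv G (fl A u) w = -1 := by
    rw [Dv_fl_same G e1 s1, hw, md_ad huw.symm]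
    norm_num
  have d3 : Dv G (fl (fl A u) w) v = 1 := by
    rw [Dv_fl_opp G s4, Dv_fl_opp G s3, hv, md_ad huv, md_ad0 n1]
    norm_num
  have d4 : Dv G (fl (fl (fl A u) w) v) w' = -1 := by
    rw [Dv_fl_same G hvw.ne s7, Dv_fl_opp G s5, Dv_fl_opp G s6, hw', md_ad hvw.symm,
      md_ad0 (fun h => n2 h.symm), md_ad0 n3]
    norm_num
  rw [hu] at c1
  rw [d2] at c2
  rw [d3] at c3
  rw [d4] at c4
  -- sizes
  have k1 := md_card A u
  have k2 := md_card (fl A u) w
  have k3 : (fl (fl (fl A u) w) v).card ≤ A.card + 1 ∧ A.card ≤ (fl (fl (fl A u) w) v).card + 1 := by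
    have h1 := md_card (fl (fl A u) v) w
    rw [card_fl_opp s3] at h1
    rw [fl_comm (fl A u) w v]
    exact h1
  have k4 := md_card (fl (fl (fl A u) w) v) w'
  have k2' : (fl (fl A u) w).card ≤ A.card + 2 ∧ A.card ≤ (fl (fl A u) w).card + 2 :=
    ⟨by linarith [k1.1, k2.1], by linarith [k1.2, k2.2]⟩
  have k4' : (fl (fl (fl (fl A u) w) v) w').card ≤ A.card + 2 ∧
      A.card ≤ (fl (fl (fl (fl A u) w) v) w').card + 2 :=
    ⟨by linarith [k3.1, k4.1], by linarith [k3.2, k4.2]⟩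
  have g1 : (cut G (fl A u) : ℤ) + ((1 : ℕ) : ℤ) ≤ cut G A := by push_cast; linarith
  have g2 : (cut G (fl (fl A u) w) : ℤ) + ((2 : ℕ) : ℤ) ≤ cut G A := by push_cast; linarith
  have g3 : (cut G (fl (fl (fl A u) w) v) : ℤ) + ((1 : ℕ) : ℤ) ≤ cut G A := by push_cast; linarith
  have g4 : (cut G (fl (fl (fl (fl A u) w) v) w') : ℤ) + ((2 : ℕ) : ℤ) ≤ cut G A := by
    push_cast; linarith
  have f1 : FF G 0 lam m (fl A u) < FF G 0 lam m A := md_low hl hl1 le_rfl g1 k1.1 k1.2
  have f2 : FF G 0 lam m (fl (fl A u) w) < FF G 0 lam m A :=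
    md_low hl hl1 one_le_two g2 k2'.1 k2'.2
  have f3 : FF G 0 lam m (fl (fl (fl A u) w) v) < FF G 0 lam m A := md_low hl hl1 le_rfl g3 k3.1 k3.2
  have f4 : FF G 0 lam m (fl (fl (fl (fl A u) w) v) w') < FF G 0 lam m A :=
    md_low hl hl1 one_le_two g4 k4'.1 k4'.2
  exact Relation.EqvGen.trans _ _ _ (Relation.EqvGen.rel _ _ ⟨⟨w, rfl⟩, f1, f2⟩)
    (Relation.EqvGen.trans _ _ _ (Relation.EqvGen.rel _ _ ⟨⟨v, rfl⟩, f2, f3⟩)
      (Relation.EqvGen.rel _ _ ⟨⟨w', rfl⟩, f3, f4⟩))

/-- the number of neighbours after removing a set -/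
private lemma md_nin (w : V) (X U : Finset V) (hU : U ⊆ X) :
    nin G w (X \ U) + nin G w U = nin G w X ∧ nin G w (X \ U)ᶜ = nin G w Xᶜ + nin G w U := by
  have h1 : nin G w (X \ U) + nin G w U = nin G w X := by
    unfold nin
    rw [← card_union_of_disjoint, ← inter_union_distrib_left, sdiff_union_of_subset hU]
    rw [Finset.disjoint_left]
    intro z h1 h2
    exact (mem_sdiff.1 (mem_inter.1 h1).2).2 (mem_inter.1 h2).2
  have h2 := nin_add G w (X \ U)
  have h3 := nin_add G w X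
  exact ⟨h1, by omega⟩

/-- one side: moving all unhappy vertices, or a bad pair -/
private lemma md_side {X : Finset V} {x y : V} (hodd : ∀ v, Odd (Dv G X v)) (hx : x ∈ X) (hy : y ∉ X)
    (hx0 : Dv G X x < 0) (h1 : ∀ u ∈ X, Dv G X u < 0 → Dv G X u = -1 ∧ G.Adj u y)
    (h2 : ∀ v, v ∉ X → Dv G X v < 0 → Dv G X v = -1 ∧ G.Adj v x)
    (htri : ∀ u v w, G.Adj u v → G.Adj v w → ¬ G.Adj u w)
    (hsq : ∀ u v, u ≠ v → (G.neighborFinset u ∩ G.neighborFinset v).card ≤ 1) :
    (∀ v, 0 ≤ Dv G (X \ X.filter fun u => Dv G X u < 0) v) ∨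
      ∃ w ∈ X, ∃ u ∈ X, Dv G X u = -1 ∧ Dv G X w = 1 ∧ G.Adj w u := by
  by_contra hcon
  push Not at hcon
  obtain ⟨⟨w, hw⟩, hno⟩ := hcon
  set U := X.filter fun u => Dv G X u < 0 with hUdef
  have hU : U ⊆ X := filter_subset _ _
  obtain ⟨e1, e2⟩ := md_nin (G := G) w X U hU
  obtain ⟨k, hk⟩ := hodd w
  by_cases hwX : w ∈ X
  · by_cases hwU : Dv G X w < 0
    · -- `w ∈ U`
      have hwU' : w ∈ U := by rw [hUdef, mem_filter]; exact ⟨hwX, hwU⟩
      obtain ⟨h3, h4⟩ := h1 w hwX hwU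
      have h5 : nin G w U = 0 := by
        unfold nin
        rw [card_eq_zero, eq_empty_iff_forall_notMem]
        intro z hz
        rw [mem_inter, SimpleGraph.mem_neighborFinset, hUdef, mem_filter] at hz
        obtain ⟨z1, z2, z3⟩ := hz
        exact htri w z y z1 (h1 z z2 z3).2 h4
      unfold Dv at h3 hw
      rw [if_pos hwX] at h3
      rw [if_neg (fun h => (mem_sdiff.1 h).2 hwU')] at hw
      omega
    · -- `w ∈ X \ U`
      have hwU' : w ∉ U := by rw [hUdef, mem_filter]; exact fun h => hwU h.2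
      have h5 : nin G w U ≤ 1 := by
        have hwy : w ≠ y := by
          rintro rfl
          exact hy hwX
        refine le_trans (card_le_card ?_) (hsq w y hwy)
        intro z hz
        rw [mem_inter, SimpleGraph.mem_neighborFinset, hUdef, mem_filter] at hz
        rw [mem_inter, SimpleGraph.mem_neighborFinset, SimpleGraph.mem_neighborFinset]
        exact ⟨hz.1, ((h1 z hz.2.1 hz.2.2).2).symm⟩
      have h6 : Dv G X w = nin G w X - nin G w Xᶜ := by
        unfold Dv
        rw [if_pos hwX]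
      have h7 : (Dv G (X \ U) w : ℤ) = nin G w (X \ U) - nin G w (X \ U)ᶜ := by
        unfold Dv
        rw [if_pos (mem_sdiff.2 ⟨hwX, hwU'⟩)]
      have h8 : nin G w U = 1 := by omega
      have h9 : Dv G X w = 1 := by omega
      have h10 : 0 < (G.neighborFinset w ∩ U).card := by
        unfold nin at h8
        omega
      obtain ⟨u, hu⟩ := card_pos.1 h10
      rw [mem_inter, SimpleGraph.mem_neighborFinset, hUdef, mem_filter] at hu
      exact hno w hwX u hu.2.1 (h1 u hu.2.1 hu.2.2).1 h9 hu.1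
  · -- `w ∉ X`
    have h6 : Dv G X w = nin G w Xᶜ - nin G w X := by
      unfold Dv
      rw [if_neg hwX]
    have h7 : (Dv G (X \ U) w : ℤ) = nin G w (X \ U)ᶜ - nin G w (X \ U) := by
      unfold Dv
      rw [if_neg (fun h => hwX (mem_sdiff.1 h).1)]
    by_cases hw0 : Dv G X w < 0
    · obtain ⟨h3, h4⟩ := h2 w hwX hw0
      have h5 : 1 ≤ nin G w U := by
        unfold nin
        rw [Nat.one_le_iff_ne_zero, ← Nat.pos_iff_ne_zero, card_pos]
        refine ⟨x, ?_⟩
        rw [mem_inter, SimpleGraph.mem_neighborFinset, hUdef, mem_filter]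
        exact ⟨h4, hx, hx0⟩
      omega
    · omega

private lemma md_sat {B : Finset V} (hB : ∀ v, 0 ≤ Dv G B v) : SatI G 0 B ∧ SatI G 0 Bᶜ := by
  constructor
  · intro v hv
    have h1 := hB v
    have h2 := deg_mem G hv
    omega
  · intro v hv
    have hv' : v ∉ B := by simpa using hv
    have h1 := hB v
    have h2 := deg_notMem G hv'
    omega

/-- the case `x ∈ A`, `y ∉ A` -/
private lemma md_core {d : ℕ} (hreg : G.IsRegularOfDegree d) (hd : Odd d) {lam : ℝ} (hl : 0 < lam) (hl1 : lam < 1)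
    {m : ℕ} {A : Finset V} {x y : V} (hc : Crit (FF G 0 lam m) A x y) (hxA : x ∈ A) (hyA : y ∉ A)
    (htri : ∀ u v w, G.Adj u v → G.Adj v w → ¬ G.Adj u w)
    (hsq : ∀ u v, u ≠ v → (G.neighborFinset u ∩ G.neighborFinset v).card ≤ 1) :
    ∃ B : Finset V, B.card ≤ A.card + d ∧ A.card ≤ B.card + d ∧ SatI G 0 B ∧ SatI G 0 Bᶜ := by
  have hF : PassF G 0 1 (FF G 0 lam m) :=
    pf hl (by exact_mod_cast hl1) (fun A v => ⟨Dt G 0 A v, by ring⟩)
  have hodd : ∀ (X : Finset V) v, Odd (Dv G X v) := by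
    intro X v
    obtain ⟨k, hk⟩ := hd
    have h0 := hreg v
    by_cases hv : v ∈ X
    · have h1 := deg_mem G hv
      refine ⟨nin G v X - k - 1, ?_⟩
      rw [h0, hk] at h1
      push_cast at h1
      omega
    · have h1 := deg_notMem G hv
      refine ⟨nin G v Xᶜ - k - 1, ?_⟩
      rw [h0, hk] at h1
      push_cast at h1
      omega
  -- the local structure
  have hloc : ∀ u v, u ∈ A → v ∉ A → FF G 0 lam m (fl A u) < FF G 0 lam m A →
      FF G 0 lam m (fl A v) < FF G 0 lam m A → Dv G A u = -1 ∧ Dv G A v = -1 ∧ G.Adj u v := by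
    intro u v hu hv fu fv
    have h1 := loc hF hc fu (by simp [hu, hxA]) fv (by simp [hv, hyA])
    have h2 := dt_le hF fu
    have h3 := dt_le hF fv
    rw [md_Dt] at h1 h2 h3
    rw [md_Dt] at h1
    obtain ⟨i, hi⟩ := hodd A u
    obtain ⟨j, hj⟩ := hodd A v
    have h4 := md_ad_le (G := G) u v
    refine ⟨by omega, by omega, ?_⟩
    by_contra hne
    rw [md_ad0 hne] at h1
    omega
  obtain ⟨hx1, hy1, hxy⟩ := hloc x y hxA hyA hc.lx hc.ly
  have hdown : ∀ v, Dv G A v < 0 → FF G 0 lam m (fl A v) < FF G 0 lam m A := by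
    intro v hv
    exact down hF (by rw [md_Dt]; exact hv)
  have hX : ∀ u ∈ A, Dv G A u < 0 → Dv G A u = -1 ∧ G.Adj u y := by
    intro u hu hu0
    obtain ⟨h1, -, h2⟩ := hloc u y hu hyA (hdown u hu0) hc.ly
    exact ⟨h1, h2⟩
  have hY : ∀ v, v ∉ A → Dv G A v < 0 → Dv G A v = -1 ∧ G.Adj v x := by
    intro v hv hv0
    obtain ⟨-, h1, h2⟩ := hloc x v hxA hv hc.lx (hdown v hv0)
    exact ⟨h1, h2.symm⟩
  -- the side of `x`
  rcases md_side (hodd A) hxA hyA (by omega) hX hY htri hsq with hB | ⟨w, hwA, u, huA, hu1, hw1, hwu⟩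
  · refine ⟨A \ A.filter (fun u => Dv G A u < 0), ?_, ?_, (md_sat hB).1, (md_sat hB).2⟩
    · exact le_trans (card_le_card sdiff_subset) (Nat.le_add_right _ _)
    · have h1 : (A.filter fun u => Dv G A u < 0).card ≤ d := by
        rw [← hreg y, ← SimpleGraph.card_neighborFinset_eq_degree]
        refine card_le_card ?_
        intro z hz
        rw [mem_filter] at hz
        rw [SimpleGraph.mem_neighborFinset]
        exact ((hX z hz.1 hz.2).2).symm
      have h2 := card_sdiff_add_card_eq_card (filter_subset (fun u => Dv G A u < 0) A)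
      omega
  -- the side of `y`
  have hodd' : ∀ v, Odd (Dv G Aᶜ v) := hodd Aᶜ
  have hY' : ∀ u ∈ Aᶜ, Dv G Aᶜ u < 0 → Dv G Aᶜ u = -1 ∧ G.Adj u x := by
    intro u hu hu0
    rw [md_compl] at hu0 ⊢
    exact hY u (by simpa using hu) hu0
  have hX' : ∀ v, v ∉ Aᶜ → Dv G Aᶜ v < 0 → Dv G Aᶜ v = -1 ∧ G.Adj v y := by
    intro v hv hv0
    rw [md_compl] at hv0 ⊢
    exact hX v (by simpa using hv) hv0
  rcases md_side hodd' (x := y) (y := x) (by simpa using hyA) (by simpa using hxA)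
    (by rw [md_compl]; omega) hY' hX' htri hsq with hB | ⟨w', hwA', v, hvA, hv1, hw1', hwv⟩
  · have h4 := md_sat hB
    refine ⟨(Aᶜ \ (Aᶜ).filter (fun u => Dv G Aᶜ u < 0))ᶜ, ?_, ?_, h4.2, ?_⟩
    · have h1 : ((Aᶜ).filter fun u => Dv G Aᶜ u < 0).card ≤ d := by
        rw [← hreg x, ← SimpleGraph.card_neighborFinset_eq_degree]
        refine card_le_card ?_
        intro z hz
        rw [mem_filter] at hz
        rw [SimpleGraph.mem_neighborFinset]
        exact ((hY' z hz.1 hz.2).2).symm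
      have h2 : (Aᶜ \ (Aᶜ).filter (fun u => Dv G Aᶜ u < 0))ᶜ
          ⊆ A ∪ ((Aᶜ).filter fun u => Dv G Aᶜ u < 0) := by
        intro z hz
        rw [mem_compl, mem_sdiff] at hz
        rw [mem_union]
        by_cases hzA : z ∈ A
        · exact Or.inl hzA
        · right
          by_contra h3
          exact hz ⟨by simpa using hzA, h3⟩
      have h3 := le_trans (card_le_card h2) (card_union_le _ _)
      omega
    · refine le_trans (card_le_card ?_) (Nat.le_add_right _ _)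
      intro z hz
      rw [mem_compl, mem_sdiff]
      intro h5
      exact (mem_compl.1 h5.1) hz
    · rw [compl_compl]
      exact h4.1
  -- both sides bad: a connection below the level of `A`
  exfalso
  rw [md_compl] at hv1 hw1'
  have hvA' : v ∉ A := by simpa using hvA
  have hwA'' : w' ∉ A := by simpa using hwA'
  have fu := hdown u (by omega)
  have fv := hdown v (by omega)
  obtain ⟨-, -, huv⟩ := hloc u v huA hvA' fu fv
  have n1 : ¬ G.Adj w v := htri w u v hwu huv
  have n2 : ¬ G.Adj w' u := htri w' v u hwv huv.symm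
  have n3 : ¬ G.Adj w w' := by
    intro h
    have hwv' : w ≠ v := by
      rintro rfl
      exact hvA' hwA
    have h1 := hsq w v hwv'
    have h2 : ({u, w'} : Finset V) ⊆ G.neighborFinset w ∩ G.neighborFinset v := by
      intro z hz
      rw [mem_insert, mem_singleton] at hz
      rw [mem_inter, SimpleGraph.mem_neighborFinset, SimpleGraph.mem_neighborFinset]
      rcases hz with rfl | rfl
      · exact ⟨hwu, huv.symm⟩
      · exact ⟨h, hwv.symm⟩
    have h3 : u ≠ w' := by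
      rintro rfl
      exact hwA'' huA
    have h4 := card_le_card h2
    rw [card_pair h3] at h4
    omega
  have s3 : ¬ (u ∈ A ↔ v ∈ A) := by simp [huA, hvA']
  have p1 := md_half (m := m) hl hl1 hu1 hv1 hw1 hw1' hwu hwv huv n1 n2 n3 (by simp [huA, hwA])
    (by simp [hvA', hwA'']) s3
  have p2 := md_half (m := m) hl hl1 hv1 hu1 hw1' hw1 hwv hwu huv.symm n2 n1 (fun h => n3 h.symm)
    (by simp [hvA', hwA'']) (by simp [huA, hwA]) (fun h => s3 h.symm)
  have he : fl (fl (fl (fl A u) w) v) w' = fl (fl (fl (fl A v) w') u) w := by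
    rw [fl_comm (fl A u) w v, fl_comm A u v, fl_comm (fl (fl A v) u) w w', fl_comm (fl A v) u w']
  rw [he] at p1
  have q1 := md_same hF hc.lx fu (by simp [hxA, huA])
  have q2 := md_same hF fv hc.ly (by simp [hvA', hyA])
  exact hc.nc (Relation.EqvGen.trans _ _ _ q1 (Relation.EqvGen.trans _ _ _ p1
    (Relation.EqvGen.trans _ _ _ (Relation.EqvGen.symm _ _ p2) q2)))

theorem mainD {d : ℕ} (hreg : G.IsRegularOfDegree d) (hd : Odd d) {lam : ℝ} (hl : 0 < lam) (hl1 : lam < 1)
    {m : ℕ} {A : Finset V} {x y : V} (hc : Crit (FF G 0 lam m) A x y)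
    (htri : ∀ u v w, G.Adj u v → G.Adj v w → ¬ G.Adj u w)
    (hsq : ∀ u v, u ≠ v → (G.neighborFinset u ∩ G.neighborFinset v).card ≤ 1) :
    ∃ B : Finset V, B.card ≤ A.card + d ∧ A.card ≤ B.card + d ∧ SatI G 0 B ∧ SatI G 0 Bᶜ := by
  have hF : PassF G 0 1 (FF G 0 lam m) :=
    pf hl (by exact_mod_cast hl1) (fun A v => ⟨Dt G 0 A v, by ring⟩)
  have hop := crit_opp hF hc
  by_cases hx : x ∈ A
  · have hy : y ∉ A := fun h => hop (by simp [hx, h])
    exact md_core hreg hd hl hl1 hc hx hy htri hsq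
  · have hy : y ∈ A := by
      by_contra h
      exact hop (by simp [hx, h])
    exact md_core hreg hd hl hl1 (crit_symm hc) hy hx htri hsq

end Pool.Agent.H49.MT
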