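import Pool.Agent.H49.MT.Ex
import Pool.Agent.H49.MT.Size
import Pool.Agent.H49.MT.Lat
import Pool.Agent.H49.MT.MainD

/-!
# Module FinC: part (3) of the theorem

`h = 0`, `η = 1`, `lam = 3/4`, `m = n/2`, `n ≥ 50 (d+1)²`. `ex_pass`, `mainD`; as in `FinA` `n ≤ 3 (d+1) |A|`, `n ≤ 3 (d+1) |Aᶜ|`; so `|A|, |Aᶜ| ≥ n/(3(d+1)) ≥ 16 (d+1)`, and
`|B| ≥ |A| - d ≥ (3/4) |A|`, `|Bᶜ| ≥ |Aᶜ| - d ≥ (3/4) |Aᶜ|`. `SatI G 0 B`: `degree v ≤ 2 nin`; `d` odd: `(d+1)/2 ≤ nin`.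
-/

set_option autoImplicit false

open Finset

namespace Pool.Agent.H49.MT

open Pool.Agent.H49.FR

variable {V : Type} [Fintype V] [DecidableEq V] {G : SimpleGraph V} [DecidableRel G.Adj]

theorem finC {d : ℕ} (hreg : G.IsRegularOfDegree d) (hd : Odd d) (hn : 50 * (d + 1) ^ 2 ≤ Fintype.card V)
    (htri : ∀ u v w, G.Adj u v → G.Adj v w → ¬ G.Adj u w)
    (hsq : ∀ u v, u ≠ v → (G.neighborFinset u ∩ G.neighborFinset v).card ≤ 1) :
    ∃ A : Finset V, Fintype.card V ≤ 4 * (d + 1) * A.card ∧ Fintype.card V ≤ 4 * (d + 1) * (Aᶜ).card ∧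
      (∀ v ∈ A, (d + 1) / 2 ≤ (G.neighborFinset v ∩ A).card) ∧
      ∀ v ∉ A, (d + 1) / 2 ≤ (G.neighborFinset v ∩ Aᶜ).card := by
  set n := Fintype.card V with hndef
  have hn50 : 50 ≤ n := by
    have h1 : 1 ≤ (d + 1) ^ 2 := Nat.one_le_pow _ _ (Nat.succ_pos d)
    omega
  have hdeg : ∀ v, G.degree v ≤ d := fun v => le_of_eq (hreg.degree_eq v)
  have hmn : 2 * (n / 2) ≤ n := by omega
  have hm1 : n ≤ 2 * (n / 2) + 1 := by omega
  have hmR : (2 : ℝ) * ((n / 2 : ℕ) : ℝ) ≤ n := by exact_mod_cast hmn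
  have hnR : (50 : ℝ) ≤ n := by exact_mod_cast hn50
  obtain ⟨A, x, y, hA, hc⟩ := ex_pass (G := G) (h := 0) (η := 1) (lam := 3 / 4) (m := n / 2)
    le_rfl (by norm_num) (by norm_num) (lat_one 0) (by omega) (by omega)
    (by push_cast; nlinarith)
  obtain ⟨B, hB1, hB2, hB3, hB4⟩ := mainD hreg hd (by norm_num) (by norm_num) hc htri hsq
  have hs1 := size_mem G hdeg le_rfl (by norm_num) hA
  have hs2 := size_compl G hdeg le_rfl (by norm_num) (by omega) hA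
  have ha : 3 * (n / 2) ≤ (4 * d + 3) * A.card := by
    have h1 : (3 : ℝ) * ((n / 2 : ℕ) : ℝ) ≤ (4 * d + 3) * A.card := by
      push_cast at hs1 ⊢
      nlinarith
    exact_mod_cast h1
  have hcc : 6 * n ≤ 6 * (n / 2) + 3 + (8 * d + 6) * (Aᶜ).card := by
    have h1 : (6 : ℝ) * n ≤ 6 * ((n / 2 : ℕ) : ℝ) + 3 + (8 * d + 6) * (Aᶜ).card := by
      push_cast at hs2 ⊢
      nlinarith
    exact_mod_cast h1
  have hcA : (Aᶜ).card + A.card = n := by
    rw [Finset.card_compl]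
    exact Nat.sub_add_cancel (Finset.card_le_univ A)
  have hcB : (Bᶜ).card + B.card = n := by
    rw [Finset.card_compl]
    exact Nat.sub_add_cancel (Finset.card_le_univ B)
  have key : ∀ a b : ℕ, 3 * n ≤ (8 * d + 6) * a + 3 → a ≤ b + d → n ≤ 4 * (d + 1) * b := by
    intro a b h1 h2
    have ha0 : 0 < a := by
      rcases Nat.eq_zero_or_pos a with h0 | h0
      · subst h0
        omega
      · exact h0
    have h3 : n ≤ 3 * (d + 1) * a := by nlinarith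
    have h4 : 50 * (d + 1) ≤ 3 * a := by
      have h5 : (50 * (d + 1)) * (d + 1) ≤ (3 * a) * (d + 1) := by nlinarith
      exact Nat.le_of_mul_le_mul_right h5 (Nat.succ_pos d)
    have h6 : 3 * a ≤ 4 * b := by omega
    nlinarith
  refine ⟨B, key A.card B.card (by nlinarith) hB2, key (Aᶜ).card (Bᶜ).card (by nlinarith) (by omega), ?_, ?_⟩
  · intro v hv
    have h1 := hB3 v hv
    rw [hreg.degree_eq v] at h1
    have h2 : nin G v B = (G.neighborFinset v ∩ B).card := rfl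
    rw [← h2]
    obtain ⟨k, hk⟩ := hd
    omega
  · intro v hv
    have h1 := hB4 v (Finset.mem_compl.2 hv)
    rw [hreg.degree_eq v] at h1
    have h2 : nin G v Bᶜ = (G.neighborFinset v ∩ Bᶜ).card := rfl
    rw [← h2]
    obtain ⟨k, hk⟩ := hd
    omega

end Pool.Agent.H49.MT
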