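import Pool.Agent.H49.MT.Ex
import Pool.Agent.H49.MT.Size
import Pool.Agent.H49.MT.Lat
import Pool.Agent.H49.MT.EvenX
import Pool.Agent.H49.MT.EvenD

/-!
# Module FinE: even degrees, exact partitions

`h = 0`, `η = 2`, `lam = 3/2`, `m = n/2`, `n ≥ 50 (d+1)²`: `ex_pass`, `pf`, `lat_two`; `size_mem`, `size_compl`: `n ≤ 3 (d+1) |A|`, `n ≤ 3 (d+1) |Aᶜ|` (see `FinB`). `even_str`: all `Dv ≥ 0`: `A` itself;
`Str G A`: `even_x` or `even_d` give `B ⊆ A`, `|A| ≤ |B| + p`, `Bᶜ ⊇ Aᶜ`; `Str G Aᶜ`: `B ⊆ Aᶜ`, the partition is `(B, Bᶜ)` again. `12 (d+1) p ≤ n`, so `|B| ≥ |A| - p ≥ n/(3(d+1)) - n/(12(d+1))`.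
For `even_d`: `p = 2`, `24 (d+1) ≤ 50 (d+1)²`. `SatI G 0 B`: `degree v ≤ 2 nin`, `degree v = d`.
-/

set_option autoImplicit false

open Finset

namespace Pool.Agent.H49.MT

open Pool.Agent.H49.FR

variable {V : Type} [Fintype V] [DecidableEq V] {G : SimpleGraph V} [DecidableRel G.Adj]

private theorem fe_pass {d : ℕ} (hreg : G.IsRegularOfDegree d) (hd : Even d)
    (hn : 50 * (d + 1) ^ 2 ≤ Fintype.card V) :
    ∃ (F : Finset V → ℝ) (A : Finset V) (x y : V), PassF G 0 2 F ∧ Crit F A x y ∧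
      Fintype.card V ≤ 3 * (d + 1) * A.card ∧ Fintype.card V ≤ 3 * (d + 1) * (Aᶜ).card := by
  have hn50 : 50 ≤ Fintype.card V :=
    le_trans (Nat.mul_le_mul_left 50 (Nat.one_le_pow 2 (d + 1) (Nat.succ_pos d))) hn
  have hdeg : ∀ v, G.degree v ≤ d := fun v => (hreg v).le
  set n := Fintype.card V with hnd
  have hnR : (50 : ℝ) ≤ n := by exact_mod_cast hn50
  obtain ⟨c, hc⟩ := hd
  have hlat := lat_two (h := 0) hreg ⟨(c : ℤ), by rw [hc]; push_cast; ring⟩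
  have hm2 : 2 * (n / 2) ≤ n := by omega
  have hm3 : n ≤ 2 * (n / 2) + 1 := by omega
  have hm2R : 2 * ((n / 2 : ℕ) : ℝ) ≤ n := by exact_mod_cast hm2
  have hm3R : (n : ℝ) ≤ 2 * ((n / 2 : ℕ) : ℝ) + 1 := by exact_mod_cast hm3
  obtain ⟨A, x, y, hA, hcr⟩ := ex_pass (G := G) (h := 0) (η := 2) (lam := 3 / 2) (m := n / 2)
    le_rfl (by norm_num) (by norm_num) hlat (by omega) (by omega)
    (by push_cast; rw [← hnd]; linarith)
  have h1 := size_mem G hdeg (h := 0) le_rfl (by norm_num : (0 : ℝ) < 3 / 2) hA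
  have h2 := size_compl G hdeg (h := 0) le_rfl (by norm_num : ((0 : ℤ) : ℝ) < 3 / 2)
    (by omega) hA
  rw [← hnd] at h2
  push_cast at h1 h2
  have hA0 : (0 : ℝ) ≤ A.card := Nat.cast_nonneg _
  have hA0' : (0 : ℝ) ≤ (Aᶜ).card := Nat.cast_nonneg _
  have hd0 : (0 : ℝ) ≤ d := Nat.cast_nonneg _
  have hdA : 0 ≤ (d : ℝ) * A.card := mul_nonneg hd0 hA0
  have hdA' : 0 ≤ (d : ℝ) * (Aᶜ).card := mul_nonneg hd0 hA0'
  refine ⟨FF G 0 (3 / 2) (n / 2), A, x, y, pf (by norm_num) (by norm_num) hlat, hcr, ?_, ?_⟩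
  · have : (n : ℝ) ≤ 3 * (d + 1) * A.card := by linarith
    exact_mod_cast this
  · have : (n : ℝ) ≤ 3 * (d + 1) * (Aᶜ).card := by linarith
    exact_mod_cast this

private theorem fe_mul {n D k k' : ℕ} (h : n ≤ 3 * D * k) (hk : 3 * k ≤ 4 * k') : n ≤ 4 * D * k' := by
  calc n ≤ 3 * D * k := h
    _ = D * (3 * k) := by ring
    _ ≤ D * (4 * k') := Nat.mul_le_mul_left _ hk
    _ = 4 * D * k' := by ring

private theorem fe_str {d : ℕ} (hreg : G.IsRegularOfDegree d) (hd : Even d)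
    (hn : 50 * (d + 1) ^ 2 ≤ Fintype.card V)
    (hs : (∀ u v, G.Adj u v → (G.neighborFinset u ∩ G.neighborFinset v).card ≤ 1) ∨
      ∃ p : ℕ, 0 < p ∧ 12 * (d + 1) * p ≤ Fintype.card V ∧
        ∀ P : Finset V, P.card = p → ∑ v ∈ P, (G.neighborFinset v ∩ P).card + d + 4 < 4 * p)
    {A : Finset V} (hA : Str G A) (h1 : Fintype.card V ≤ 3 * (d + 1) * A.card)
    (h2 : Fintype.card V ≤ 3 * (d + 1) * (Aᶜ).card) :
    ∃ A : Finset V, Fintype.card V ≤ 4 * (d + 1) * A.card ∧ Fintype.card V ≤ 4 * (d + 1) * (Aᶜ).card ∧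
      (∀ v ∈ A, d ≤ 2 * (G.neighborFinset v ∩ A).card) ∧
      ∀ v ∉ A, d ≤ 2 * (G.neighborFinset v ∩ Aᶜ).card := by
  have key : ∃ B ⊆ A, 3 * A.card ≤ 4 * B.card ∧ SatI G 0 B ∧ SatI G 0 Bᶜ := by
    rcases hs with hs | ⟨p, hp, hpn, hs⟩
    · obtain ⟨B, hB, hc, h3, h4⟩ := even_d hreg hd hA hs
      refine ⟨B, hB, ?_, h3, h4⟩
      have g1 : (d + 1) * (50 * (d + 1)) ≤ (d + 1) * (3 * A.card) := by
        calc (d + 1) * (50 * (d + 1)) = 50 * (d + 1) ^ 2 := by ring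
          _ ≤ Fintype.card V := hn
          _ ≤ 3 * (d + 1) * A.card := h1
          _ = (d + 1) * (3 * A.card) := by ring
      have g2 : 50 * (d + 1) ≤ 3 * A.card := Nat.le_of_mul_le_mul_left g1 (Nat.succ_pos d)
      omega
    · obtain ⟨B, hB, hc, h3, h4⟩ := even_x hreg hd hA hp (fun P hP => hs P hP)
      refine ⟨B, hB, ?_, h3, h4⟩
      have g1 : (d + 1) * (12 * p) ≤ (d + 1) * (3 * A.card) := by
        calc (d + 1) * (12 * p) = 12 * (d + 1) * p := by ring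
          _ ≤ Fintype.card V := hpn
          _ ≤ 3 * (d + 1) * A.card := h1
          _ = (d + 1) * (3 * A.card) := by ring
      have g2 : 12 * p ≤ 3 * A.card := Nat.le_of_mul_le_mul_left g1 (Nat.succ_pos d)
      omega
  obtain ⟨B, hB, hc, h3, h4⟩ := key
  refine ⟨B, fe_mul h1 hc, fe_mul h2 ?_, fun v hv => ?_, fun v hv => ?_⟩
  · have h5 : (Aᶜ).card ≤ (Bᶜ).card := card_le_card (compl_subset_compl.2 hB)
    omega
  · have h5 := h3 v hv
    rw [hreg v] at h5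
    unfold nin at h5
    omega
  · have h5 := h4 v (mem_compl.2 hv)
    rw [hreg v] at h5
    unfold nin at h5
    omega

theorem finE {d : ℕ} (hreg : G.IsRegularOfDegree d) (hd : Even d) (hn : 50 * (d + 1) ^ 2 ≤ Fintype.card V)
    (hs : (∀ u v, G.Adj u v → (G.neighborFinset u ∩ G.neighborFinset v).card ≤ 1) ∨
      ∃ p : ℕ, 0 < p ∧ 12 * (d + 1) * p ≤ Fintype.card V ∧
        ∀ P : Finset V, P.card = p → ∑ v ∈ P, (G.neighborFinset v ∩ P).card + d + 4 < 4 * p) :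
    ∃ A : Finset V, Fintype.card V ≤ 4 * (d + 1) * A.card ∧ Fintype.card V ≤ 4 * (d + 1) * (Aᶜ).card ∧
      (∀ v ∈ A, d ≤ 2 * (G.neighborFinset v ∩ A).card) ∧
      ∀ v ∉ A, d ≤ 2 * (G.neighborFinset v ∩ Aᶜ).card := by
  obtain ⟨F, A, x, y, hF, hc, h1, h2⟩ := fe_pass hreg hd hn
  rcases even_str hF hc with h | h | h
  · refine ⟨A, fe_mul h1 (by omega), fe_mul h2 (by omega), fun v hv => ?_, fun v hv => ?_⟩
    · have h5 := h v
      have h6 := nin_add G v A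
      rw [hreg v] at h6
      unfold Dv at h5
      rw [if_pos hv] at h5
      unfold nin at h5 h6
      omega
    · have h5 := h v
      have h6 := nin_add G v A
      rw [hreg v] at h6
      unfold Dv at h5
      rw [if_neg hv] at h5
      unfold nin at h5 h6
      omega
  · exact fe_str hreg hd hn hs h h1 h2
  · exact fe_str hreg hd hn hs h h2 (by rw [compl_compl]; exact h1)

end Pool.Agent.H49.MT
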