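import Pool.Agent.H49.MT.Ex
import Pool.Agent.H49.MT.Size
import Pool.Agent.H49.MT.Cross

/-!
# Module FinF: odd degrees, sparse graphs: an exact partition

`h = 0`, `η = 1`, `lam = eps`, `m₀ = n/2` (natural division). `ex_pass` (`eps/2 < eps (n - m₀)`), `odd_str`, `pf`, `lat_one`. Sizes: `size_mem`: `eps m₀ ≤ (d + eps) |A|`, `m₀ ≥ (n-1)/2`, `size_compl`:
`eps (n - m₀) - eps/2 ≤ (d + eps) |Aᶜ|`: both give `eps (n-1)/2 ≤ (d+1) |A|`, `≤ (d+1) |Aᶜ|`, so `eps n ≤ 3 (d+1) |A|` (`n ≥ 3`).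
`ch_or_stop` for `A` and for `Aᶜ`, `X₀ = ∅`: two chains of length `m`: `cross`. A stopping set `Y ⊆ A`, `|Y| < m`: `Y` is not empty (`exA`: some `u ∈ A` has `Dv < 0`; if `u ∉ Y` and `Y = ∅` then
`0 ≤ Dv G A u`). `B = A \ Y`: `w ∈ B`: `Dv G B w ≥ 0`; `v ∈ Y`: `> 0`; `v ∉ A`: `Dv G B v = Dv G A v + 2 nin v Y` (`dv_sdiff_notMem`): if `Dv G A v < 0` then `Dv G A v = -1` (`low`) and `v` is adjacent
to some vertex of `Y`: `Y` contains a vertex `u` with `Dv G A u < 0` (otherwise `u ∈ A`, `Dv G A u < 0`, `u ∉ Y` has `Dv G B u = Dv G A u - 2 nin u Y < 0`, contradiction), `join`. So `B` is internal;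
`|B| ≥ |A| - m`, `|Bᶜ| ≥ |Aᶜ|`, `12 (d+1) m ≤ eps n`. In the same way for a stopping set of `Aᶜ` (`Dv G Aᶜ = Dv G A`; the partition is `B = Aᶜ \ Y`). `Dv ≥ 0`, odd degree: `(d+1)/2 ≤ nin`.
-/

set_option autoImplicit false

open Finset

namespace Pool.Agent.H49.MT

open Pool.Agent.H49.FR

variable {V : Type} [Fintype V] [DecidableEq V] {G : SimpleGraph V} [DecidableRel G.Adj]

private lemma dv_compl (A : Finset V) (v : V) : Dv G Aᶜ v = Dv G A v := by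
  unfold Dv
  rw [compl_compl]
  by_cases hv : v ∈ A
  · have h1 : v ∉ Aᶜ := fun h => (Finset.mem_compl.1 h) hv
    rw [if_pos hv, if_neg h1]
  · have h1 : v ∈ Aᶜ := Finset.mem_compl.2 hv
    rw [if_neg hv, if_pos h1]

private lemma stop_dv {A Y : Finset V} (exA : ∃ u ∈ A, Dv G A u < 0) (low : ∀ v, -1 ≤ Dv G A v)
    (join : ∀ u ∈ A, Dv G A u < 0 → ∀ v ∉ A, Dv G A v < 0 → G.Adj u v) (hY : Y ⊆ A)
    (h1 : ∀ w ∈ A, w ∉ Y → 0 ≤ Dv G (A \ Y) w) (h2 : ∀ v ∈ Y, 0 < Dv G (A \ Y) v) (v : V) :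
    0 ≤ Dv G (A \ Y) v := by
  by_cases hv : v ∈ A
  · by_cases hvY : v ∈ Y
    · exact (h2 v hvY).le
    · exact h1 v hv hvY
  · rw [dv_sdiff_notMem hY hv]
    rcases lt_or_ge (Dv G A v) 0 with h3 | h3
    · obtain ⟨u, hu, hu0⟩ := exA
      have huY : u ∈ Y := by
        by_contra hc
        have h4 := h1 u hu hc
        rw [dv_sdiff hY hu hc] at h4
        have h5 : (0 : ℤ) ≤ nin G u Y := Int.natCast_nonneg _
        linarith
      have h6 : u ∈ G.neighborFinset v ∩ Y := by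
        rw [Finset.mem_inter, SimpleGraph.mem_neighborFinset]
        exact ⟨(join u hu hu0 v hv h3).symm, huY⟩
      have h7 : 0 < nin G v Y := Finset.card_pos.2 ⟨u, h6⟩
      have h8 := low v
      have h9 : (1 : ℤ) ≤ nin G v Y := by exact_mod_cast h7
      linarith
    · have h5 : (0 : ℤ) ≤ nin G v Y := Int.natCast_nonneg _
      linarith

private lemma fin_of {d : ℕ} (hreg : G.IsRegularOfDegree d) {eps : ℝ} {m : ℕ}
    (hn : 12 * ((d : ℝ) + 1) * m ≤ eps * Fintype.card V) {A Y : Finset V} (hYA : Y ⊆ A)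
    (hYm : Y.card < m) (hA1 : eps * Fintype.card V ≤ 3 * ((d : ℝ) + 1) * A.card)
    (hA2 : eps * Fintype.card V ≤ 3 * ((d : ℝ) + 1) * (Aᶜ).card)
    (hdv : ∀ v, 0 ≤ Dv G (A \ Y) v) :
    ∃ A : Finset V, eps * Fintype.card V ≤ 4 * ((d : ℝ) + 1) * A.card ∧
      eps * Fintype.card V ≤ 4 * ((d : ℝ) + 1) * (Aᶜ).card ∧
      (∀ v ∈ A, d ≤ 2 * (G.neighborFinset v ∩ A).card) ∧
      ∀ v ∉ A, d ≤ 2 * (G.neighborFinset v ∩ Aᶜ).card := by
  have hd0 : (0 : ℝ) ≤ d := Nat.cast_nonneg d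
  refine ⟨A \ Y, ?_, ?_, ?_, ?_⟩
  · have h1 : (A \ Y).card + Y.card = A.card := Finset.card_sdiff_add_card_eq_card hYA
    have h2 : ((A \ Y).card : ℝ) + Y.card = A.card := by exact_mod_cast h1
    have h3 : (Y.card : ℝ) ≤ m := by exact_mod_cast hYm.le
    nlinarith
  · have h1 : (Aᶜ).card ≤ ((A \ Y)ᶜ).card :=
      Finset.card_le_card (Finset.compl_subset_compl.2 Finset.sdiff_subset)
    have h2 : ((Aᶜ).card : ℝ) ≤ ((A \ Y)ᶜ).card := by exact_mod_cast h1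
    have h3 : (0 : ℝ) ≤ (Aᶜ).card := Nat.cast_nonneg _
    nlinarith
  · intro v hv
    have h1 := deg_mem G hv
    rw [hreg.degree_eq v] at h1
    have h2 := hdv v
    have h3 : nin G v (A \ Y) = (G.neighborFinset v ∩ (A \ Y)).card := rfl
    rw [← h3]
    omega
  · intro v hv
    have h1 := deg_notMem G hv
    rw [hreg.degree_eq v] at h1
    have h2 := hdv v
    have h3 : nin G v (A \ Y)ᶜ = (G.neighborFinset v ∩ (A \ Y)ᶜ).card := rfl
    rw [← h3]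
    omega

theorem finF {d : ℕ} (hreg : G.IsRegularOfDegree d) (hd : Odd d) {eps : ℝ} (he : 0 < eps) (he1 : eps < 1)
    {m : ℕ} (hm : 3 * ((d : ℝ) + 1) ≤ eps * m) (hn : 12 * ((d : ℝ) + 1) * m ≤ eps * Fintype.card V)
    (hs : ∀ P : Finset V, m ≤ P.card → P.card ≤ 2 * m →
      ((∑ v ∈ P, (G.neighborFinset v ∩ P).card : ℕ) : ℝ) ≤ (3 - 2 * eps) * P.card) :
    ∃ A : Finset V, eps * Fintype.card V ≤ 4 * ((d : ℝ) + 1) * A.card ∧
      eps * Fintype.card V ≤ 4 * ((d : ℝ) + 1) * (Aᶜ).card ∧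
      (∀ v ∈ A, d ≤ 2 * (G.neighborFinset v ∩ A).card) ∧
      ∀ v ∉ A, d ≤ 2 * (G.neighborFinset v ∩ Aᶜ).card := by
  have hd0 : (0 : ℝ) ≤ d := Nat.cast_nonneg d
  have hm3 : (3 : ℝ) ≤ m := by
    have h1 : (0 : ℝ) ≤ m := Nat.cast_nonneg m
    nlinarith
  have hnR : (36 : ℝ) ≤ Fintype.card V := by
    have h1 : (0 : ℝ) ≤ Fintype.card V := Nat.cast_nonneg _
    nlinarith
  have hnN : 36 ≤ Fintype.card V := by exact_mod_cast hnR
  set n := Fintype.card V with hndef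
  have hmn : 2 * (n / 2) ≤ n := by omega
  have hm1 : n ≤ 2 * (n / 2) + 1 := by omega
  have hmR : (2 : ℝ) * ((n / 2 : ℕ) : ℝ) ≤ n := by exact_mod_cast hmn
  have hmR1 : (n : ℝ) ≤ 2 * ((n / 2 : ℕ) : ℝ) + 1 := by exact_mod_cast hm1
  have hepsZ : eps < ((1 : ℤ) : ℝ) := by simpa using he1
  obtain ⟨A, x, y, hA, hc⟩ := ex_pass (G := G) (h := 0) (η := 1) (lam := eps) (m := n / 2)
    le_rfl he hepsZ (lat_one 0) (by omega) (by omega)
    (by push_cast; nlinarith)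
  have hStr : StrO G (FF G 0 eps (n / 2)) A := odd_str hreg hd (pf he hepsZ (lat_one 0)) hc
  have hdeg : ∀ v, G.degree v ≤ d := fun v => le_of_eq (hreg.degree_eq v)
  have hs1 := size_mem G hdeg le_rfl he hA
  have hs2 := size_compl G hdeg le_rfl (by simpa using he) (by omega) hA
  have hA1 : eps * n ≤ 3 * ((d : ℝ) + 1) * A.card := by
    have h1 : (0 : ℝ) ≤ A.card := Nat.cast_nonneg _
    have h2 : eps * ((n / 2 : ℕ) : ℝ) ≤ (d + 1) * A.card := by
      push_cast at hs1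
      nlinarith
    nlinarith
  have hA2 : eps * n ≤ 3 * ((d : ℝ) + 1) * (Aᶜ).card := by
    have h1 : (0 : ℝ) ≤ (Aᶜ).card := Nat.cast_nonneg _
    have h2 : eps * ((n : ℝ) - ((n / 2 : ℕ) : ℝ)) - eps / 2 ≤ (d + 1) * (Aᶜ).card := by
      push_cast at hs2
      nlinarith
    nlinarith
  rcases ch_or_stop (G := G) A ∅ (Finset.empty_subset _) m with ⟨X, hX⟩ | ⟨Y, -, hY1, hY2, hY3, hY4⟩
  · rcases ch_or_stop (G := G) Aᶜ ∅ (Finset.empty_subset _) m with ⟨Y, hY⟩ | ⟨Y, -, hY1, hY2, hY3, hY4⟩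
    · exact (cross hreg hd he he1 hStr hm hs hX hY).elim
    · have hYm : Y.card < m := by simpa using hY2
      have hdv := stop_dv (G := G) (A := Aᶜ) (Y := Y)
        (by
          obtain ⟨u, hu, hu0⟩ := hStr.exB
          exact ⟨u, Finset.mem_compl.2 hu, by rw [dv_compl]; exact hu0⟩)
        (fun v => by rw [dv_compl]; exact hStr.low v)
        (by
          intro u hu hu0 v hv hv0
          rw [dv_compl] at hu0 hv0
          exact (hStr.join v (by simpa using hv) hv0 u (Finset.mem_compl.1 hu) hu0).symm)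
        hY1 hY3 (fun v hv => hY4 v hv (Finset.notMem_empty v))
      exact fin_of hreg hn hY1 hYm hA2 (by rw [compl_compl]; exact hA1) hdv
  · have hYm : Y.card < m := by simpa using hY2
    have hdv := stop_dv (G := G) hStr.exA hStr.low hStr.join hY1 hY3
      (fun v hv => hY4 v hv (Finset.notMem_empty v))
    exact fin_of hreg hn hY1 hYm hA1 hA2 hdv

end Pool.Agent.H49.MT
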