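import Pool.Agent.H49.MT.Defs

/-!
# Module Fl: moves

Elementary: unfold `fl`, cases `v ∈ A`, `w ∈ A`, `w = v`; `Finset.ext`; `card_insert_of_notMem`, `card_erase_of_mem`.
-/

set_option autoImplicit false

open Finset

namespace Pool.Agent.H49.MT

variable {V : Type} [Fintype V] [DecidableEq V]

lemma mem_fl (A : Finset V) (v w : V) : w ∈ fl A v ↔ (if w = v then v ∉ A else w ∈ A) := by
  unfold fl
  by_cases hv : v ∈ A
  · by_cases hw : w = v
    · subst hw
      simp [hv]
    · simp [hv, hw]
  · by_cases hw : w = v
    · subst hw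
      simp [hv]
    · simp [hv, hw]

lemma fl_fl (A : Finset V) (v : V) : fl (fl A v) v = A := by
  ext w
  rw [mem_fl]
  by_cases hw : w = v
  · subst hw
    rw [if_pos rfl, mem_fl, if_pos rfl, not_not]
  · rw [if_neg hw, mem_fl, if_neg hw]

lemma fl_comm (A : Finset V) (u v : V) : fl (fl A u) v = fl (fl A v) u := by
  ext w
  simp only [mem_fl]
  by_cases hwv : w = v
  · subst hwv
    by_cases hwu : w = u
    · subst hwu
      simp
    · simp [hwu]
  · by_cases hwu : w = u
    · subst hwu
      simp [hwv]
    · simp [hwu, hwv]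

lemma card_fl_mem {A : Finset V} {v : V} (h : v ∈ A) : (fl A v).card + 1 = A.card := by
  unfold fl
  rw [if_pos h]
  exact Finset.card_erase_add_one h

lemma card_fl_notMem {A : Finset V} {v : V} (h : v ∉ A) : (fl A v).card = A.card + 1 := by
  unfold fl
  rw [if_neg h]
  exact Finset.card_insert_of_notMem h

/-- two moves on different sides do not change the size -/
lemma card_fl_opp {A : Finset V} {u v : V} (h : ¬ (u ∈ A ↔ v ∈ A)) : (fl (fl A u) v).card = A.card := by
  have huv : v ≠ u := by
    rintro rfl
    exact h Iff.rfl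
  by_cases hu : u ∈ A
  · have hv : v ∉ A := fun hv => h ⟨fun _ => hv, fun _ => hu⟩
    have h1 := card_fl_mem hu
    have h2 : v ∉ fl A u := by
      rw [mem_fl, if_neg huv]
      exact hv
    have h3 := card_fl_notMem h2
    omega
  · have hv : v ∈ A := by
      by_contra hv
      exact h ⟨fun h' => absurd h' hu, fun h' => absurd h' hv⟩
    have h1 := card_fl_notMem hu
    have h2 : v ∈ fl A u := by
      rw [mem_fl, if_neg huv]
      exact hv
    have h3 := card_fl_mem h2
    omega

end Pool.Agent.H49.MT
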