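import Pool.Agent.H49.MT.Fl

/-!
# Module Loc: the local structure of a pass

* `crit_ne`: `x ≠ y` (`Conn` is reflexive). `crit_symm`: `Conn` is symmetric.
* `crit_opp`: if `x`, `y` were on the same side, `same` gives `F (fl (fl A x) y) ≤ F (fl A x) + F (fl A y) - F A < F A`, so `fl A x`, `fl (fl A x) y = fl (fl A y) x`, `fl A y` are
  connected below `F A`.
* `loc`: `u` on the side of `x`, `v` on the side of `y`, both lead down. As above `Conn (fl A u) (fl A x)` (or `u = x`), `Conn (fl A v) (fl A y)`. If `F (fl (fl A u) v) < F A` then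
  `Conn (fl A u) (fl A v)`, contradiction to `nc`. So `F A ≤ F (fl (fl A u) v)`, `opp`.
* `dt_le`: `F (fl A v) < F A` implies `Dt v < η` (`near`), so `Dt v ≤ 0` (`lat`: `Dt v = η j`, `j < 1`). `down`: `Dt v < 0` implies `Dt v ≤ -η`, so `F (fl A v) < F A`.
* `loc_y`: `loc` with `u = x`: `Dt v ≤ -1`, `Dt x ≤ 0`, so `0 ≤ Dt v + Dt x + 2 ad` forces `ad = 1`.
-/

set_option autoImplicit false

open Finset

namespace Pool.Agent.H49.MT

variable {V : Type} [Fintype V] [DecidableEq V] {G : SimpleGraph V} [DecidableRel G.Adj] {h η : ℤ}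
  {F : Finset V → ℝ} {A : Finset V} {x y : V}

lemma crit_symm (hc : Crit F A x y) : Crit F A y x :=
  ⟨hc.ly, hc.lx, fun h => hc.nc (Relation.EqvGen.symm _ _ h)⟩

lemma dt_le (hF : PassF G h η F) {v : V} (hv : F (fl A v) < F A) : Dt G h A v ≤ 0 := by
  obtain ⟨j, hj⟩ := hF.lat A v
  have h1 := (abs_lt.1 (hF.near A v)).1
  have h2 : (Dt G h A v : ℝ) < η := by linarith
  have h3 : Dt G h A v < η := by exact_mod_cast h2
  have hp := hF.pos
  rw [hj] at h3 ⊢
  have h4 : j < 1 := by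
    by_contra h5
    push Not at h5
    nlinarith
  have h6 : j ≤ 0 := by omega
  nlinarith

lemma down (hF : PassF G h η F) {v : V} (hv : Dt G h A v < 0) : F (fl A v) < F A := by
  obtain ⟨j, hj⟩ := hF.lat A v
  have h1 := (abs_lt.1 (hF.near A v)).2
  have hp := hF.pos
  have h2 : Dt G h A v ≤ -η := by
    rw [hj] at hv ⊢
    have h4 : j < 0 := by
      by_contra h5
      push Not at h5
      nlinarith
    have h6 : j ≤ -1 := by omega
    nlinarith
  have h3 : (Dt G h A v : ℝ) ≤ -(η : ℝ) := by exact_mod_cast h2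
  linarith

private lemma same_conn (hF : PassF G h η F) {u u' : V} (hu : F (fl A u) < F A)
    (hu' : F (fl A u') < F A) (hs : u ∈ A ↔ u' ∈ A) : Conn F (F A) (fl A u) (fl A u') := by
  by_cases huu : u = u'
  · subst huu
    exact Relation.EqvGen.refl _
  · have h1 := hF.same A u u' huu hs
    have h2 : F (fl (fl A u) u') < F A := by linarith
    have h3 : F (fl (fl A u') u) < F A := by rw [fl_comm]; exact h2
    have h4 : Conn F (F A) (fl A u) (fl (fl A u) u') :=
      Relation.EqvGen.rel _ _ ⟨⟨u', rfl⟩, hu, h2⟩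
    have h5 : Conn F (F A) (fl A u') (fl (fl A u') u) :=
      Relation.EqvGen.rel _ _ ⟨⟨u, rfl⟩, hu', h3⟩
    rw [fl_comm A u' u] at h5
    exact Relation.EqvGen.trans _ _ _ h4 (Relation.EqvGen.symm _ _ h5)

lemma crit_opp (hF : PassF G h η F) (hc : Crit F A x y) : ¬ (x ∈ A ↔ y ∈ A) :=
  fun hs => hc.nc (same_conn hF hc.lx hc.ly hs)

theorem loc (hF : PassF G h η F) (hc : Crit F A x y) {u v : V} (hu : F (fl A u) < F A)
    (hux : u ∈ A ↔ x ∈ A) (hv : F (fl A v) < F A) (hvy : v ∈ A ↔ y ∈ A) :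
    0 ≤ Dt G h A u + Dt G h A v + 2 * ad G u v := by
  have ho : ¬ (u ∈ A ↔ v ∈ A) := fun h1 => crit_opp hF hc (hux.symm.trans (h1.trans hvy))
  have h1 : F A ≤ F (fl (fl A u) v) := by
    by_contra h2
    push Not at h2
    apply hc.nc
    have h3 : F (fl (fl A v) u) < F A := by rw [fl_comm]; exact h2
    have h4 : Conn F (F A) (fl A u) (fl (fl A u) v) :=
      Relation.EqvGen.rel _ _ ⟨⟨v, rfl⟩, hu, h2⟩
    have h5 : Conn F (F A) (fl A v) (fl (fl A v) u) :=
      Relation.EqvGen.rel _ _ ⟨⟨u, rfl⟩, hv, h3⟩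
    rw [fl_comm A v u] at h5
    have h6 := same_conn hF hc.lx hu hux.symm
    have h7 := same_conn hF hv hc.ly hvy
    exact Relation.EqvGen.trans _ _ _ h6 (Relation.EqvGen.trans _ _ _ h4
      (Relation.EqvGen.trans _ _ _ (Relation.EqvGen.symm _ _ h5) h7))
  rw [hF.opp A u v ho] at h1
  have h2 : (0 : ℝ) ≤ (Dt G h A u : ℝ) + Dt G h A v + 2 * ad G u v := by linarith
  exact_mod_cast h2

/-- a vertex with `Dt < 0` on the side of `y` is adjacent to `x` -/
theorem loc_y (hF : PassF G h η F) (hc : Crit F A x y) {v : V} (hv : Dt G h A v < 0)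
    (hvy : v ∈ A ↔ y ∈ A) : G.Adj v x ∧ 0 ≤ Dt G h A v + Dt G h A x + 2 := by
  have h1 := loc hF hc hc.lx Iff.rfl (down hF hv) hvy
  have h2 := dt_le hF hc.lx
  unfold ad at h1
  by_cases ha : G.Adj x v
  · rw [if_pos ha] at h1
    exact ⟨ha.symm, by omega⟩
  · rw [if_neg ha] at h1
    omega

/-- a vertex with `Dt < 0` on the side of `x` is adjacent to `y` -/
theorem loc_x (hF : PassF G h η F) (hc : Crit F A x y) {v : V} (hv : Dt G h A v < 0)
    (hvx : v ∈ A ↔ x ∈ A) : G.Adj v y ∧ 0 ≤ Dt G h A v + Dt G h A y + 2 :=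
  loc_y hF (crit_symm hc) hv hvx

end Pool.Agent.H49.MT
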