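import Pool.Agent.H49.MT.Loc
import Pool.Agent.H49.MT.Lat
import Pool.Agent.H49.MT.MainB

/-!
# Module OddS: the structure of a pass for odd degrees (`h = 0`, `η = 1`)

All `Dv` are odd (`deg_mem`, `deg_notMem`), `Dt G 0 = Dv`. By `crit_opp`, `crit_symm` the pass has `x ∈ A`, `y ∉ A` (or exchanged: then use `Crit F A y x`). `loc` with `u`, `v`, `Dv u < 0`,
`u ∈ A`, `Dv v < 0`, `v ∉ A` (both lead down, `down`): `0 ≤ Dv u + Dv v + 2 ad`, both `≤ -1`: `Dv u = Dv v = -1`, `u ~ v`. For `x`, `y`: `Dv x ≤ 0` is odd, so `≤ -1`.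
`conn`: for `u ∈ A`, `v ∉ A` with `Dv < 0`: `fl A u`, `fl A v` are not connected below `F A`: by `same` and `dir`... `fl A u` is connected to `fl A x` (or `u = x`) and `fl A v` to `fl A y`
(as in the proof of `loc`).
`oddS_card`: `N_A = {u ∈ A : Dv u < 0}` consists of neighbours of `y` in `A`, `Dv y = -1`, so `|N_A| ≤ nin y A = (d+1)/2`; the same for `N_B`.
-/

set_option autoImplicit false

open Finset

namespace Pool.Agent.H49.MT

open Pool.Agent.H49.FR

variable {V : Type} [Fintype V] [DecidableEq V] {G : SimpleGraph V} [DecidableRel G.Adj]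

/-- the structure of a pass for odd degrees -/
structure StrO (G : SimpleGraph V) [DecidableRel G.Adj] (F : Finset V → ℝ) (A : Finset V) : Prop where
  exA : ∃ u ∈ A, Dv G A u < 0
  exB : ∃ v ∉ A, Dv G A v < 0
  low : ∀ v, -1 ≤ Dv G A v
  join : ∀ u ∈ A, Dv G A u < 0 → ∀ v ∉ A, Dv G A v < 0 → G.Adj u v
  nc : ∀ u ∈ A, Dv G A u < 0 → ∀ v ∉ A, Dv G A v < 0 → ¬ Conn F (F A) (fl A u) (fl A v)

private lemma os_same {F : Finset V → ℝ} {h η : ℤ} (hF : PassF G h η F) {A : Finset V} {u u' : V}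
    (hu : F (fl A u) < F A) (hu' : F (fl A u') < F A) (hs : u ∈ A ↔ u' ∈ A) :
    Conn F (F A) (fl A u) (fl A u') := by
  by_cases huu : u = u'
  · subst huu
    exact Relation.EqvGen.refl _
  · have h1 := hF.same A u u' huu hs
    have h2 : F (fl (fl A u) u') < F A := by linarith
    have h3 : F (fl (fl A u') u) < F A := by rw [fl_comm]; exact h2
    have h4 : Conn F (F A) (fl A u) (fl (fl A u) u') :=
      Relation.EqvGen.rel _ _ ⟨⟨u', rfl⟩, hu, h2⟩
    have h5 : Conn F (F A) (fl A u') (fl (fl A u') u) :=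
      Relation.EqvGen.rel _ _ ⟨⟨u, rfl⟩, hu', h3⟩
    rw [fl_comm A u' u] at h5
    exact Relation.EqvGen.trans _ _ _ h4 (Relation.EqvGen.symm _ _ h5)

private lemma os_zero (A : Finset V) (v : V) : Dt G 0 A v = Dv G A v := by
  simp [Dt]

private lemma os_odd {d : ℕ} (hreg : G.IsRegularOfDegree d) (hd : Odd d) (A : Finset V) (v : V)
    (h : Dv G A v ≤ 0) : Dv G A v < 0 := by
  obtain ⟨c, hc⟩ := hd
  have hdeg : (G.degree v : ℤ) = d := by rw [hreg.degree_eq v]
  by_cases hv : v ∈ A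
  · have h1 := deg_mem G hv
    omega
  · have h1 := deg_notMem G hv
    omega

private lemma os_main {d : ℕ} (hreg : G.IsRegularOfDegree d) (hd : Odd d) {F : Finset V → ℝ}
    (hF : PassF G 0 1 F) {A : Finset V} {x y : V} (hc : Crit F A x y) (hx : x ∈ A) (hy : y ∉ A) :
    StrO G F A := by
  have hx0 : Dv G A x < 0 := os_odd hreg hd A x (by rw [← os_zero]; exact dt_le hF hc.lx)
  have hy0 : Dv G A y < 0 := os_odd hreg hd A y (by rw [← os_zero]; exact dt_le hF hc.ly)
  have hdn : ∀ v, Dv G A v < 0 → F (fl A v) < F A := fun v hv =>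
    down hF (by rw [os_zero]; exact hv)
  have key : ∀ u ∈ A, Dv G A u < 0 → ∀ v ∉ A, Dv G A v < 0 →
      G.Adj u v ∧ -1 ≤ Dv G A u ∧ -1 ≤ Dv G A v := by
    intro u hu hu0 v hv hv0
    have h1 := loc hF hc (hdn u hu0) (by simp [hu, hx]) (hdn v hv0) (by simp [hv, hy])
    rw [os_zero, os_zero] at h1
    unfold ad at h1
    by_cases ha : G.Adj u v
    · rw [if_pos ha] at h1
      exact ⟨ha, by omega, by omega⟩
    · rw [if_neg ha] at h1
      omega
  refine ⟨⟨x, hx, hx0⟩, ⟨y, hy, hy0⟩, ?_, fun u hu hu0 v hv hv0 => (key u hu hu0 v hv hv0).1, ?_⟩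
  · intro v
    by_cases hv0 : Dv G A v < 0
    · by_cases hv : v ∈ A
      · exact (key v hv hv0 y hy hy0).2.1
      · exact (key x hx hx0 v hv hv0).2.2
    · omega
  · intro u hu hu0 v hv hv0 hcon
    apply hc.nc
    exact Relation.EqvGen.trans _ _ _ (os_same hF hc.lx (hdn u hu0) (by simp [hu, hx]))
      (Relation.EqvGen.trans _ _ _ hcon (os_same hF (hdn v hv0) hc.ly (by simp [hv, hy])))

theorem odd_str {d : ℕ} (hreg : G.IsRegularOfDegree d) (hd : Odd d) {F : Finset V → ℝ} (hF : PassF G 0 1 F)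
    {A : Finset V} {x y : V} (hc : Crit F A x y) : StrO G F A := by
  have ho := crit_opp hF hc
  by_cases hx : x ∈ A
  · have hy : y ∉ A := fun h => ho (by simp [hx, h])
    exact os_main hreg hd hF hc hx hy
  · have hy : y ∈ A := by
      by_contra h
      exact ho (by simp [hx, h])
    exact os_main hreg hd hF (crit_symm hc) hy hx

theorem strO_card {d : ℕ} (hreg : G.IsRegularOfDegree d) (hd : Odd d) {F : Finset V → ℝ} {A : Finset V}
    (hA : StrO G F A) : 2 * (A.filter fun u => Dv G A u < 0).card ≤ d + 1 ∧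
      2 * ((Aᶜ).filter fun u => Dv G A u < 0).card ≤ d + 1 := by
  obtain ⟨u₀, hu₀, hu₀'⟩ := hA.exA
  obtain ⟨v₀, hv₀, hv₀'⟩ := hA.exB
  have hlu := hA.low u₀
  have hlv := hA.low v₀
  have hdu : (G.degree u₀ : ℤ) = d := by rw [hreg.degree_eq u₀]
  have hdv : (G.degree v₀ : ℤ) = d := by rw [hreg.degree_eq v₀]
  constructor
  · have h1 : (A.filter fun u => Dv G A u < 0).card ≤ nin G v₀ A := by
      unfold nin
      apply card_le_card
      intro u hu
      rw [mem_filter] at hu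
      rw [mem_inter, SimpleGraph.mem_neighborFinset]
      have h2 := hA.join u hu.1 hu.2 v₀ hv₀ hv₀'
      first
        | exact ⟨hu.1, h2.symm⟩
        | exact ⟨h2.symm, hu.1⟩
    have h2 := deg_notMem G hv₀
    have h3 := nin_add G v₀ A
    omega
  · have h1 : ((Aᶜ).filter fun u => Dv G A u < 0).card ≤ nin G u₀ Aᶜ := by
      unfold nin
      apply card_le_card
      intro v hv
      rw [mem_filter, mem_compl] at hv
      rw [mem_inter, SimpleGraph.mem_neighborFinset, mem_compl]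
      have h2 := hA.join u₀ hu₀ hu₀' v hv.1 hv.2
      first
        | exact ⟨hv.1, h2⟩
        | exact ⟨h2, hv.1⟩
    have h2 := deg_mem G hu₀
    have h3 := nin_add G u₀ A
    omega

end Pool.Agent.H49.MT
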