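import Pool.Agent.H49.MT.Fl

/-!
# Module Pass: existence of a mountain pass

Let `R c X Y` be: connected by moves through sets with `F ≤ c` (`Relation.EqvGen fun X Y => (∃ v, Y = fl X v) ∧ F X ≤ c ∧ F Y ≤ c`). For `c = max F` all sets are connected: so the
finite set of values `c` of `F` with `R c ∅ univ` is nonempty; let `c` be the least one. 
* `b ≤ c`: otherwise all sets on the way have `F < b`, so none of them has `card = k₀`; the property `card X < k₀` does not change under one move, so `card univ < k₀`, contradiction.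
* `¬ Conn F c ∅ univ`: otherwise, with `c'` the largest value of `F` below `c` (`F ∅ < b ≤ c`, so there is one), `R c' ∅ univ`, contradiction to the choice of `c`.
* Suppose there is no pass. Let `P X` be: `F X < c` and `Conn F c ∅ X`, or `F X = c` and every `v` with `F (fl X v) < c` has `Conn F c ∅ (fl X v)`. `P` is preserved by moves within
  `F ≤ c`: let `P X`, `Z = fl X v`, `F Z ≤ c`. (i) `F X < c`, `F Z < c`: clear. (ii) `F X < c`, `F Z = c`: `X = fl Z v` leads down from `Z`; if another move `w` leads down from `Z` then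
  `fl Z v`, `fl Z w` are connected below `c = F Z` (no pass), so `Conn ∅ (fl Z w)`. (iii) `F X = c`: `F Z ≠ F X` (`hne`), so `F Z < c` and `Conn ∅ Z`. So `P univ`, `F univ < b ≤ c`,
  hence `Conn F c ∅ univ`, contradiction. (For `EqvGen` use `P X ↔ P Y`, moves are symmetric: `fl_fl`.)
-/

set_option autoImplicit false

open Finset

namespace Pool.Agent.H49.MT

variable {V : Type} [Fintype V] [DecidableEq V]

/-- connected by moves through sets with value at most `c` -/
private def RR (F : Finset V → ℝ) (c : ℝ) : Finset V → Finset V → Prop :=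
  Relation.EqvGen fun X Y => (∃ v, Y = fl X v) ∧ F X ≤ c ∧ F Y ≤ c

private lemma rr_all (F : Finset V → ℝ) {c : ℝ} (hc : ∀ A, F A ≤ c) (A : Finset V) :
    RR F c ∅ A := by
  induction A using Finset.induction_on with
  | empty => exact Relation.EqvGen.refl _
  | insert v A hv ih =>
    refine Relation.EqvGen.trans _ _ _ ih (Relation.EqvGen.rel _ _ ⟨⟨v, ?_⟩, hc _, hc _⟩)
    unfold fl
    rw [if_neg hv]

private lemma rr_card (F : Finset V → ℝ) {b c : ℝ} {k₀ : ℕ} (hcb : c < b)
    (hk : ∀ A : Finset V, A.card = k₀ → b ≤ F A) {X Y : Finset V} (h : RR F c X Y) :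
    X.card < k₀ ↔ Y.card < k₀ := by
  induction h with
  | rel X Y h =>
    obtain ⟨⟨v, rfl⟩, hX, hY⟩ := h
    have h1 : X.card ≠ k₀ := fun h => by
      have := hk X h
      linarith
    have h2 : (fl X v).card ≠ k₀ := fun h => by
      have := hk _ h
      linarith
    by_cases hv : v ∈ X
    · have := card_fl_mem hv
      omega
    · have := card_fl_notMem hv
      omega
  | refl X => exact Iff.rfl
  | symm X Y _ ih => exact ih.symm
  | trans X Y Z _ _ ih1 ih2 => exact ih1.trans ih2

private lemma rr_of_conn (F : Finset V → ℝ) {c c' : ℝ} (hc : ∀ A, F A < c → F A ≤ c')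
    {X Y : Finset V} (h : Conn F c X Y) : RR F c' X Y := by
  induction h with
  | rel X Y h => exact Relation.EqvGen.rel _ _ ⟨h.1, hc _ h.2.1, hc _ h.2.2⟩
  | refl X => exact Relation.EqvGen.refl _
  | symm X Y _ ih => exact Relation.EqvGen.symm _ _ ih
  | trans X Y Z _ _ ih1 ih2 => exact Relation.EqvGen.trans _ _ _ ih1 ih2

/-- the property which propagates when there is no pass -/
private def PP (F : Finset V → ℝ) (c : ℝ) (X : Finset V) : Prop :=
  (F X < c ∧ Conn F c ∅ X) ∨ (F X = c ∧ ∀ v, F (fl X v) < c → Conn F c ∅ (fl X v))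

private lemma pp_move (F : Finset V → ℝ) (hne : ∀ A v, F (fl A v) ≠ F A) {b c : ℝ} (hbc : b ≤ c)
    (hno : ∀ A x y, b ≤ F A → ¬ Crit F A x y) {X : Finset V} {v : V} (hX : F X ≤ c)
    (hZ : F (fl X v) ≤ c) (h : PP F c X) : PP F c (fl X v) := by
  rcases h with ⟨h1, h2⟩ | ⟨h1, h2⟩
  · rcases lt_or_eq_of_le hZ with hZ' | hZ'
    · exact Or.inl ⟨hZ', Relation.EqvGen.trans _ _ _ h2
        (Relation.EqvGen.rel _ _ ⟨⟨v, rfl⟩, h1, hZ'⟩)⟩
    · refine Or.inr ⟨hZ', fun w hw => ?_⟩
      have hcr := hno (fl X v) v w (by rw [hZ']; exact hbc)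
      have hconn : Conn F c X (fl (fl X v) w) := by
        by_contra hcon
        refine hcr ⟨?_, ?_, ?_⟩
        · rw [fl_fl, hZ']
          exact h1
        · rw [hZ']
          exact hw
        · rw [fl_fl, hZ']
          exact hcon
      exact Relation.EqvGen.trans _ _ _ h2 hconn
  · have h3 : F (fl X v) < c := by
      refine lt_of_le_of_ne hZ ?_
      rw [← h1]
      exact hne X v
    exact Or.inl ⟨h3, h2 v h3⟩

private lemma pp_rr (F : Finset V → ℝ) (hne : ∀ A v, F (fl A v) ≠ F A) {b c : ℝ} (hbc : b ≤ c)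
    (hno : ∀ A x y, b ≤ F A → ¬ Crit F A x y) {X Y : Finset V} (h : RR F c X Y) :
    PP F c X ↔ PP F c Y := by
  induction h with
  | rel X Y h =>
    obtain ⟨⟨v, rfl⟩, hX, hY⟩ := h
    refine ⟨fun h => pp_move F hne hbc hno hX hY h, fun h => ?_⟩
    have := pp_move F hne hbc hno (X := fl X v) (v := v) hY (by rw [fl_fl]; exact hX) h
    rwa [fl_fl] at this
  | refl X => exact Iff.rfl
  | symm X Y _ ih => exact ih.symm
  | trans X Y Z _ _ ih1 ih2 => exact ih1.trans ih2

theorem pass_exists (F : Finset V → ℝ) (hne : ∀ A v, F (fl A v) ≠ F A) {b : ℝ} {k₀ : ℕ}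
    (h0 : F ∅ < b) (h1 : F univ < b) (hk : ∀ A : Finset V, A.card = k₀ → b ≤ F A)
    (hk0 : 0 < k₀) (hk1 : k₀ < Fintype.card V) :
    ∃ A x y, b ≤ F A ∧ Crit F A x y := by
  classical
  by_contra hcon
  have hno : ∀ A x y, b ≤ F A → ¬ Crit F A x y := fun A x y hb hc => hcon ⟨A, x, y, hb, hc⟩
  set vals : Finset ℝ := (Finset.univ : Finset (Finset V)).image F with hvals
  have hmem : ∀ A, F A ∈ vals := fun A => Finset.mem_image_of_mem F (Finset.mem_univ A)
  have hvne : vals.Nonempty := ⟨_, hmem ∅⟩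
  set S : Finset ℝ := vals.filter fun c => RR F c ∅ univ with hS
  have hSne : S.Nonempty := by
    refine ⟨vals.max' hvne, ?_⟩
    rw [hS, Finset.mem_filter]
    exact ⟨Finset.max'_mem _ _, rr_all F (fun A => Finset.le_max' _ _ (hmem A)) _⟩
  set c : ℝ := S.min' hSne with hc
  have hcS : c ∈ S := Finset.min'_mem _ _
  have hcR : RR F c ∅ univ := (Finset.mem_filter.1 hcS).2
  have hbc : b ≤ c := by
    by_contra hlt
    push Not at hlt
    have := rr_card F hlt hk hcR
    rw [Finset.card_empty, Finset.card_univ] at this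
    have h2 := this.1 hk0
    omega
  have hnc : ¬ Conn F c ∅ univ := by
    intro hconn
    set low : Finset ℝ := vals.filter fun x => x < c with hlow
    have hlne : low.Nonempty := ⟨F ∅, Finset.mem_filter.2 ⟨hmem _, lt_of_lt_of_le h0 hbc⟩⟩
    set c' : ℝ := low.max' hlne with hc'
    have hc'l : c' ∈ low := Finset.max'_mem _ _
    have h2 := Finset.mem_filter.1 hc'l
    have h3 : RR F c' ∅ univ := rr_of_conn F
      (fun A hA => Finset.le_max' _ _ (Finset.mem_filter.2 ⟨hmem A, hA⟩)) hconn
    have h4 : c' ∈ S := Finset.mem_filter.2 ⟨h2.1, h3⟩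
    have h5 : c ≤ c' := Finset.min'_le _ _ h4
    exact absurd h2.2 (not_lt.2 h5)
  have hP0 : PP F c (∅ : Finset V) := Or.inl ⟨lt_of_lt_of_le h0 hbc, Relation.EqvGen.refl _⟩
  have hP1 : PP F c (univ : Finset V) := (pp_rr F hne hbc hno hcR).1 hP0
  rcases hP1 with ⟨_, h3⟩ | ⟨h2, _⟩
  · exact hnc h3
  · have : F (univ : Finset V) < c := lt_of_lt_of_le h1 hbc
    exact absurd h2 (ne_of_lt this)

end Pool.Agent.H49.MT
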